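import Mathlib

/-!
# Functions that are polynomial along every line
-/

namespace Pool.Agent.Lib.MP_fda97a_al

open Polynomial

variable {E : Type*} [AddCommGroup E] [Module ℂ E]

/-- `f` is polynomial along every affine line. -/
def LP (f : E → ℂ) : Prop := ∀ x v : E, ∃ P : ℂ[X], ∀ t : ℂ, f (x + t • v) = P.eval t

namespace LP

lemma const (c : ℂ) : LP (fun _ : E => c) := fun _ _ => ⟨C c, fun t => by simp⟩

lemma add {f g : E → ℂ} (hf : LP f) (hg : LP g) : LP (fun x => f x + g x) := by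
  intro x v
  obtain ⟨P, hP⟩ := hf x v
  obtain ⟨Q, hQ⟩ := hg x v
  exact ⟨P + Q, fun t => by simp only [hP, hQ, eval_add]⟩

lemma mul {f g : E → ℂ} (hf : LP f) (hg : LP g) : LP (fun x => f x * g x) := by
  intro x v
  obtain ⟨P, hP⟩ := hf x v
  obtain ⟨Q, hQ⟩ := hg x v
  exact ⟨P * Q, fun t => by simp only [hP, hQ, eval_mul]⟩

lemma neg {f : E → ℂ} (hf : LP f) : LP (fun x => - f x) := by
  intro x v
  obtain ⟨P, hP⟩ := hf x v
  exact ⟨-P, fun t => by simp only [hP, eval_neg]⟩

lemma sub {f g : E → ℂ} (hf : LP f) (hg : LP g) : LP (fun x => f x - g x) := by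
  intro x v
  obtain ⟨P, hP⟩ := hf x v
  obtain ⟨Q, hQ⟩ := hg x v
  exact ⟨P - Q, fun t => by simp only [hP, hQ, eval_sub]⟩

lemma sum {ι : Type*} (s : Finset ι) {f : ι → E → ℂ} (hf : ∀ i ∈ s, LP (f i)) :
    LP (fun x => ∑ i ∈ s, f i x) := by
  classical
  induction s using Finset.induction_on with
  | empty => simpa using const (E := E) 0
  | insert a s ha ih =>
    have h1 := hf a (Finset.mem_insert_self _ _)
    have h2 := ih (fun i hi => hf i (Finset.mem_insert_of_mem hi))
    have h3 := h1.add h2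
    have : (fun x => ∑ i ∈ insert a s, f i x) = fun x => f a x + ∑ i ∈ s, f i x := by
      funext x
      rw [Finset.sum_insert ha]
    rwa [this]

lemma prod {ι : Type*} (s : Finset ι) {f : ι → E → ℂ} (hf : ∀ i ∈ s, LP (f i)) :
    LP (fun x => ∏ i ∈ s, f i x) := by
  classical
  induction s using Finset.induction_on with
  | empty => simpa using const (E := E) 1
  | insert a s ha ih =>
    have h1 := hf a (Finset.mem_insert_self _ _)
    have h2 := ih (fun i hi => hf i (Finset.mem_insert_of_mem hi))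
    have h3 := h1.mul h2
    have : (fun x => ∏ i ∈ insert a s, f i x) = fun x => f a x * ∏ i ∈ s, f i x := by
      funext x
      rw [Finset.prod_insert ha]
    rwa [this]

lemma pow {f : E → ℂ} (hf : LP f) (k : ℕ) : LP (fun x => f x ^ k) := by
  induction k with
  | zero => simpa using const (E := E) 1
  | succ k ih => simpa only [pow_succ] using ih.mul hf

lemma linear (f : E →ₗ[ℂ] ℂ) : LP (fun x => f x) := by
  intro x v
  exact ⟨C (f x) + X * C (f v), fun t => by
    simp only [map_add, map_smul, smul_eq_mul, eval_add, eval_C, eval_mul, eval_X]⟩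

/-- the zero set of a nonzero `LP` function cannot contain a whole neighbourhood along a line -/
lemma poly_ne {f : E → ℂ} (hf : LP f) {x y : E} (hy : f y ≠ 0) :
    ∃ P : ℂ[X], P ≠ 0 ∧ ∀ t : ℂ, f (x + t • (y - x)) = P.eval t := by
  obtain ⟨P, hP⟩ := hf x (y - x)
  refine ⟨P, ?_, hP⟩
  rintro rfl
  have := hP 1
  rw [one_smul, add_sub_cancel, eval_zero] at this
  exact hy this

lemma exists_ne {f g : E → ℂ} (hf : LP f) (hg : LP g) (h1 : ∃ x, f x ≠ 0) (h2 : ∃ x, g x ≠ 0) :
    ∃ x, f x ≠ 0 ∧ g x ≠ 0 := by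
  obtain ⟨x, hx⟩ := h1
  obtain ⟨y, hy⟩ := h2
  obtain ⟨Q, hQ0, hQ⟩ := hg.poly_ne (x := x) hy
  obtain ⟨P, hP⟩ := hf x (y - x)
  have hP0 : P ≠ 0 := by
    rintro rfl
    have := hP 0
    rw [zero_smul, add_zero, eval_zero] at this
    exact hx this
  have hPQ : P * Q ≠ 0 := mul_ne_zero hP0 hQ0
  obtain ⟨t, ht⟩ : ∃ t, (P * Q).eval t ≠ 0 := by
    by_contra hcon
    push Not at hcon
    exact hPQ (Polynomial.funext (fun r => by rw [hcon r, eval_zero]))
  rw [eval_mul] at ht
  refine ⟨x + t • (y - x), ?_, ?_⟩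
  · rw [hP]
    exact left_ne_zero_of_mul ht
  · rw [hQ]
    exact right_ne_zero_of_mul ht

lemma exists_ne_finset {ι : Type*} (s : Finset ι) {f : ι → E → ℂ} (hf : ∀ i ∈ s, LP (f i))
    (h : ∀ i ∈ s, ∃ x, f i x ≠ 0) : ∃ x, ∀ i ∈ s, f i x ≠ 0 := by
  classical
  induction s using Finset.induction_on with
  | empty => exact ⟨0, by simp⟩
  | insert a s ha ih =>
    obtain ⟨y, hy⟩ := ih (fun i hi => hf i (Finset.mem_insert_of_mem hi))
      (fun i hi => h i (Finset.mem_insert_of_mem hi))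
    obtain ⟨x, hx1, hx2⟩ := (hf a (Finset.mem_insert_self _ _)).exists_ne
      (prod s (fun i hi => hf i (Finset.mem_insert_of_mem hi)))
      (h a (Finset.mem_insert_self _ _)) ⟨y, Finset.prod_ne_zero_iff.mpr hy⟩
    refine ⟨x, ?_⟩
    intro i hi
    rcases Finset.mem_insert.mp hi with rfl | hi
    · exact hx1
    · exact Finset.prod_ne_zero_iff.mp hx2 i hi

/-- An `LP` function vanishing on the nonvanishing set of a nonzero `LP` function is zero. -/
lemma eq_zero {f g : E → ℂ} (hf : LP f) (hg : LP g) (h2 : ∃ x, g x ≠ 0)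
    (h : ∀ x, g x ≠ 0 → f x = 0) (x : E) : f x = 0 := by
  by_contra hne
  obtain ⟨y, hy1, hy2⟩ := hf.exists_ne hg ⟨x, hne⟩ h2
  exact hy1 (h y hy2)

lemma comp_linear {F : Type*} [AddCommGroup F] [Module ℂ F] {f : E → ℂ} (hf : LP f)
    (L : F →ₗ[ℂ] E) : LP (fun x => f (L x)) := by
  intro x v
  obtain ⟨P, hP⟩ := hf (L x) (L v)
  exact ⟨P, fun t => by beta_reduce; rw [map_add, map_smul, hP]⟩

/-- all but finitely many points of a line -/
lemma infinite_ne {f : E → ℂ} (hf : LP f) {x : E} (hx : f x ≠ 0) (v : E) :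
    {t : ℂ | f (x + t • v) ≠ 0}.Infinite := by
  obtain ⟨P, hP⟩ := hf x v
  have hP0 : P ≠ 0 := by
    rintro rfl
    have := hP 0
    rw [zero_smul, add_zero, eval_zero] at this
    exact hx this
  have h1 : {t : ℂ | f (x + t • v) ≠ 0} = {t : ℂ | P.IsRoot t}ᶜ := by
    ext t
    simp [hP, Polynomial.IsRoot]
  rw [h1]
  exact (Polynomial.finite_setOfPred_isRoot hP0).infinite_compl

end LP

/-- matrix valued functions with `LP` entries -/
def LPM {m k : Type*} (M : E → Matrix m k ℂ) : Prop := ∀ i j, LP (fun x => M x i j)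

namespace LPM

variable {m k l : Type*}

lemma const (c : Matrix m k ℂ) : LPM (fun _ : E => c) := fun _ _ => LP.const _

lemma add {M N : E → Matrix m k ℂ} (hM : LPM M) (hN : LPM N) : LPM (fun x => M x + N x) :=
  fun i j => (hM i j).add (hN i j)

lemma sub {M N : E → Matrix m k ℂ} (hM : LPM M) (hN : LPM N) : LPM (fun x => M x - N x) :=
  fun i j => (hM i j).sub (hN i j)

lemma mul [Fintype k] {M : E → Matrix m k ℂ} {N : E → Matrix k l ℂ} (hM : LPM M) (hN : LPM N) :
    LPM (fun x => M x * N x) := by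
  intro i j
  simp only [Matrix.mul_apply]
  exact LP.sum _ fun a _ => (hM i a).mul (hN a j)

lemma trace [Fintype m] {M : E → Matrix m m ℂ} (hM : LPM M) : LP (fun x => (M x).trace) := by
  simp only [Matrix.trace, Matrix.diag]
  exact LP.sum _ fun i _ => hM i i

lemma linear (L : E →ₗ[ℂ] Matrix m k ℂ) : LPM (fun x => L x) := by
  intro i j
  have : LP (fun x => (LinearMap.proj j ∘ₗ LinearMap.proj i ∘ₗ
    (L : E →ₗ[ℂ] (m → k → ℂ))) x) := LP.linear _
  exact this

/-- comparison with a polynomial matrix along a line -/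
lemma exists_poly {M : E → Matrix m k ℂ} (hM : LPM M) (x v : E) :
    ∃ P : Matrix m k ℂ[X], ∀ t : ℂ, M (x + t • v) = P.map (eval t) := by
  choose P hP using fun i j => hM i j x v
  refine ⟨Matrix.of fun i j => P i j, fun t => ?_⟩
  ext i j
  simp [hP]

lemma det [Fintype m] [DecidableEq m] {M : E → Matrix m m ℂ} (hM : LPM M) :
    LP (fun x => (M x).det) := by
  intro x v
  obtain ⟨P, hP⟩ := hM.exists_poly x v
  refine ⟨P.det, fun t => ?_⟩
  beta_reduce
  rw [hP]
  have := (RingHom.map_det (evalRingHom t) P).symm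
  simpa using this

lemma charpoly_coeff [Fintype m] [DecidableEq m] {M : E → Matrix m m ℂ} (hM : LPM M) (i : ℕ) :
    LP (fun x => (M x).charpoly.coeff i) := by
  intro x v
  obtain ⟨P, hP⟩ := hM.exists_poly x v
  refine ⟨P.charpoly.coeff i, fun t => ?_⟩
  have h1 : M (x + t • v) = P.map (evalRingHom t) := hP t
  beta_reduce
  rw [h1, Matrix.charpoly_map, coeff_map]
  rfl

end LPM

end Pool.Agent.Lib.MP_fda97a_al
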