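import Mathlib
import Pool.Agent.Lib.MP_fda97a_al.LP

/-!
# Commutators, the form `tr [T,S]^2`, rank one matrices
-/

namespace Pool.Agent.Lib.MP_fda97a_al

open Matrix

variable {n : ℕ}

/-- commutator -/
def br (T S : Matrix (Fin n) (Fin n) ℂ) : Matrix (Fin n) (Fin n) ℂ := T * S - S * T

/-- `tr [T,S]^2` -/
def q (T S : Matrix (Fin n) (Fin n) ℂ) : ℂ := (br T S * br T S).trace

/-- `tr [T,S][T,S']` -/
def q3 (T S S' : Matrix (Fin n) (Fin n) ℂ) : ℂ := (br T S * br T S').trace

/-- traceless part -/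
noncomputable def tl (T : Matrix (Fin n) (Fin n) ℂ) : Matrix (Fin n) (Fin n) ℂ :=
  T - (T.trace / n) • 1

lemma q_symm (T S : Matrix (Fin n) (Fin n) ℂ) : q T S = q S T := by
  unfold q
  have : br T S = - br S T := by unfold br; noncomm_ring
  rw [this, neg_mul_neg]

lemma q_self (T : Matrix (Fin n) (Fin n) ℂ) : q T T = 0 := by
  unfold q br
  simp

lemma br_add_scalar (T S : Matrix (Fin n) (Fin n) ℂ) (a b : ℂ) :
    br (T + a • 1) (S + b • 1) = br T S := by
  unfold br
  simp only [add_mul, mul_add, smul_mul_assoc, mul_smul_comm, one_mul, mul_one, smul_add, smul_smul]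
  rw [mul_comm b a]
  abel

lemma br_tl_left (T S : Matrix (Fin n) (Fin n) ℂ) : br (tl T) S = br T S := by
  have := br_add_scalar T S (-(T.trace / n)) 0
  rw [zero_smul, add_zero, neg_smul, ← sub_eq_add_neg] at this
  exact this

lemma q_tl (T S : Matrix (Fin n) (Fin n) ℂ) : q (tl T) S = q T S := by
  unfold q
  rw [br_tl_left]

lemma q_add_right (T S S' : Matrix (Fin n) (Fin n) ℂ) :
    q T (S + S') = q T S + 2 * q3 T S S' + q T S' := by
  unfold q q3
  have h1 : br T (S + S') = br T S + br T S' := by unfold br; noncomm_ring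
  have h2 : (br T S' * br T S).trace = (br T S * br T S').trace := Matrix.trace_mul_comm _ _
  rw [h1]
  simp only [add_mul, mul_add, Matrix.trace_add, h2]
  ring

lemma trace_tl (hn : n ≠ 0) (T : Matrix (Fin n) (Fin n) ℂ) : (tl T).trace = 0 := by
  unfold tl
  rw [Matrix.trace_sub, Matrix.trace_smul, Matrix.trace_one, Fintype.card_fin, smul_eq_mul]
  have : (n : ℂ) ≠ 0 := by exact_mod_cast hn
  field_simp
  ring

lemma trace_vmv_mul (u v w z : Fin n → ℂ) :
    (vecMulVec u v * vecMulVec w z).trace = (v ⬝ᵥ w) * (z ⬝ᵥ u) := by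
  rw [vecMulVec_mul_vecMulVec, Matrix.trace_vecMulVec, dotProduct_smul, smul_eq_mul,
    dotProduct_comm u z]

lemma br_vmv (T : Matrix (Fin n) (Fin n) ℂ) (x f : Fin n → ℂ) :
    br T (vecMulVec x f) = vecMulVec (T *ᵥ x) f - vecMulVec x (f ᵥ* T) := by
  unfold br
  rw [mul_vecMulVec, vecMulVec_mul]

/-- value of `q3` on rank one matrices -/
lemma q3_vmv (T : Matrix (Fin n) (Fin n) ℂ) (x f y g : Fin n → ℂ) :
    q3 T (vecMulVec x f) (vecMulVec y g) =
      2 * (f ⬝ᵥ T *ᵥ y) * (g ⬝ᵥ T *ᵥ x) - (f ⬝ᵥ y) * (g ⬝ᵥ (T * T) *ᵥ x)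
        - (g ⬝ᵥ x) * (f ⬝ᵥ (T * T) *ᵥ y) := by
  unfold q3
  rw [br_vmv, br_vmv]
  simp only [sub_mul, mul_sub, Matrix.trace_sub, trace_vmv_mul, ← dotProduct_mulVec,
    mulVec_mulVec]
  ring

lemma q_vmv (T : Matrix (Fin n) (Fin n) ℂ) (x f : Fin n → ℂ) :
    q T (vecMulVec x f) = 2 * (f ⬝ᵥ T *ᵥ x) ^ 2 - 2 * (f ⬝ᵥ x) * (f ⬝ᵥ (T * T) *ᵥ x) := by
  have := q3_vmv T x f x f
  unfold q3 at this
  unfold q
  rw [this]
  ring

/-- nondegeneracy on `Sym² (sl_n)` -/
lemma nondeg {ι : Type*} [Fintype ι] (c : ι → ℂ) (T : ι → Matrix (Fin n) (Fin n) ℂ)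
    (h : ∀ S, ∑ i, c i * q (T i) S = 0) (a b c' d : Fin n) :
    ∑ i, c i * (tl (T i) a b * tl (T i) c' d) = 0 := by
  have hn : n ≠ 0 := by
    rintro rfl
    exact Fin.elim0 a
  have hn' : (n : ℂ) ≠ 0 := by exact_mod_cast hn
  -- polarize
  have h3 : ∀ S S', ∑ i, c i * q3 (tl (T i)) S S' = 0 := by
    intro S S'
    have e1 := h (S + S')
    have e2 := h S
    have e3 := h S'
    simp only [q_add_right, mul_add, Finset.sum_add_distrib] at e1
    rw [e2, e3, zero_add, add_zero] at e1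
    have e4 : ∀ i, q3 (tl (T i)) S S' = q3 (T i) S S' := by
      intro i
      unfold q3
      rw [br_tl_left, br_tl_left]
    simp only [e4]
    have e5 : ∑ i, c i * (2 * q3 (T i) S S') = 2 * ∑ i, c i * q3 (T i) S S' := by
      rw [Finset.mul_sum]
      exact Finset.sum_congr rfl fun i _ => by ring
    rw [e5] at e1
    exact (mul_eq_zero.mp e1).resolve_left two_ne_zero
  -- the matrix `∑ c_i T_i^2`
  set K : Fin n → Fin n → Fin n → Fin n → ℂ :=
    fun a b c' d => ∑ i, c i * (tl (T i) a b * tl (T i) c' d) with hK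
  set M : Matrix (Fin n) (Fin n) ℂ := ∑ i, c i • (tl (T i) * tl (T i)) with hM
  have key : ∀ a b c' d, 2 * K b c' d a = (if b = c' then M d a else 0) +
      (if d = a then M b c' else 0) := by
    intro a b c' d
    have e1 := h3 (vecMulVec (Pi.single a 1) (Pi.single b 1))
      (vecMulVec (Pi.single c' 1) (Pi.single d 1))
    simp only [q3_vmv, mulVec_single_one, single_one_dotProduct, Matrix.col_apply] at e1
    have e2 : ∀ x y : Fin n, (Pi.single y (1 : ℂ) : Fin n → ℂ) x = if x = y then 1 else 0 := by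
      intro x y
      rw [Pi.single_apply]
    simp only [e2] at e1
    have hM' : ∀ x y, M x y = ∑ i, c i * (tl (T i) * tl (T i)) x y := by
      intro x y
      rw [hM, Matrix.sum_apply]
      rfl
    rw [hM', hM', hK]
    simp only
    have e3 : ∀ i, c i * (2 * tl (T i) b c' * tl (T i) d a -
        (if b = c' then 1 else 0) * (tl (T i) * tl (T i)) d a -
        (if d = a then 1 else 0) * (tl (T i) * tl (T i)) b c') =
        2 * (c i * (tl (T i) b c' * tl (T i) d a)) -
        (if b = c' then 1 else 0) * (c i * (tl (T i) * tl (T i)) d a) -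
        (if d = a then 1 else 0) * (c i * (tl (T i) * tl (T i)) b c') := by
      intro i; ring
    simp only [e3, Finset.sum_sub_distrib, ← Finset.mul_sum] at e1
    split_ifs at e1 ⊢ <;> linear_combination e1
  -- partial trace
  have hMz : ∀ d a, (n : ℂ) * M d a + (if d = a then M.trace else 0) = 0 := by
    intro d a
    have e1 : ∑ b, 2 * K b b d a = 0 := by
      rw [← Finset.mul_sum, hK]
      simp only
      rw [Finset.sum_comm]
      have : ∀ i, ∑ b, c i * (tl (T i) b b * tl (T i) d a) = 0 := by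
        intro i
        rw [← Finset.mul_sum, ← Finset.sum_mul]
        have : ∑ b, tl (T i) b b = 0 := trace_tl hn (T i)
        rw [this]
        ring
      simp only [this, Finset.sum_const_zero, mul_zero]
    simp only [key, if_true, Finset.sum_add_distrib, Finset.sum_const, Finset.card_univ,
      Fintype.card_fin, nsmul_eq_mul] at e1
    have e2 : (∑ x, if d = a then M x x else 0) = if d = a then M.trace else 0 := by
      split_ifs
      · rfl
      · simp
    rw [e2] at e1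
    exact e1
  have htr : M.trace = 0 := by
    have e1 : ∑ a, ((n : ℂ) * M a a + (if a = a then M.trace else 0)) = 0 :=
      Finset.sum_eq_zero fun a _ => hMz a a
    simp only [if_true, Finset.sum_add_distrib, Finset.sum_const, Finset.card_univ,
      Fintype.card_fin, nsmul_eq_mul, ← Finset.mul_sum] at e1
    have e2 : ∑ i, M i i = M.trace := rfl
    rw [e2] at e1
    have : (2 * n : ℂ) * M.trace = 0 := by linear_combination e1
    exact (mul_eq_zero.mp this).resolve_left (mul_ne_zero two_ne_zero hn')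
  have hM0 : ∀ d a, M d a = 0 := by
    intro d a
    have := hMz d a
    rw [htr, ite_self, add_zero] at this
    exact (mul_eq_zero.mp this).resolve_left hn'
  have := key d a b c'
  rw [hM0, hM0, ite_self, ite_self, add_zero] at this
  exact (mul_eq_zero.mp this).resolve_left two_ne_zero

/-- A matrix with `f·Tx = 0` whenever `f·x = 0` is scalar. -/
lemma scalar_of {T : Matrix (Fin n) (Fin n) ℂ}
    (h : ∀ x f : Fin n → ℂ, f ⬝ᵥ x = 0 → f ⬝ᵥ T *ᵥ x = 0) : ∃ c : ℂ, T = c • 1 := by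
  rcases Nat.eq_zero_or_pos n with rfl | hn
  · exact ⟨0, by ext i; exact Fin.elim0 i⟩
  set o : Fin n := ⟨0, hn⟩
  have hoff : ∀ i j, i ≠ j → T i j = 0 := by
    intro i j hij
    have := h (Pi.single j 1) (Pi.single i 1) (by
      rw [single_one_dotProduct, Pi.single_apply, if_neg hij])
    simpa [mulVec_single_one, single_one_dotProduct, Matrix.col_apply] using this
  refine ⟨T o o, ?_⟩
  ext i j
  rw [Matrix.smul_apply, Matrix.one_apply]
  by_cases hij : i = j
  · subst hij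
    rw [if_pos rfl, smul_eq_mul, mul_one]
    by_cases hio : i = o
    · rw [hio]
    · have := h (Pi.single i 1 + Pi.single o 1) (Pi.single i 1 - Pi.single o 1) (by
        simp [hio, Ne.symm hio])
      simp only [mulVec_add, mulVec_single_one, sub_dotProduct, dotProduct_add,
        single_one_dotProduct, Matrix.col_apply] at this
      rw [hoff i o hio, hoff o i (Ne.symm hio)] at this
      linear_combination this
  · rw [if_neg hij, smul_zero, hoff i j hij]

/-! ### Vector valued polynomial functions -/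

section LPV

variable {E : Type*} [AddCommGroup E] [Module ℂ E]

/-- vector valued functions with `LP` entries -/
def LPV {k : Type*} (v : E → (k → ℂ)) : Prop := ∀ i, LP (fun x => v x i)

lemma LPV.const {k : Type*} (c : k → ℂ) : LPV (fun _ : E => c) := fun _ => LP.const _

lemma LPV.linear {k : Type*} (L : E →ₗ[ℂ] (k → ℂ)) : LPV (fun x => L x) := by
  intro i
  have : LP (fun x => (LinearMap.proj i ∘ₗ L) x) := LP.linear _
  exact this

lemma LPV.dot {k : Type*} [Fintype k] {v w : E → (k → ℂ)} (hv : LPV v) (hw : LPV w) :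
    LP (fun x => v x ⬝ᵥ w x) := by
  simp only [dotProduct]
  exact LP.sum _ fun i _ => (hv i).mul (hw i)

lemma LPV.sub {k : Type*} {v w : E → (k → ℂ)} (hv : LPV v) (hw : LPV w) :
    LPV (fun x => v x - w x) := fun i => (hv i).sub (hw i)

lemma LPV.smul {k : Type*} {a : E → ℂ} {v : E → (k → ℂ)} (ha : LP a) (hv : LPV v) :
    LPV (fun x => a x • v x) := fun i => ha.mul (hv i)

lemma LPV.mulVec {k l : Type*} [Fintype l] {M : E → Matrix k l ℂ} {v : E → (l → ℂ)}
    (hM : LPM M) (hv : LPV v) : LPV (fun x => M x *ᵥ v x) := by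
  intro i
  simp only [Matrix.mulVec, dotProduct]
  exact LP.sum _ fun j _ => (hM i j).mul (hv j)

lemma LPM.vecMulVec {k l : Type*} {v : E → (k → ℂ)} {w : E → (l → ℂ)} (hv : LPV v)
    (hw : LPV w) : LPM (fun x => Matrix.vecMulVec (v x) (w x)) := by
  intro i j
  simp only [Matrix.vecMulVec_apply]
  exact (hv i).mul (hw j)

end LPV

/-- parameter space `(x, g, h)` for pairs `(x, f)` with `f·x = 0` -/
abbrev Par (n : ℕ) := (Fin n → ℂ) × (Fin n → ℂ) × (Fin n → ℂ)

/-- the covector `f = (g·x) h - (h·x) g` -/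
def cov (p : Par n) : Fin n → ℂ := (p.2.1 ⬝ᵥ p.1) • p.2.2 - (p.2.2 ⬝ᵥ p.1) • p.2.1

lemma cov_dot (p : Par n) : cov p ⬝ᵥ p.1 = 0 := by
  unfold cov
  rw [sub_dotProduct, smul_dotProduct, smul_dotProduct, smul_eq_mul, smul_eq_mul]
  ring

lemma lpv_fst : LPV (fun p : Par n => p.1) :=
  LPV.linear (LinearMap.fst ℂ (Fin n → ℂ) ((Fin n → ℂ) × (Fin n → ℂ)))

lemma lpv_snd : LPV (fun p : Par n => p.2.1) :=
  LPV.linear ((LinearMap.fst ℂ (Fin n → ℂ) (Fin n → ℂ)) ∘ₗ
    (LinearMap.snd ℂ (Fin n → ℂ) ((Fin n → ℂ) × (Fin n → ℂ))))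

lemma lpv_trd : LPV (fun p : Par n => p.2.2) :=
  LPV.linear ((LinearMap.snd ℂ (Fin n → ℂ) (Fin n → ℂ)) ∘ₗ
    (LinearMap.snd ℂ (Fin n → ℂ) ((Fin n → ℂ) × (Fin n → ℂ))))

lemma lpv_cov : LPV (fun p : Par n => cov p) :=
  (LPV.smul (lpv_snd.dot lpv_fst) lpv_trd).sub (LPV.smul (lpv_trd.dot lpv_fst) lpv_snd)

lemma exists_par {x f : Fin n → ℂ} (hx : x ≠ 0) (hf : f ⬝ᵥ x = 0) :
    ∃ p : Par n, p.1 = x ∧ cov p = f := by
  obtain ⟨i, hi⟩ := Function.ne_iff.mp hx
  rw [Pi.zero_apply] at hi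
  refine ⟨(x, Pi.single i (x i)⁻¹, f), rfl, ?_⟩
  unfold cov
  simp only
  rw [hf, zero_smul, sub_zero, single_dotProduct, inv_mul_cancel₀ hi, one_smul]

/-- If `(f·Tx)² = (f·Zx)²` whenever `f·x = 0` then `Z = ± T + c`. -/
lemma eq_or_neg {T Z : Matrix (Fin n) (Fin n) ℂ}
    (h : ∀ x f : Fin n → ℂ, f ⬝ᵥ x = 0 → (f ⬝ᵥ T *ᵥ x) ^ 2 = (f ⬝ᵥ Z *ᵥ x) ^ 2) :
    (∃ c : ℂ, Z = T + c • 1) ∨ (∃ c : ℂ, Z = -T + c • 1) := by
  have hpar : ∀ M : Matrix (Fin n) (Fin n) ℂ, (¬ ∃ c : ℂ, M = c • 1) →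
      ∃ p : Par n, cov p ⬝ᵥ M *ᵥ p.1 ≠ 0 := by
    intro M hM
    by_contra hcon
    push Not at hcon
    apply hM
    apply scalar_of
    intro x f hf
    by_cases hx : x = 0
    · rw [hx]
      simp
    · obtain ⟨p, hp1, hp2⟩ := exists_par hx hf
      have := hcon p
      rwa [hp1, hp2] at this
  by_cases h1 : ∃ c : ℂ, Z - T = c • 1
  · left
    obtain ⟨c, hc⟩ := h1
    exact ⟨c, by rw [← hc]; abel⟩
  · by_cases h2 : ∃ c : ℂ, Z + T = c • 1
    · right
      obtain ⟨c, hc⟩ := h2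
      exact ⟨c, by rw [← hc]; abel⟩
    · exfalso
      have l1 : LP (fun p : Par n => cov p ⬝ᵥ (Z - T) *ᵥ p.1) :=
        lpv_cov.dot (LPV.mulVec (LPM.const _) lpv_fst)
      have l2 : LP (fun p : Par n => cov p ⬝ᵥ (Z + T) *ᵥ p.1) :=
        lpv_cov.dot (LPV.mulVec (LPM.const _) lpv_fst)
      obtain ⟨p, hp1, hp2⟩ := l1.exists_ne l2 (hpar _ h1) (hpar _ h2)
      have h3 := h p.1 (cov p) (cov_dot p)
      rw [sub_mulVec, dotProduct_sub] at hp1
      rw [add_mulVec, dotProduct_add] at hp2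
      apply mul_ne_zero hp1 hp2
      linear_combination -h3

end Pool.Agent.Lib.MP_fda97a_al
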