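import Mathlib
import Pool.Agent.Lib.MP_fda97a_al.LP

/-!
# Matrices with distinct eigenvalues, traces of squares
-/

namespace Pool.Agent.Lib.MP_fda97a_al

open Polynomial

variable {n : ℕ}

/-- a version of the discriminant of the characteristic polynomial -/
noncomputable def disc (X : Matrix (Fin n) (Fin n) ℂ) : ℂ :=
  resultant X.charpoly (derivative X.charpoly) n (n - 1)

lemma LPM.disc {E : Type*} [AddCommGroup E] [Module ℂ E] {M : E → Matrix (Fin n) (Fin n) ℂ}
    (hM : LPM M) : LP (fun x => disc (M x)) := by
  intro x v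
  obtain ⟨P, hP⟩ := hM.exists_poly x v
  refine ⟨resultant P.charpoly (derivative P.charpoly) n (n - 1), fun t => ?_⟩
  have h1 : M (x + t • v) = P.map (evalRingHom t) := hP t
  unfold MP_fda97a_al.disc
  beta_reduce
  rw [h1, Matrix.charpoly_map, derivative_map, resultant_map_map]
  rfl

lemma separable_iff {X : Matrix (Fin n) (Fin n) ℂ} : disc X ≠ 0 ↔ X.charpoly.Separable := by
  have hmonic := X.charpoly_monic
  have h1 := isUnit_resultant_iff_isCoprime (g := derivative X.charpoly) hmonic
  have hd : X.charpoly.natDegree = n := by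
    rw [Matrix.charpoly_natDegree_eq_dim, Fintype.card_fin]
  rw [natDegree_derivative, hd, isUnit_iff_ne_zero] at h1
  exact h1

lemma spectrum_eq_rootSet (X : Matrix (Fin n) (Fin n) ℂ) :
    spectrum ℂ X = {r | r ∈ X.charpoly.roots} := by
  ext r
  rw [Matrix.mem_spectrum_iff_isRoot_charpoly]
  change _ ↔ r ∈ X.charpoly.roots
  rw [mem_roots X.charpoly_monic.ne_zero]

lemma card_roots (X : Matrix (Fin n) (Fin n) ℂ) : Multiset.card X.charpoly.roots = n := by
  have h := (IsAlgClosed.splits X.charpoly).natDegree_eq_card_roots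
  rw [← h, Matrix.charpoly_natDegree_eq_dim, Fintype.card_fin]

lemma charpoly_eq_of_spectrum_eq {X Y : Matrix (Fin n) (Fin n) ℂ} (hX : disc X ≠ 0)
    (h : spectrum ℂ Y = spectrum ℂ X) : Y.charpoly = X.charpoly := by
  classical
  rw [separable_iff] at hX
  have hnX : X.charpoly.roots.Nodup := nodup_roots hX
  have hf : Y.charpoly.roots.toFinset = X.charpoly.roots.toFinset := by
    ext r
    rw [Multiset.mem_toFinset, Multiset.mem_toFinset]
    rw [spectrum_eq_rootSet, spectrum_eq_rootSet] at h
    exact Set.ext_iff.mp h r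
  have hcX : X.charpoly.roots.toFinset.card = n := by
    rw [Multiset.toFinset_card_of_nodup hnX, card_roots]
  have hnY : Y.charpoly.roots.Nodup := by
    rw [← Multiset.toFinset_card_eq_card_iff_nodup, hf, hcX, card_roots]
  have hroots : Y.charpoly.roots = X.charpoly.roots := by
    have h1 := congrArg Finset.val hf
    rwa [Multiset.toFinset_val, Multiset.toFinset_val, hnX.dedup, hnY.dedup] at h1
  rw [(IsAlgClosed.splits Y.charpoly).eq_prod_roots_of_monic Y.charpoly_monic,
    (IsAlgClosed.splits X.charpoly).eq_prod_roots_of_monic X.charpoly_monic, hroots]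

lemma eval_charpoly_sq (X : Matrix (Fin n) (Fin n) ℂ) (t : ℂ) :
    (X * X).charpoly.eval (t * t) =
      X.charpoly.eval t * ((-1) ^ n * X.charpoly.eval (-t)) := by
  rw [Matrix.eval_charpoly, Matrix.eval_charpoly, Matrix.eval_charpoly]
  have h1 : Matrix.scalar (Fin n) (t * t) - X * X =
      (Matrix.scalar (Fin n) t - X) * (-(Matrix.scalar (Fin n) (-t) - X)) := by
    have h2 : Matrix.scalar (Fin n) (-t) = -Matrix.scalar (Fin n) t := by
      rw [map_neg]
    have h3 : Matrix.scalar (Fin n) t * X = X * Matrix.scalar (Fin n) t :=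
      (Matrix.scalar_commute t (fun r => mul_comm _ _) X).eq
    rw [h2, map_mul]
    have : (Matrix.scalar (Fin n) t - X) * -(-(Matrix.scalar (Fin n)) t - X) =
      Matrix.scalar (Fin n) t * Matrix.scalar (Fin n) t - X * X
      + (Matrix.scalar (Fin n) t * X - X * Matrix.scalar (Fin n) t) := by
      noncomm_ring
    rw [this, h3, sub_self, add_zero]
  rw [h1, Matrix.det_mul, Matrix.det_neg, Fintype.card_fin]

lemma charpoly_sq_eq {X Y : Matrix (Fin n) (Fin n) ℂ} (h : X.charpoly = Y.charpoly) :
    (X * X).charpoly = (Y * Y).charpoly := by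
  apply Polynomial.funext
  intro s
  obtain ⟨t, ht⟩ := IsAlgClosed.exists_pow_nat_eq s (n := 2) (by norm_num)
  rw [sq] at ht
  rw [← ht, eval_charpoly_sq, eval_charpoly_sq, h]

lemma trace_sq_eq_of_charpoly_eq {X Y : Matrix (Fin n) (Fin n) ℂ}
    (h : X.charpoly = Y.charpoly) : (X * X).trace = (Y * Y).trace := by
  rw [Matrix.trace_eq_sum_roots_charpoly, Matrix.trace_eq_sum_roots_charpoly, charpoly_sq_eq h]

lemma trace_sq_eq {X Y : Matrix (Fin n) (Fin n) ℂ} (hX : disc X ≠ 0)
    (h : spectrum ℂ Y = spectrum ℂ X) : (Y * Y).trace = (X * X).trace :=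
  trace_sq_eq_of_charpoly_eq (charpoly_eq_of_spectrum_eq hX h)

/-! ### A pair of matrices whose commutator has distinct eigenvalues -/

/-- upper shift -/
def shiftUp (n : ℕ) : Matrix (Fin n) (Fin n) ℂ :=
  Matrix.of fun i j => if (j : ℕ) = i + 1 then 1 else 0

/-- weighted lower shift -/
def shiftDown (n : ℕ) : Matrix (Fin n) (Fin n) ℂ :=
  Matrix.of fun i j => if (i : ℕ) = j + 1 then ((i : ℂ) * (n - i)) else 0

lemma shift_comm (n : ℕ) : shiftUp n * shiftDown n - shiftDown n * shiftUp n =
    Matrix.diagonal fun i : Fin n => (n : ℂ) - 1 - 2 * i := by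
  ext i j
  rw [Matrix.sub_apply, Matrix.mul_apply, Matrix.mul_apply, Matrix.diagonal_apply]
  have h1 : ∑ k, shiftUp n i k * shiftDown n k j =
      if i = j then ((i : ℂ) + 1) * (n - 1 - i) else 0 := by
    simp only [shiftUp, shiftDown, Matrix.of_apply]
    by_cases hi : (i : ℕ) + 1 < n
    · rw [Finset.sum_eq_single ⟨i + 1, hi⟩]
      · simp only [if_true, one_mul]
        by_cases hij : i = j
        · rw [if_pos hij, hij, if_pos rfl]
          push_cast
          ring
        · rw [if_neg hij, if_neg]
          intro h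
          apply hij
          apply Fin.ext
          omega
      · intro k _ hk
        rw [if_neg, zero_mul]
        intro h
        apply hk
        apply Fin.ext
        exact h
      · simp
    · rw [Finset.sum_eq_zero]
      · have : (i : ℂ) = n - 1 := by
          have : (i : ℕ) + 1 = n := by omega
          have h2 : ((i : ℕ) : ℂ) + 1 = n := by exact_mod_cast this
          linear_combination h2
        rw [this]
        simp
      · intro k _
        rw [if_neg, zero_mul]
        omega
  have h2 : ∑ k, shiftDown n i k * shiftUp n k j =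
      if i = j then ((i : ℂ)) * (n - i) else 0 := by
    simp only [shiftUp, shiftDown, Matrix.of_apply]
    by_cases hi : (i : ℕ) = 0
    · rw [Finset.sum_eq_zero]
      · rw [hi]
        simp
      · intro k _
        rw [if_neg, zero_mul]
        omega
    · rw [Finset.sum_eq_single ⟨i - 1, by omega⟩]
      · simp only
        by_cases hij : i = j
        · rw [if_pos hij, if_pos (by omega), if_pos (by rw [← hij]; omega), mul_one]
        · have h3 : ¬ ((j : ℕ) = (i : ℕ) - 1 + 1) := by
            intro h
            apply hij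
            apply Fin.ext
            omega
          rw [if_neg hij, if_neg h3, mul_zero]
      · intro k _ hk
        rw [if_neg, zero_mul]
        intro h
        apply hk
        apply Fin.ext
        simp only
        omega
      · simp
  rw [h1, h2]
  by_cases hij : i = j
  · rw [if_pos hij, if_pos hij, if_pos hij]
    ring
  · rw [if_neg hij, if_neg hij, if_neg hij, sub_zero]

lemma exists_disc_ne (n : ℕ) : ∃ T S : Matrix (Fin n) (Fin n) ℂ, disc (T * S - S * T) ≠ 0 := by
  refine ⟨shiftUp n, shiftDown n, ?_⟩
  rw [shift_comm, separable_iff, Matrix.charpoly_diagonal, separable_prod_X_sub_C_iff]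
  intro i j hij
  simp only at hij
  have h : (i : ℂ) = j := by linear_combination (-1 / 2 : ℂ) * hij
  apply Fin.ext
  exact_mod_cast h

end Pool.Agent.Lib.MP_fda97a_al
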