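import Mathlib
import Pool.Agent.Lib.MP_fda97a_al.Alg
import Pool.Agent.Lib.MP_fda97a_al.Spec

/-!
# Linearisation by Gram matrices
-/

namespace Pool.Agent.Lib.MP_fda97a_al

open Matrix

/-! ### Symmetric kernels of finite rank -/

section kernel

variable {X : Type*} (k : X → X → ℂ)

/-- Gram matrix -/
def gram {N : ℕ} (x : Fin N → X) : Matrix (Fin N) (Fin N) ℂ := Matrix.of fun i j => k (x i) (x j)

lemma gram_exists [FiniteDimensional ℂ (Submodule.span ℂ (Set.range k))]
    (hs : ∀ x y, k x y = k y x) :
    ∃ x : Fin (Module.finrank ℂ (Submodule.span ℂ (Set.range k))) → X, (gram k x).det ≠ 0 := by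
  obtain ⟨f, hf1, hf2, hf3⟩ := Submodule.exists_fun_fin_finrank_span_eq ℂ (Set.range k)
  choose x hx using hf1
  refine ⟨x, ?_⟩
  intro hdet
  obtain ⟨v, hv0, hv⟩ := Matrix.exists_mulVec_eq_zero_iff.mpr hdet
  apply hv0
  have hz : ∑ j, v j • f j = 0 := by
    funext s
    have hks : k s ∈ Submodule.span ℂ (Set.range f) := by
      rw [hf2]
      exact Submodule.subset_span ⟨s, rfl⟩
    obtain ⟨c, hc⟩ := (Submodule.mem_span_range_iff_exists_fun ℂ).mp hks
    have h1 : ∀ j, f j s = ∑ i, c i * k (x i) (x j) := by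
      intro j
      rw [← hx j, hs, ← hc, Finset.sum_apply]
      apply Finset.sum_congr rfl
      intro i _
      rw [Pi.smul_apply, smul_eq_mul, ← hx i]
    rw [Finset.sum_apply, Pi.zero_apply]
    calc ∑ j, (v j • f j) s = ∑ j, ∑ i, c i * (k (x i) (x j) * v j) := by
          apply Finset.sum_congr rfl
          intro j _
          rw [Pi.smul_apply, smul_eq_mul, h1, Finset.mul_sum]
          exact Finset.sum_congr rfl fun i _ => by ring
      _ = ∑ i, c i * ∑ j, k (x i) (x j) * v j := by
          rw [Finset.sum_comm]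
          exact Finset.sum_congr rfl fun i _ => by rw [Finset.mul_sum]
      _ = 0 := by
          apply Finset.sum_eq_zero
          intro i _
          have := congrFun hv i
          simp only [Matrix.mulVec, dotProduct, gram, Matrix.of_apply, Pi.zero_apply] at this
          rw [this, mul_zero]
  exact funext (Fintype.linearIndependent_iff.mp hf3 v hz)

lemma gram_expand [FiniteDimensional ℂ (Submodule.span ℂ (Set.range k))]
    (x : Fin (Module.finrank ℂ (Submodule.span ℂ (Set.range k))) → X)
    (hdet : (gram k x).det ≠ 0) (y s : X) :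
    k y s = ∑ i, ((fun j => k y (x j)) ᵥ* (gram k x)⁻¹) i * k (x i) s := by
  have li : LinearIndependent ℂ (fun i => k (x i)) := by
    rw [Fintype.linearIndependent_iff]
    intro a ha
    have h1 : a ᵥ* gram k x = 0 := by
      funext j
      have := congrFun ha (x j)
      simpa [Matrix.vecMul, dotProduct, gram] using this
    exact congrFun (Matrix.eq_zero_of_vecMul_eq_zero hdet h1)
  have hspan : Submodule.span ℂ (Set.range fun i => k (x i)) =
      Submodule.span ℂ (Set.range k) := by
    apply Submodule.eq_of_le_of_finrank_eq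
    · apply Submodule.span_mono
      rintro _ ⟨i, rfl⟩
      exact ⟨x i, rfl⟩
    · rw [finrank_span_eq_card li, Fintype.card_fin]
  have hky : k y ∈ Submodule.span ℂ (Set.range fun i => k (x i)) := by
    rw [hspan]
    exact Submodule.subset_span ⟨y, rfl⟩
  obtain ⟨c, hc⟩ := (Submodule.mem_span_range_iff_exists_fun ℂ).mp hky
  have hcv : c ᵥ* gram k x = fun j => k y (x j) := by
    funext j
    rw [← hc]
    simp [Matrix.vecMul, dotProduct, gram]
  have hc' : (fun j => k y (x j)) ᵥ* (gram k x)⁻¹ = c := by
    rw [← hcv, Matrix.vecMul_vecMul, Matrix.mul_nonsing_inv _ (isUnit_iff_ne_zero.mpr hdet),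
      Matrix.vecMul_one]
  rw [hc', ← hc]
  simp

end kernel

/-! ### Lines of rank one tensors -/

section line

lemma quartic {e0 e1 e2 e3 e4 : ℂ}
    (h : {t : ℂ | e0 + e1 * t + e2 * t ^ 2 + e3 * t ^ 3 + e4 * t ^ 4 = 0}.Infinite) :
    e1 = 0 ∧ e2 = 0 ∧ e3 = 0 := by
  set P : Polynomial ℂ := Polynomial.C e0 + Polynomial.C e1 * Polynomial.X +
    Polynomial.C e2 * Polynomial.X ^ 2 + Polynomial.C e3 * Polynomial.X ^ 3 +
    Polynomial.C e4 * Polynomial.X ^ 4 with hP
  have hP0 : P = 0 := by
    apply Polynomial.eq_zero_of_infinite_isRoot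
    apply h.mono
    intro t ht
    change P.eval t = 0
    rw [hP]
    simpa using ht
  have c1 : P.coeff 1 = e1 := by
    rw [hP]
    simp [Polynomial.coeff_C, Polynomial.coeff_X_pow]
  have c2 : P.coeff 2 = e2 := by
    rw [hP]
    simp [Polynomial.coeff_X_pow]
  have c3 : P.coeff 3 = e3 := by
    rw [hP]
    simp [Polynomial.coeff_X_pow]
  rw [hP0, Polynomial.coeff_zero] at c1 c2 c3
  exact ⟨c1.symm, c2.symm, c3.symm⟩

variable {α : Type*}

lemma factor {a : α → ℂ} (ha : a ≠ 0) {E : α → α → ℂ}
    (h : ∀ i j k l, a i * a j * E k l + E i j * (a k * a l)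
      = a i * a k * E j l + E i k * (a j * a l)) :
    ∃ c : α → ℂ, ∀ k l, 2 * E k l = a k * c l + c k * a l := by
  obtain ⟨p, hp⟩ := Function.ne_iff.mp ha
  rw [Pi.zero_apply] at hp
  refine ⟨fun k => 2 * E p k / a p - E p p / a p ^ 2 * a k, ?_⟩
  intro k l
  have h1 := h p p k l
  field_simp
  linear_combination 2 * h1

lemma exists_minor {a b : α → ℂ} (ha : a ≠ 0) (hb : ∀ μ : ℂ, b ≠ μ • a) :
    ∃ i j, a i * b j - a j * b i ≠ 0 := by
  obtain ⟨p, hp⟩ := Function.ne_iff.mp ha
  rw [Pi.zero_apply] at hp
  by_contra hcon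
  push Not at hcon
  apply hb (b p / a p)
  funext j
  have := hcon p j
  rw [Pi.smul_apply, smul_eq_mul]
  field_simp
  linear_combination this

/-- unique factorisation of symmetric tensors of rank two -/
lemma unique_factor {a b c l : α → ℂ} {i j : α} (hD : a i * b j - a j * b i ≠ 0)
    (h : ∀ k m, a k * c m + c k * a m = b k * l m + l k * b m) :
    ∃ ν : ℂ, ∀ m, c m = ν * b m := by
  set D := a i * b j - a j * b i with hDdef
  set γ := b j * c i - b i * c j with hγ
  set lam := b j * l i - b i * l j with hlam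
  have h1 : ∀ m, D * c m + γ * a m = lam * b m := by
    intro m
    have e1 := h i m
    have e2 := h j m
    rw [hDdef, hγ, hlam]
    linear_combination b j * e1 - b i * e2
  have h2 : γ = 0 := by
    have e1 := h1 i
    have e2 := h1 j
    have e3 : D * γ = 0 := by
      have : 2 * (D * γ) = 0 := by
        rw [hDdef, hγ] at *
        linear_combination b j * e1 - b i * e2
      exact (mul_eq_zero.mp this).resolve_left two_ne_zero
    exact (mul_eq_zero.mp e3).resolve_left hD
  refine ⟨lam / D, fun m => ?_⟩
  have e1 := h1 m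
  rw [h2, zero_mul, add_zero] at e1
  field_simp
  linear_combination e1

lemma rank_one_line {a b : α → ℂ} {R : α → α → ℂ} (ha : a ≠ 0) (hb : ∀ μ : ℂ, b ≠ μ • a)
    (hinf : {t : ℂ | ∃ w : α → ℂ, ∀ i j, w i * w j = a i * a j + 2 * t * R i j
      + t ^ 2 * (b i * b j)}.Infinite) :
    (∀ i j, 2 * R i j = a i * b j + b i * a j) ∨ (∀ i j, 2 * R i j = -(a i * b j + b i * a j)) := by
  have hb0 : b ≠ 0 := by
    intro h
    apply hb 0
    rw [zero_smul, h]
  obtain ⟨i0, j0, hD⟩ := exists_minor ha hb
  have hcoef : ∀ i j k l,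
      (a i * a j * (2 * R k l) + 2 * R i j * (a k * a l)
        - (a i * a k * (2 * R j l) + 2 * R i k * (a j * a l)) = 0) ∧
      (a i * a j * (b k * b l) + 2 * R i j * (2 * R k l) + b i * b j * (a k * a l)
        - (a i * a k * (b j * b l) + 2 * R i k * (2 * R j l) + b i * b k * (a j * a l)) = 0) ∧
      (b i * b j * (2 * R k l) + 2 * R i j * (b k * b l)
        - (b i * b k * (2 * R j l) + 2 * R i k * (b j * b l)) = 0) := by
    intro i j k l
    apply quartic (e0 := 0) (e4 := 0)
    apply hinf.mono
    rintro t ⟨w, hw⟩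
    have h1 : (w i * w j) * (w k * w l) = (w i * w k) * (w j * w l) := by ring
    rw [hw i j, hw k l, hw i k, hw j l] at h1
    change _ = _
    linear_combination h1
  obtain ⟨c, hc⟩ := factor ha (E := R) (fun i j k l => by
    have := (hcoef i j k l).1
    linear_combination this / 2)
  obtain ⟨m, hm⟩ := factor hb0 (E := R) (fun i j k l => by
    have := (hcoef i j k l).2.2
    linear_combination this / 2)
  obtain ⟨κ, hκ⟩ := factor ha (E := fun i j => b i * b j - c i * c j) (fun i j k l => by
    have := (hcoef i j k l).2.1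
    rw [hc i j, hc k l, hc i k, hc j l] at this
    linear_combination this)
  obtain ⟨ν, hν⟩ := unique_factor hD (fun k l => by rw [← hc k l, hm k l])
  -- `c = ν b`
  have hν2 : ν ^ 2 = 1 := by
    by_contra hne
    have hne' : 1 - ν ^ 2 ≠ 0 := by
      intro h
      apply hne
      linear_combination -h
    have h1 : ∀ k l, 2 * (1 - ν ^ 2) * (b k * b l) = a k * κ l + κ k * a l := by
      intro k l
      rw [← hκ k l, hν k, hν l]
      ring
    set D := a i0 * b j0 - a j0 * b i0 with hDdef
    set γ := b j0 * κ i0 - b i0 * κ j0 with hγ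
    have h2 : ∀ l, D * κ l + γ * a l = 0 := by
      intro l
      have e1 := h1 i0 l
      have e2 := h1 j0 l
      rw [hDdef, hγ]
      linear_combination -b j0 * e1 + b i0 * e2
    have h3 : γ = 0 := by
      have e1 := h2 i0
      have e2 := h2 j0
      have e3 : 2 * (D * γ) = 0 := by
        rw [hDdef, hγ] at *
        linear_combination b j0 * e1 - b i0 * e2
      have e4 := (mul_eq_zero.mp e3).resolve_left two_ne_zero
      exact (mul_eq_zero.mp e4).resolve_left hD
    have h4 : ∀ l, κ l = 0 := by
      intro l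
      have := h2 l
      rw [h3, zero_mul, add_zero] at this
      exact (mul_eq_zero.mp this).resolve_left hD
    apply hb0
    funext p
    have h5 := h1 p p
    rw [h4 p, mul_zero, zero_mul, add_zero] at h5
    have h6 := (mul_eq_zero.mp h5).resolve_left (mul_ne_zero two_ne_zero hne')
    simpa using h6
  have : (ν - 1) * (ν + 1) = 0 := by linear_combination hν2
  rcases mul_eq_zero.mp this with h | h
  · left
    intro i j
    have hν1 : ν = 1 := by linear_combination h
    rw [hc i j, hν i, hν j, hν1]
    ring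
  · right
    intro i j
    have hν1 : ν = -1 := by linear_combination h
    rw [hc i j, hν i, hν j, hν1]
    ring

end line

end Pool.Agent.Lib.MP_fda97a_al
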