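import Mathlib
import Pool.Agent.Lib.MP_fda97a_al.Gram

/-!
# A map preserving spectra of commutators is, generically and up to sign, linear
-/

namespace Pool.Agent.Lib.MP_fda97a_al

open Matrix

variable {n : ℕ}

section lp

variable {E : Type*} [AddCommGroup E] [Module ℂ E]

lemma LPM.br {M N : E → Matrix (Fin n) (Fin n) ℂ} (hM : LPM M) (hN : LPM N) :
    LPM (fun x => br (M x) (N x)) := (hM.mul hN).sub (hN.mul hM)

lemma LPM.q {M N : E → Matrix (Fin n) (Fin n) ℂ} (hM : LPM M) (hN : LPM N) :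
    LP (fun x => q (M x) (N x)) := ((hM.br hN).mul (hM.br hN)).trace

end lp

lemma lpm_id : LPM (fun x : Matrix (Fin n) (Fin n) ℂ => x) :=
  LPM.linear (LinearMap.id (R := ℂ) (M := Matrix (Fin n) (Fin n) ℂ))

/-- the kernel `q` as a function of two variables -/
def qk (n : ℕ) (T S : Matrix (Fin n) (Fin n) ℂ) : ℂ := q T S

/-- the bilinear refinement of the kernel -/
noncomputable def qbil (n : ℕ) : Matrix (Fin n) (Fin n) ℂ →ₗ[ℂ] Matrix (Fin n) (Fin n) ℂ →ₗ[ℂ]
    (Matrix (Fin n) (Fin n) ℂ → ℂ) :=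
  LinearMap.mk₂ ℂ (fun T T' S => (br T S * br T' S).trace)
    (by
      intro a b c; funext S
      have : br (a + b) S = br a S + br b S := by unfold br; noncomm_ring
      simp [this, add_mul, Matrix.trace_add])
    (by
      intro a b c; funext S
      have : br (a • b) S = a • br b S := by unfold br; simp [smul_sub]
      simp [this])
    (by
      intro a b c; funext S
      have : br (b + c) S = br b S + br c S := by unfold br; noncomm_ring
      simp [this, mul_add, Matrix.trace_add])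
    (by
      intro a b c; funext S
      have : br (a • c) S = a • br c S := by unfold br; simp [smul_sub]
      simp [this])

instance fd_q (n : ℕ) :
    FiniteDimensional ℂ (Submodule.span ℂ (Set.range (qk n))) := by
  have h : Submodule.span ℂ (Set.range (qk n)) ≤
      LinearMap.range (TensorProduct.lift (qbil n)) := by
    rw [Submodule.span_le]
    rintro _ ⟨T, rfl⟩
    exact ⟨TensorProduct.tmul ℂ T T, by rw [TensorProduct.lift.tmul]; rfl⟩
  exact Submodule.finiteDimensional_of_le h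

lemma q3_expand (T x y : Matrix (Fin n) (Fin n) ℂ) (t : ℂ) :
    q3 T (x + t • y) (x + t • y) = q3 T x x + 2 * t * q3 T x y + t ^ 2 * q3 T y y := by
  unfold q3
  have h1 : br T (x + t • y) = br T x + t • br T y := by
    unfold br
    simp only [mul_add, add_mul, mul_smul_comm, smul_mul_assoc, smul_sub]
    abel
  have h2 : (br T y * br T x).trace = (br T x * br T y).trace := Matrix.trace_mul_comm _ _
  rw [h1]
  simp only [add_mul, mul_add, Matrix.trace_add, smul_mul_assoc, mul_smul_comm,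
    Matrix.trace_smul, smul_eq_mul, h2]
  ring

lemma q3_add (T x y z : Matrix (Fin n) (Fin n) ℂ) : q3 T x (y + z) = q3 T x y + q3 T x z := by
  unfold q3
  have h1 : br T (y + z) = br T y + br T z := by unfold br; noncomm_ring
  rw [h1, mul_add, Matrix.trace_add]

lemma q3_smul (T x y : Matrix (Fin n) (Fin n) ℂ) (t : ℂ) : q3 T x (t • y) = t * q3 T x y := by
  unfold q3
  have h1 : br T (t • y) = t • br T y := by unfold br; simp [smul_sub]
  rw [h1, mul_smul_comm, Matrix.trace_smul, smul_eq_mul]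

lemma q3_tl (T x y : Matrix (Fin n) (Fin n) ℂ) : q3 T x (tl y) = q3 T x y := by
  unfold q3
  have h1 : br T (tl y) = br T y := by
    have := br_add_scalar T y 0 (-(y.trace / n))
    rw [zero_smul, add_zero, neg_smul, ← sub_eq_add_neg] at this
    exact this
  rw [h1]

lemma q3_self (T x : Matrix (Fin n) (Fin n) ℂ) : q3 T x x = q T x := rfl

lemma q_smul_left (T S : Matrix (Fin n) (Fin n) ℂ) (t : ℂ) : q (t • T) S = t ^ 2 * q T S := by
  unfold q
  have h1 : br (t • T) S = t • br T S := by unfold br; simp [smul_sub]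
  rw [h1, smul_mul_assoc, mul_smul_comm, Matrix.trace_smul, Matrix.trace_smul, smul_eq_mul,
    smul_eq_mul]
  ring

lemma q_neg_left (T S : Matrix (Fin n) (Fin n) ℂ) : q (-T) S = q T S := by
  have := q_smul_left T S (-1)
  rw [neg_one_smul] at this
  rw [this]
  ring

lemma exists_q_ne (hn : 2 ≤ n) : ∃ T S : Matrix (Fin n) (Fin n) ℂ, q T S ≠ 0 := by
  set i0 : Fin n := ⟨0, by omega⟩
  set i1 : Fin n := ⟨1, by omega⟩
  have h01 : i0 ≠ i1 := by
    intro h
    have := congrArg Fin.val h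
    simp [i0, i1] at this
  refine ⟨Matrix.vecMulVec (Pi.single i0 1) (Pi.single i1 1),
    vecMulVec (Pi.single i1 1) (Pi.single i0 1), ?_⟩
  rw [q_vmv]
  have e1 : (Pi.single i0 (1 : ℂ) : Fin n → ℂ) ⬝ᵥ Pi.single i1 1 = 0 := by
    rw [single_one_dotProduct, Pi.single_apply, if_neg h01]
  rw [e1, vecMulVec_mulVec]
  simp

/-- a generic configuration -/
lemma exists_config (hn : 2 ≤ n) : ∃ (e R : Matrix (Fin n) (Fin n) ℂ)
    (t : Fin (Module.finrank ℂ (Submodule.span ℂ (Set.range (qk n)))) →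
      Matrix (Fin n) (Fin n) ℂ),
    (gram (qk n) t).det ≠ 0 ∧ (∀ i j, i ≠ j → disc (br (t i) (t j)) ≠ 0) ∧
    (∀ i, disc (br e (t i)) ≠ 0) ∧ disc (br e R) ≠ 0 ∧ q e R ≠ 0 := by
  classical
  set N := Module.finrank ℂ (Submodule.span ℂ (Set.range (qk n))) with hN
  obtain ⟨x0, hx0⟩ := gram_exists (qk n) (fun x y => q_symm x y)
  obtain ⟨R1, R2, hR⟩ := exists_disc_ne n
  obtain ⟨Q1, Q2, hQ⟩ := exists_q_ne hn
  let E := Matrix (Fin n) (Fin n) ℂ × (Fin N → Matrix (Fin n) (Fin n) ℂ) ×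
    Matrix (Fin n) (Fin n) ℂ
  have le : LPM (fun p : E => p.1) :=
    LPM.linear (LinearMap.fst ℂ (Matrix (Fin n) (Fin n) ℂ)
      ((Fin N → Matrix (Fin n) (Fin n) ℂ) × Matrix (Fin n) (Fin n) ℂ))
  have lR : LPM (fun p : E => p.2.2) :=
    LPM.linear ((LinearMap.snd ℂ (Fin N → Matrix (Fin n) (Fin n) ℂ)
      (Matrix (Fin n) (Fin n) ℂ)) ∘ₗ (LinearMap.snd ℂ (Matrix (Fin n) (Fin n) ℂ)
      ((Fin N → Matrix (Fin n) (Fin n) ℂ) × Matrix (Fin n) (Fin n) ℂ)))
  have lt : ∀ i, LPM (fun p : E => p.2.1 i) := fun i =>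
    LPM.linear ((LinearMap.proj i : (Fin N → Matrix (Fin n) (Fin n) ℂ) →ₗ[ℂ] _) ∘ₗ
      (LinearMap.fst ℂ (Fin N → Matrix (Fin n) (Fin n) ℂ)
      (Matrix (Fin n) (Fin n) ℂ)) ∘ₗ (LinearMap.snd ℂ (Matrix (Fin n) (Fin n) ℂ)
      ((Fin N → Matrix (Fin n) (Fin n) ℂ) × Matrix (Fin n) (Fin n) ℂ)))
  -- the family of functions
  let f : (Fin N × Fin N) ⊕ (Fin N ⊕ Fin 3) → E → ℂ := fun s => match s with
    | Sum.inl (i, j) => fun p => if i = j then 1 else disc (br (p.2.1 i) (p.2.1 j))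
    | Sum.inr (Sum.inl i) => fun p => disc (br p.1 (p.2.1 i))
    | Sum.inr (Sum.inr k) => fun p => if k = 0 then (gram (qk n) p.2.1).det else
        if k = 1 then disc (br p.1 p.2.2) else q p.1 p.2.2
  have hf : ∀ s ∈ (Finset.univ : Finset ((Fin N × Fin N) ⊕ (Fin N ⊕ Fin 3))), LP (f s) := by
    rintro s -
    rcases s with ⟨i, j⟩ | i | k
    · by_cases hij : i = j
      · simp only [f, hij, if_true]
        exact LP.const _
      · simp only [f, hij, if_false]
        exact ((lt i).br (lt j)).disc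
    · exact (le.br (lt i)).disc
    · by_cases h0 : k = 0
      · simp only [f, h0, if_true]
        apply LPM.det
        intro i j
        exact (lt i).q (lt j)
      · by_cases h1 : k = 1
        · simp only [f, h1, if_true]
          exact (le.br lR).disc
        · simp only [f, h0, h1, if_false]
          exact le.q lR
  have hne : ∀ s ∈ (Finset.univ : Finset ((Fin N × Fin N) ⊕ (Fin N ⊕ Fin 3))),
      ∃ x, f s x ≠ 0 := by
    rintro s -
    rcases s with ⟨i, j⟩ | i | k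
    · by_cases hij : i = j
      · simp only [f, hij, if_true]
        exact ⟨0, one_ne_zero⟩
      · simp only [f, hij, if_false]
        refine ⟨(0, fun l => if l = i then R1 else R2, 0), ?_⟩
        simp only [if_true, if_neg (Ne.symm hij)]
        exact hR
    · exact ⟨(R1, fun _ => R2, 0), hR⟩
    · by_cases h0 : k = 0
      · simp only [f, h0, if_true]
        exact ⟨(0, x0, 0), hx0⟩
      · by_cases h1 : k = 1
        · simp only [f, h1, if_true]
          exact ⟨(R1, 0, R2), hR⟩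
        · simp only [f, h0, h1, if_false]
          exact ⟨(Q1, 0, Q2), hQ⟩
  obtain ⟨⟨e, t, R⟩, hp⟩ := LP.exists_ne_finset Finset.univ hf hne
  refine ⟨e, R, t, ?_, ?_, ?_, ?_, ?_⟩
  · have := hp (Sum.inr (Sum.inr 0)) (Finset.mem_univ _)
    simpa [f] using this
  · intro i j hij
    have := hp (Sum.inl (i, j)) (Finset.mem_univ _)
    simpa [f, hij] using this
  · intro i
    exact hp (Sum.inr (Sum.inl i)) (Finset.mem_univ _)
  · have := hp (Sum.inr (Sum.inr 1)) (Finset.mem_univ _)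
    simpa [f] using this
  · have := hp (Sum.inr (Sum.inr 2)) (Finset.mem_univ _)
    simpa [f] using this

/-! ### The bilinear tensor -/

section tensor

variable {N : ℕ} (G : Matrix (Fin N) (Fin N) ℂ) (t u : Fin N → Matrix (Fin n) (Fin n) ℂ)

/-- coefficients -/
noncomputable def cf (x y : Matrix (Fin n) (Fin n) ℂ) (i : Fin N) : ℂ :=
  ∑ j, q3 (t j) x y * G⁻¹ j i

/-- the tensor -/
noncomputable def BB (x y : Matrix (Fin n) (Fin n) ℂ) (α β : Fin n × Fin n) : ℂ :=
  ∑ i, cf G t x y i * (tl (u i) α.1 α.2 * tl (u i) β.1 β.2)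

lemma cf_exp (x y : Matrix (Fin n) (Fin n) ℂ) (s : ℂ) (i : Fin N) :
    cf G t (x + s • y) (x + s • y) i =
      cf G t x x i + 2 * s * cf G t x y i + s ^ 2 * cf G t y y i := by
  simp only [cf, q3_expand]
  rw [Finset.mul_sum, Finset.mul_sum, ← Finset.sum_add_distrib, ← Finset.sum_add_distrib]
  exact Finset.sum_congr rfl fun j _ => by ring

lemma BB_exp (x y : Matrix (Fin n) (Fin n) ℂ) (s : ℂ) (α β : Fin n × Fin n) :
    BB G t u (x + s • y) (x + s • y) α β =
      BB G t u x x α β + 2 * s * BB G t u x y α β + s ^ 2 * BB G t u y y α β := by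
  simp only [BB, cf_exp]
  rw [Finset.mul_sum, Finset.mul_sum, ← Finset.sum_add_distrib, ← Finset.sum_add_distrib]
  exact Finset.sum_congr rfl fun j _ => by ring

lemma cf_add (x y z : Matrix (Fin n) (Fin n) ℂ) (i : Fin N) :
    cf G t x (y + z) i = cf G t x y i + cf G t x z i := by
  simp only [cf, q3_add]
  rw [← Finset.sum_add_distrib]
  exact Finset.sum_congr rfl fun j _ => by ring

lemma cf_smul (x y : Matrix (Fin n) (Fin n) ℂ) (s : ℂ) (i : Fin N) :
    cf G t x (s • y) i = s * cf G t x y i := by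
  simp only [cf, q3_smul]
  rw [Finset.mul_sum]
  exact Finset.sum_congr rfl fun j _ => by ring

lemma BB_add (x y z : Matrix (Fin n) (Fin n) ℂ) (α β : Fin n × Fin n) :
    BB G t u x (y + z) α β = BB G t u x y α β + BB G t u x z α β := by
  simp only [BB, cf_add]
  rw [← Finset.sum_add_distrib]
  exact Finset.sum_congr rfl fun j _ => by ring

lemma BB_smul (x y : Matrix (Fin n) (Fin n) ℂ) (s : ℂ) (α β : Fin n × Fin n) :
    BB G t u x (s • y) α β = s * BB G t u x y α β := by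
  simp only [BB, cf_smul]
  rw [Finset.mul_sum]
  exact Finset.sum_congr rfl fun j _ => by ring

lemma BB_tl (x y : Matrix (Fin n) (Fin n) ℂ) (α β : Fin n × Fin n) :
    BB G t u x (tl y) α β = BB G t u x y α β := by
  simp only [BB, cf, q3_tl]

/-- the linear map `y ↦ 2 B(x, y)` -/
noncomputable def L1 (x : Matrix (Fin n) (Fin n) ℂ) :
    Matrix (Fin n) (Fin n) ℂ →ₗ[ℂ] (Fin n × Fin n → Fin n × Fin n → ℂ) where
  toFun := fun y α β => 2 * BB G t u x y α β
  map_add' := by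
    intro y z; funext α β
    rw [Pi.add_apply, Pi.add_apply, BB_add, mul_add]
  map_smul' := by
    intro s y; funext α β
    rw [Pi.smul_apply, Pi.smul_apply, BB_smul, smul_eq_mul, RingHom.id_apply]
    ring

end tensor

/-- the linear map `C ↦ a ⊗ C + C ⊗ a` -/
def L2 (a : Fin n × Fin n → ℂ) :
    Matrix (Fin n) (Fin n) ℂ →ₗ[ℂ] (Fin n × Fin n → Fin n × Fin n → ℂ) where
  toFun := fun C α β => a α * C β.1 β.2 + C α.1 α.2 * a β
  map_add' := by
    intro x y; funext α β
    rw [Pi.add_apply, Pi.add_apply, Matrix.add_apply, Matrix.add_apply]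
    ring
  map_smul' := by
    intro s y; funext α β
    rw [Pi.smul_apply, Pi.smul_apply, Matrix.smul_apply, Matrix.smul_apply, smul_eq_mul,
      smul_eq_mul, smul_eq_mul, RingHom.id_apply]
    ring

lemma ker_L2 {a : Fin n × Fin n → ℂ} (ha : a ≠ 0) : LinearMap.ker (L2 a) = ⊥ := by
  rw [LinearMap.ker_eq_bot']
  intro C hC
  obtain ⟨p, hp⟩ := Function.ne_iff.mp ha
  rw [Pi.zero_apply] at hp
  have h1 : ∀ α β, a α * C β.1 β.2 + C α.1 α.2 * a β = 0 := fun α β =>
    congrFun (congrFun hC α) β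
  have h2 : C p.1 p.2 = 0 := by
    have := h1 p p
    have h3 : 2 * (a p * C p.1 p.2) = 0 := by linear_combination this
    exact (mul_eq_zero.mp ((mul_eq_zero.mp h3).resolve_left two_ne_zero)).resolve_left hp
  ext i j
  have := h1 p (i, j)
  rw [h2, zero_mul, add_zero] at this
  exact (mul_eq_zero.mp this).resolve_left hp

lemma q_zero_left (S : Matrix (Fin n) (Fin n) ℂ) : q 0 S = 0 := by
  unfold q br
  simp

/-- if `q x = μ² q e` then the traceless parts are proportional -/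
lemma prop_of_q {x e R : Matrix (Fin n) (Fin n) ℂ} {μ : ℂ} (hq : ∀ S, q x S = μ ^ 2 * q e S)
    (hR : q e R ≠ 0) : ∃ μ' : ℂ, (μ' = μ ∨ μ' = -μ) ∧ tl x = μ' • tl e := by
  have hW : ∀ α β : Fin n × Fin n, tl x α.1 α.2 * tl x β.1 β.2 =
      μ ^ 2 * (tl e α.1 α.2 * tl e β.1 β.2) := by
    intro α β
    have h1 := nondeg (ι := Option Unit) (fun o => o.elim 1 (fun _ => -μ ^ 2))
      (fun o => o.elim x (fun _ => e)) (by
        intro S
        rw [Fintype.sum_option]
        simp only [Option.elim_none, Option.elim_some, Finset.univ_unique,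
          Finset.sum_singleton]
        rw [hq S]
        ring) α.1 α.2 β.1 β.2
    rw [Fintype.sum_option] at h1
    simp only [Option.elim_none, Option.elim_some, Finset.univ_unique,
      Finset.sum_singleton] at h1
    linear_combination h1
  have htle : tl e ≠ 0 := by
    intro h
    apply hR
    rw [← q_tl, h, q_zero_left]
  obtain ⟨p, hp⟩ : ∃ p : Fin n × Fin n, tl e p.1 p.2 ≠ 0 := by
    by_contra hcon
    push Not at hcon
    apply htle
    ext i j
    exact hcon (i, j)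
  have h1 := hW p p
  have h2 : (tl x p.1 p.2 - μ * tl e p.1 p.2) * (tl x p.1 p.2 + μ * tl e p.1 p.2) = 0 := by
    linear_combination h1
  have h3 : ∃ μ' : ℂ, (μ' = μ ∨ μ' = -μ) ∧ tl x p.1 p.2 = μ' * tl e p.1 p.2 := by
    rcases mul_eq_zero.mp h2 with h | h
    · exact ⟨μ, Or.inl rfl, by linear_combination h⟩
    · exact ⟨-μ, Or.inr rfl, by linear_combination h⟩
  obtain ⟨μ', hμ', h4⟩ := h3
  refine ⟨μ', hμ', ?_⟩
  have hsq : μ ^ 2 = μ' ^ 2 := by
    rcases hμ' with h | h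
    · rw [h]
    · rw [h]; ring
  by_cases h0 : μ' = 0
  · ext i j
    have h5 := hW (i, j) (i, j)
    rw [hsq, h0] at h5
    rw [h0, zero_smul, Matrix.zero_apply]
    have h6 : tl x i j * tl x i j = 0 := by linear_combination h5
    exact mul_self_eq_zero.mp h6
  · ext i j
    have h5 := hW p (i, j)
    rw [hsq, h4] at h5
    rw [Matrix.smul_apply, smul_eq_mul]
    have h6 : (μ' * tl e p.1 p.2) * (tl x i j - μ' * tl e i j) = 0 := by
      linear_combination h5
    have h7 := (mul_eq_zero.mp h6).resolve_left (mul_ne_zero h0 hp)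
    linear_combination h7

/-- the expansion of `φ x ⊗ φ x` -/
lemma tensor_eq {N : ℕ} {G : Matrix (Fin N) (Fin N) ℂ} {t u : Fin N → Matrix (Fin n) (Fin n) ℂ}
    {x y : Matrix (Fin n) (Fin n) ℂ}
    (h : ∀ s, q y s = ∑ i, cf G t x x i * q (u i) s) (α β : Fin n × Fin n) :
    tl y α.1 α.2 * tl y β.1 β.2 = BB G t u x x α β := by
  have h1 := nondeg (ι := Option (Fin N)) (fun o => o.elim (-1) (cf G t x x))
    (fun o => o.elim y u) (by
      intro S
      rw [Fintype.sum_option]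
      simp only [Option.elim_none, Option.elim_some]
      rw [← h S]
      ring) α.1 α.2 β.1 β.2
  rw [Fintype.sum_option] at h1
  simp only [Option.elim_none, Option.elim_some] at h1
  unfold BB
  linear_combination -h1

/-- the key statement on generic points -/
lemma key_generic {N : ℕ} {G : Matrix (Fin N) (Fin N) ℂ}
    {t u : Fin N → Matrix (Fin n) (Fin n) ℂ}
    {φ : Matrix (Fin n) (Fin n) ℂ → Matrix (Fin n) (Fin n) ℂ}
    (Hq : ∀ T S, disc (br T S) ≠ 0 → q (φ T) (φ S) = q T S)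
    {F : Matrix (Fin n) (Fin n) ℂ → ℂ} (hF : LP F)
    (c3 : ∀ x, F x ≠ 0 → ∀ s, q (φ x) s = ∑ i, cf G t x x i * q (u i) s)
    {e x R : Matrix (Fin n) (Fin n) ℂ} (he : F e ≠ 0) (hx : F x ≠ 0)
    (heR : disc (br e R) ≠ 0) (hqeR : q e R ≠ 0) (hxR : disc (br x R) ≠ 0) :
    ∃ C : Matrix (Fin n) (Fin n) ℂ, (C = tl (φ x) ∨ C = -tl (φ x)) ∧
      ∀ α β : Fin n × Fin n, 2 * BB G t u e x α β =
        tl (φ e) α.1 α.2 * C β.1 β.2 + C α.1 α.2 * tl (φ e) β.1 β.2 := by
  have c4 : ∀ x, F x ≠ 0 → ∀ α β : Fin n × Fin n,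
      tl (φ x) α.1 α.2 * tl (φ x) β.1 β.2 = BB G t u x x α β :=
    fun x hx α β => tensor_eq (c3 x hx) α β
  have hqφ : q (φ e) (φ R) ≠ 0 := by rw [Hq _ _ heR]; exact hqeR
  obtain ⟨a, hadef⟩ : ∃ a : Fin n × Fin n → ℂ, a = fun α => tl (φ e) α.1 α.2 := ⟨_, rfl⟩
  obtain ⟨b, hbdef⟩ : ∃ b : Fin n × Fin n → ℂ, b = fun α => tl (φ x) α.1 α.2 := ⟨_, rfl⟩
  have ha : a ≠ 0 := by
    intro h
    apply hqφ
    have : tl (φ e) = 0 := by
      ext i j
      have := congrFun h (i, j)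
      rw [hadef] at this
      exact this
    rw [← q_tl, this, q_zero_left]
  by_cases hdep : ∃ μ : ℂ, b = μ • a
  · obtain ⟨μ, hμ⟩ := hdep
    have htl : tl (φ x) = μ • tl (φ e) := by
      ext i j
      have := congrFun hμ (i, j)
      rw [hadef, hbdef] at this
      exact this
    have hq1 : ∀ S, q (φ x) S = μ ^ 2 * q (φ e) S := by
      intro S
      rw [← q_tl, htl, q_smul_left, q_tl]
    have hq2 : ∀ S, q x S = μ ^ 2 * q e S := by
      intro S
      have h1 : LP (fun S => q x S - μ ^ 2 * q e S) :=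
        (LPM.q (LPM.const x) lpm_id).sub ((LP.const _).mul (LPM.q (LPM.const e) lpm_id))
      have h2 : LP (fun S => disc (br x S) * disc (br e S)) :=
        ((LPM.const x).br lpm_id).disc.mul ((LPM.const e).br lpm_id).disc
      have h3 := h1.eq_zero h2 ⟨R, mul_ne_zero hxR heR⟩ (by
        intro S hS
        rw [← Hq _ _ (left_ne_zero_of_mul hS), ← Hq _ _ (right_ne_zero_of_mul hS), hq1,
          sub_self]) S
      linear_combination h3
    obtain ⟨μ', hμ', hx'⟩ := prop_of_q hq2 hqeR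
    refine ⟨μ' • tl (φ e), ?_, ?_⟩
    · rcases hμ' with h | h
      · left; rw [h, htl]
      · right; rw [h, htl, neg_smul]
    · intro α β
      have h1 : BB G t u e x α β = μ' * BB G t u e e α β := by
        rw [← BB_tl, hx', BB_smul, BB_tl]
      rw [h1, ← c4 e he]
      simp only [Matrix.smul_apply, smul_eq_mul]
      ring
  · push Not at hdep
    have h1 := rank_one_line (a := a) (b := b) (R := BB G t u e x) ha hdep (by
      apply (hF.infinite_ne he x).mono
      intro s hs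
      refine ⟨fun α => tl (φ (e + s • x)) α.1 α.2, fun α β => ?_⟩
      rw [c4 (e + s • x) hs α β, BB_exp, ← c4 e he, ← c4 x hx, hadef, hbdef])
    rcases h1 with h1 | h1
    · refine ⟨tl (φ x), Or.inl rfl, fun α β => ?_⟩
      rw [h1 α β, hadef, hbdef]
    · refine ⟨-tl (φ x), Or.inr rfl, fun α β => ?_⟩
      rw [h1 α β, hadef, hbdef]
      simp only [Matrix.neg_apply]
      ring

/-- existence of the linear map from the key statement -/
lemma exists_linear_aux {N : ℕ} {G : Matrix (Fin N) (Fin N) ℂ}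
    {t u : Fin N → Matrix (Fin n) (Fin n) ℂ}
    {φ : Matrix (Fin n) (Fin n) ℂ → Matrix (Fin n) (Fin n) ℂ}
    {F : Matrix (Fin n) (Fin n) ℂ → ℂ} {e : Matrix (Fin n) (Fin n) ℂ} (he : tl (φ e) ≠ 0)
    (key : ∀ x, F x ≠ 0 → ∃ C : Matrix (Fin n) (Fin n) ℂ, (C = tl (φ x) ∨ C = -tl (φ x)) ∧
      ∀ α β : Fin n × Fin n, 2 * BB G t u e x α β =
        tl (φ e) α.1 α.2 * C β.1 β.2 + C α.1 α.2 * tl (φ e) β.1 β.2) :
    ∃ (A : Matrix (Fin n) (Fin n) ℂ →ₗ[ℂ] Matrix (Fin n) (Fin n) ℂ),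
      ∀ x, F x ≠ 0 → A x = tl (φ x) ∨ A x = -tl (φ x) := by
  have ha : (fun α : Fin n × Fin n => tl (φ e) α.1 α.2) ≠ 0 := by
    intro h
    apply he
    ext i j
    exact congrFun h (i, j)
  obtain ⟨g, hg⟩ := LinearMap.exists_leftInverse_of_injective _ (ker_L2 ha)
  refine ⟨g ∘ₗ (L1 G t u e), ?_⟩
  intro x hx
  obtain ⟨C, hC1, hC2⟩ := key x hx
  have h1 : L1 G t u e x = L2 (fun α : Fin n × Fin n => tl (φ e) α.1 α.2) C := by
    funext α β
    exact hC2 α β
  have h2 : (g ∘ₗ (L1 G t u e)) x = C := by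
    rw [LinearMap.comp_apply, h1, ← LinearMap.comp_apply, hg, LinearMap.id_apply]
  rw [h2]
  exact hC1

lemma props_of_generic (hn0 : n ≠ 0)
    {φ : Matrix (Fin n) (Fin n) ℂ → Matrix (Fin n) (Fin n) ℂ}
    (Hq : ∀ T S, disc (br T S) ≠ 0 → q (φ T) (φ S) = q T S)
    {F : Matrix (Fin n) (Fin n) ℂ → ℂ} (hF : LP F)
    {e R : Matrix (Fin n) (Fin n) ℂ} (hFe : F e ≠ 0)
    (hF1 : ∀ x, F x ≠ 0 → disc (br x R) ≠ 0)
    (A : Matrix (Fin n) (Fin n) ℂ →ₗ[ℂ] Matrix (Fin n) (Fin n) ℂ)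
    (hA : ∀ x, F x ≠ 0 → A x = tl (φ x) ∨ A x = -tl (φ x)) :
    (∀ T, (A T).trace = 0) ∧ (∀ T S, q (A T) (A S) = q T S) := by
  have hqA : ∀ x y, F x ≠ 0 → F y ≠ 0 → q (A x) (A y) = q (φ x) (φ y) := by
    intro x y hx hy
    have h1 : ∀ S, q (A x) S = q (φ x) S := by
      intro S
      rcases hA x hx with h | h
      · rw [h, q_tl]
      · rw [h, q_neg_left, q_tl]
    have h2 : ∀ S, q (A y) S = q (φ y) S := by
      intro S
      rcases hA y hy with h | h
      · rw [h, q_tl]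
      · rw [h, q_neg_left, q_tl]
    rw [h1, q_symm, h2, q_symm]
  constructor
  · have h1 : LP (fun T => (A T).trace) := (LPM.linear A).trace
    intro T
    refine h1.eq_zero hF ⟨e, hFe⟩ ?_ T
    intro x hx
    rcases hA x hx with h | h
    · rw [h, trace_tl hn0]
    · rw [h, Matrix.trace_neg, trace_tl hn0, neg_zero]
  · have h1 : ∀ y, F y ≠ 0 → ∀ x, q (A y) (A x) - q y x = 0 := by
      intro y hy x
      have l1 : LP (fun x => q (A y) (A x) - q y x) :=
        (LPM.q (LPM.const _) (LPM.linear A)).sub (LPM.q (LPM.const y) lpm_id)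
      have l2 : LP (fun x => disc (br y x)) := ((LPM.const y).br lpm_id).disc
      have l3 : LP (fun x => disc (br y x) * F x) := l2.mul hF
      obtain ⟨z, hz1, hz2⟩ := l2.exists_ne hF ⟨R, hF1 y hy⟩ ⟨e, hFe⟩
      refine l1.eq_zero l3 ⟨z, mul_ne_zero hz1 hz2⟩ ?_ x
      intro w hw
      rw [hqA y w hy (right_ne_zero_of_mul hw), Hq _ _ (left_ne_zero_of_mul hw), sub_self]
    intro T S
    have l1 : LP (fun y => q (A y) (A S) - q y S) :=
      (LPM.q (LPM.linear A) (LPM.const _)).sub (LPM.q lpm_id (LPM.const S))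
    have := l1.eq_zero hF ⟨e, hFe⟩ (fun y hy => h1 y hy S) T
    linear_combination this

lemma exists_linear_N (hn0 : n ≠ 0) {N : ℕ}
    (hexp : ∀ (x : Fin N → Matrix (Fin n) (Fin n) ℂ), (gram (qk n) x).det ≠ 0 → ∀ y s,
      qk n y s = ∑ i, ((fun j => qk n y (x j)) ᵥ* (gram (qk n) x)⁻¹) i * qk n (x i) s)
    {φ : Matrix (Fin n) (Fin n) ℂ → Matrix (Fin n) (Fin n) ℂ}
    (Hq : ∀ T S, disc (br T S) ≠ 0 → q (φ T) (φ S) = q T S)
    {e R : Matrix (Fin n) (Fin n) ℂ} {t : Fin N → Matrix (Fin n) (Fin n) ℂ}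
    (hdet : (gram (qk n) t).det ≠ 0) (ht : ∀ i j, i ≠ j → disc (br (t i) (t j)) ≠ 0)
    (het : ∀ i, disc (br e (t i)) ≠ 0) (heR : disc (br e R) ≠ 0) (hqeR : q e R ≠ 0) :
    ∃ (A : Matrix (Fin n) (Fin n) ℂ →ₗ[ℂ] Matrix (Fin n) (Fin n) ℂ)
      (F : Matrix (Fin n) (Fin n) ℂ → ℂ), LP F ∧ (∃ x, F x ≠ 0) ∧
      (∀ T, (A T).trace = 0) ∧ (∀ T S, q (A T) (A S) = q T S) ∧
      (∀ T, F T ≠ 0 → A T = tl (φ T) ∨ A T = -tl (φ T)) := by
  obtain ⟨F, hFdef⟩ : ∃ F : Matrix (Fin n) (Fin n) ℂ → ℂ, F = fun x => disc (br x R) *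
    ∏ i, disc (br x (t i)) := ⟨_, rfl⟩
  have hF : LP F := by
    rw [hFdef]
    apply LP.mul
    · exact (lpm_id.br (LPM.const R)).disc
    · exact LP.prod _ fun i _ => (lpm_id.br (LPM.const (t i))).disc
  have hFe : F e ≠ 0 := by
    rw [hFdef]
    exact mul_ne_zero heR (Finset.prod_ne_zero_iff.mpr fun i _ => het i)
  have hF1 : ∀ x, F x ≠ 0 → disc (br x R) ≠ 0 := fun x hx => by
    rw [hFdef] at hx
    exact left_ne_zero_of_mul hx
  have hF3 : ∀ x, F x ≠ 0 → ∀ i, disc (br x (t i)) ≠ 0 := fun x hx i => by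
    rw [hFdef] at hx
    exact Finset.prod_ne_zero_iff.mp (right_ne_zero_of_mul hx) i (Finset.mem_univ i)
  clear hFdef
  -- the Gram matrix of the images
  have hgram : gram (qk n) (fun i => φ (t i)) = gram (qk n) t := by
    ext i j
    change q (φ (t i)) (φ (t j)) = q (t i) (t j)
    by_cases hij : i = j
    · rw [hij, q_self, q_self]
    · exact Hq _ _ (ht i j hij)
  have c3 : ∀ x, F x ≠ 0 → ∀ s, q (φ x) s =
      ∑ i, cf (gram (qk n) t) t x x i * q (φ (t i)) s := by
    intro x hx s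
    have h1 := hexp (fun i => φ (t i)) (by rw [hgram]; exact hdet) (φ x) s
    rw [hgram] at h1
    have h2 : (fun j => qk n (φ x) (φ (t j))) = fun j => q3 (t j) x x := by
      funext j
      change q (φ x) (φ (t j)) = q (t j) x
      rw [Hq _ _ (hF3 x hx j), q_symm]
    rw [h2] at h1
    exact h1
  have hφe : tl (φ e) ≠ 0 := by
    intro h
    apply hqeR
    rw [← Hq _ _ heR, ← q_tl, h, q_zero_left]
  obtain ⟨A, hA⟩ := exists_linear_aux (φ := φ) (F := F) (G := gram (qk n) t) (t := t)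
    (u := fun i => φ (t i)) hφe (fun x hx => key_generic Hq hF c3 hFe hx heR hqeR (hF1 x hx))
  obtain ⟨h1, h2⟩ := props_of_generic hn0 Hq hF hFe hF1 A hA
  exact ⟨A, F, hF, ⟨e, hFe⟩, h1, h2, hA⟩

/-- The linearisation theorem. -/
theorem exists_linear (hn : 2 ≤ n)
    (φ : Matrix (Fin n) (Fin n) ℂ → Matrix (Fin n) (Fin n) ℂ)
    (H : ∀ T S, spectrum ℂ (br (φ T) (φ S)) = spectrum ℂ (br T S)) :
    ∃ (A : Matrix (Fin n) (Fin n) ℂ →ₗ[ℂ] Matrix (Fin n) (Fin n) ℂ)
      (F : Matrix (Fin n) (Fin n) ℂ → ℂ), LP F ∧ (∃ x, F x ≠ 0) ∧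
      (∀ T, (A T).trace = 0) ∧ (∀ T S, q (A T) (A S) = q T S) ∧
      (∀ T, F T ≠ 0 → A T = tl (φ T) ∨ A T = -tl (φ T)) := by
  obtain ⟨e, R, t, hdet, ht, het, heR, hqeR⟩ := exists_config hn
  exact exists_linear_N (by omega) (fun x hx y s => gram_expand (qk n) x hx y s)
    (fun T S h => trace_sq_eq h (H T S)) hdet ht het heR hqeR

end Pool.Agent.Lib.MP_fda97a_al
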