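import Mathlib
import Pool.Agent.Lib.MP_fda97a_al.Linear

/-!
# Classification of linear maps preserving `tr [T,S]^2` and the trace form
-/

namespace Pool.Agent.Lib.MP_fda97a_al

open Matrix

variable {n : ℕ}

/-- linear maps preserving the trace form, the identity and `tr [T,S]^2` -/
structure Nice (A : Matrix (Fin n) (Fin n) ℂ →ₗ[ℂ] Matrix (Fin n) (Fin n) ℂ) : Prop where
  tr : ∀ T S, (A T * A S).trace = (T * S).trace
  one : A 1 = 1
  q : ∀ T S, q (A T) (A S) = q T S

/-- a matrix orthogonal to everything for the trace form is zero -/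
lemma eq_of_trace {X Y : Matrix (Fin n) (Fin n) ℂ}
    (h : ∀ Z, (X * Z).trace = (Y * Z).trace) : X = Y := by
  ext i j
  have := h (vecMulVec (Pi.single j 1) (Pi.single i 1))
  rw [mul_vecMulVec, mul_vecMulVec, trace_vecMulVec, trace_vecMulVec] at this
  simpa [dotProduct_single_one, mulVec_single_one, Matrix.col_apply] using this

namespace Nice

variable {A : Matrix (Fin n) (Fin n) ℂ →ₗ[ℂ] Matrix (Fin n) (Fin n) ℂ}

lemma trace_eq (hA : Nice A) (T : Matrix (Fin n) (Fin n) ℂ) : (A T).trace = T.trace := by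
  have := hA.tr T 1
  rwa [hA.one, mul_one, mul_one] at this

lemma injective (hA : Nice A) : Function.Injective A := by
  rw [← LinearMap.ker_eq_bot, LinearMap.ker_eq_bot']
  intro T hT
  apply eq_of_trace
  intro Z
  rw [← hA.tr, hT]
  simp

lemma surjective (hA : Nice A) : Function.Surjective A :=
  LinearMap.injective_iff_surjective.mp hA.injective

lemma q3_eq (hA : Nice A) (T S S' : Matrix (Fin n) (Fin n) ℂ) :
    q3 (A T) (A S) (A S') = q3 T S S' := by
  have h1 := q_add_right (A T) (A S) (A S')
  have h2 := q_add_right T S S'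
  rw [← map_add, hA.q, hA.q, hA.q, h2] at h1
  have h3 : 2 * (q3 (A T) (A S) (A S') - q3 T S S') = 0 := by linear_combination -h1
  have h4 := (mul_eq_zero.mp h3).resolve_left two_ne_zero
  linear_combination h4

lemma q3_eq_trace (T S S' : Matrix (Fin n) (Fin n) ℂ) :
    q3 T S S' = -(br T (br T S) * S').trace := by
  unfold q3
  have h1 : br T S * br T S' = br T S * T * S' - br T S * S' * T := by
    unfold br; noncomm_ring
  have h2 : br T (br T S) * S' = T * br T S * S' - br T S * T * S' := by
    unfold br; noncomm_ring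
  rw [h1, h2, Matrix.trace_sub, Matrix.trace_sub]
  have h3 : (br T S * S' * T).trace = (T * br T S * S').trace := by
    rw [Matrix.trace_mul_comm, ← mul_assoc]
  rw [h3]
  ring

lemma double (hA : Nice A) (T S : Matrix (Fin n) (Fin n) ℂ) :
    A (br T (br T S)) = br (A T) (br (A T) (A S)) := by
  apply eq_of_trace
  intro Z
  obtain ⟨S', rfl⟩ := hA.surjective Z
  have h1 := hA.q3_eq T S S'
  rw [q3_eq_trace, q3_eq_trace] at h1
  rw [hA.tr]
  linear_combination h1

lemma br_add_left (T S R : Matrix (Fin n) (Fin n) ℂ) : br (T + S) R = br T R + br S R := by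
  unfold br; noncomm_ring

lemma br_add_right (T S R : Matrix (Fin n) (Fin n) ℂ) : br T (S + R) = br T S + br T R := by
  unfold br; noncomm_ring

lemma triple_sym (hA : Nice A) (T S R : Matrix (Fin n) (Fin n) ℂ) :
    A (br T (br S R) + br S (br T R)) =
      br (A T) (br (A S) (A R)) + br (A S) (br (A T) (A R)) := by
  have h1 := hA.double (T + S) R
  have h2 := hA.double T R
  have h3 := hA.double S R
  simp only [br_add_left, br_add_right, map_add] at h1 ⊢
  rw [h2, h3] at h1
  have h5 : A (br T (br S R)) + A (br S (br T R)) =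
      (br (A T) (br (A T) (A R)) + A (br S (br T R)) + (A (br T (br S R)) +
        br (A S) (br (A S) (A R)))) - br (A T) (br (A T) (A R)) -
        br (A S) (br (A S) (A R)) := by abel
  rw [h5, h1]
  abel

lemma triple (hA : Nice A) (T S R : Matrix (Fin n) (Fin n) ℂ) :
    A (br T (br S R)) = br (A T) (br (A S) (A R)) := by
  have h1 := hA.triple_sym T S R
  have h2 := hA.triple_sym T R S
  have j1 : ∀ X Y Z : Matrix (Fin n) (Fin n) ℂ,
      (br X (br Y Z) + br Y (br X Z)) - (br X (br Z Y) + br Z (br X Y)) =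
        (3 : ℂ) • br X (br Y Z) := by
    intro X Y Z
    have : (3 : ℂ) • br X (br Y Z) = br X (br Y Z) + br X (br Y Z) + br X (br Y Z) := by
      rw [show (3 : ℂ) = 1 + 1 + 1 by norm_num, add_smul, add_smul, one_smul]
    rw [this]
    unfold br
    noncomm_ring
  have h3 : A ((3 : ℂ) • br T (br S R)) = (3 : ℂ) • br (A T) (br (A S) (A R)) := by
    rw [← j1 T S R, ← j1 (A T) (A S) (A R), map_sub, h1, h2]
  rw [map_smul] at h3
  exact smul_right_injective _ (by norm_num : (3 : ℂ) ≠ 0) h3

end Nice

/-- If `q T S = 2 (tr TS)^2` for all `S` then `T² = 0` and `T` has rank at most one. -/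
lemma rank_one_of {T : Matrix (Fin n) (Fin n) ℂ}
    (h : ∀ S, q T S = 2 * (T * S).trace ^ 2) :
    T * T = 0 ∧ ∀ a b c d, T b c * T d a = T b a * T d c := by
  have h1 : ∀ x f : Fin n → ℂ, (f ⬝ᵥ x) * (f ⬝ᵥ (T * T) *ᵥ x) = 0 := by
    intro x f
    have e1 := h (vecMulVec x f)
    rw [q_vmv, mul_vecMulVec, trace_vecMulVec, dotProduct_comm (T *ᵥ x) f] at e1
    have : 2 * ((f ⬝ᵥ x) * (f ⬝ᵥ (T * T) *ᵥ x)) = 0 := by linear_combination -e1
    exact (mul_eq_zero.mp this).resolve_left two_ne_zero
  have hd : ∀ a, (T * T) a a = 0 := by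
    intro a
    have := h1 (Pi.single a 1) (Pi.single a 1)
    simpa [single_one_dotProduct, mulVec_single_one, Matrix.col_apply] using this
  have hTT : T * T = 0 := by
    ext a b
    by_cases hab : a = b
    · rw [hab, hd b, Matrix.zero_apply]
    · have := h1 (Pi.single b 1) (Pi.single a 1 + Pi.single b 1)
      simp only [add_dotProduct, single_one_dotProduct, mulVec_single_one, Matrix.col_apply] at this
      rw [hd b, Pi.single_eq_same, Pi.single_apply, if_neg hab] at this
      rw [Matrix.zero_apply]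
      linear_combination this
  refine ⟨hTT, ?_⟩
  intro a b c d
  have h2 : ∀ S S', q3 T S S' = 2 * (T * S).trace * (T * S').trace := by
    intro S S'
    have e1 := h (S + S')
    rw [q_add_right, h S, h S', mul_add, Matrix.trace_add] at e1
    have : 2 * (q3 T S S' - 2 * (T * S).trace * (T * S').trace) = 0 := by
      linear_combination e1
    have := (mul_eq_zero.mp this).resolve_left two_ne_zero
    linear_combination this
  have h3 := h2 (vecMulVec (Pi.single a 1) (Pi.single b 1))
    (vecMulVec (Pi.single c 1) (Pi.single d 1))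
  rw [q3_vmv, hTT, mul_vecMulVec, mul_vecMulVec, trace_vecMulVec, trace_vecMulVec] at h3
  simp only [single_one_dotProduct, mulVec_single_one, Matrix.col_apply, dotProduct_single_one,
    Matrix.zero_apply, mul_zero, sub_zero] at h3
  have : 2 * (T b c * T d a - T b a * T d c) = 0 := by linear_combination h3
  have := (mul_eq_zero.mp this).resolve_left two_ne_zero
  linear_combination this

lemma q_vmv_nil (x f : Fin n → ℂ) (hf : f ⬝ᵥ x = 0) (S : Matrix (Fin n) (Fin n) ℂ) :
    q (vecMulVec x f) S = 2 * (vecMulVec x f * S).trace ^ 2 := by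
  unfold q br
  rw [vecMulVec_mul, mul_vecMulVec, trace_vecMulVec]
  simp only [sub_mul, mul_sub, Matrix.trace_sub, trace_vmv_mul]
  rw [hf, dotProduct_comm x (f ᵥ* S), ← dotProduct_mulVec]
  ring

lemma Nice.nil {A : Matrix (Fin n) (Fin n) ℂ →ₗ[ℂ] Matrix (Fin n) (Fin n) ℂ} (hA : Nice A)
    {x f : Fin n → ℂ} (hf : f ⬝ᵥ x = 0) :
    A (vecMulVec x f) * A (vecMulVec x f) = 0 ∧
    ∀ a b c d, A (vecMulVec x f) b c * A (vecMulVec x f) d a =
      A (vecMulVec x f) b a * A (vecMulVec x f) d c := by
  apply rank_one_of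
  intro S'
  obtain ⟨S, rfl⟩ := hA.surjective S'
  rw [hA.q, q_vmv_nil x f hf, hA.tr]

end Pool.Agent.Lib.MP_fda97a_al
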