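import Mathlib
import Pool.Agent.Lib.MP_fda97a_al.Class

/-!
# Classification of nice maps
-/

namespace Pool.Agent.Lib.MP_fda97a_al

open Matrix

variable {n : ℕ}

/-- standard form -/
def Std (A : Matrix (Fin n) (Fin n) ℂ →ₗ[ℂ] Matrix (Fin n) (Fin n) ℂ) : Prop :=
  ∃ (h k : Matrix (Fin n) (Fin n) ℂ) (s : ℂ) (c : Matrix (Fin n) (Fin n) ℂ → ℂ),
    h * k = 1 ∧ k * h = 1 ∧ (s = 1 ∨ s = -1) ∧
    ((∀ T, A T = s • (h * T * k) + c T • 1) ∨ (∀ T, A T = s • (h * Tᵀ * k) + c T • 1))

/-- conjugation after `A` -/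
def conjL (h k : Matrix (Fin n) (Fin n) ℂ)
    (A : Matrix (Fin n) (Fin n) ℂ →ₗ[ℂ] Matrix (Fin n) (Fin n) ℂ) :
    Matrix (Fin n) (Fin n) ℂ →ₗ[ℂ] Matrix (Fin n) (Fin n) ℂ where
  toFun T := h * A T * k
  map_add' x y := by rw [map_add, mul_add, add_mul]
  map_smul' s x := by rw [map_smul, mul_smul_comm, smul_mul_assoc]; rfl

lemma conjL_apply (h k : Matrix (Fin n) (Fin n) ℂ)
    (A : Matrix (Fin n) (Fin n) ℂ →ₗ[ℂ] Matrix (Fin n) (Fin n) ℂ)
    (T : Matrix (Fin n) (Fin n) ℂ) : conjL h k A T = h * A T * k := rfl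

/-- transposition after `A` -/
def transL (A : Matrix (Fin n) (Fin n) ℂ →ₗ[ℂ] Matrix (Fin n) (Fin n) ℂ) :
    Matrix (Fin n) (Fin n) ℂ →ₗ[ℂ] Matrix (Fin n) (Fin n) ℂ where
  toFun T := (A T)ᵀ
  map_add' x y := by rw [map_add, transpose_add]
  map_smul' s x := by rw [map_smul, transpose_smul]; rfl

lemma transL_apply (A : Matrix (Fin n) (Fin n) ℂ →ₗ[ℂ] Matrix (Fin n) (Fin n) ℂ)
    (T : Matrix (Fin n) (Fin n) ℂ) : transL A T = (A T)ᵀ := rfl

/-- the negative of `A` on traceless matrices -/
noncomputable def negL (A : Matrix (Fin n) (Fin n) ℂ →ₗ[ℂ] Matrix (Fin n) (Fin n) ℂ) :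
    Matrix (Fin n) (Fin n) ℂ →ₗ[ℂ] Matrix (Fin n) (Fin n) ℂ where
  toFun T := -A T + (2 * T.trace / n) • 1
  map_add' x y := by
    rw [map_add, Matrix.trace_add, mul_add, add_div, add_smul]
    abel
  map_smul' s x := by
    rw [map_smul, Matrix.trace_smul, RingHom.id_apply, smul_add, smul_neg, smul_smul, smul_eq_mul]
    congr 2
    ring

lemma negL_apply (A : Matrix (Fin n) (Fin n) ℂ →ₗ[ℂ] Matrix (Fin n) (Fin n) ℂ)
    (T : Matrix (Fin n) (Fin n) ℂ) : negL A T = -A T + (2 * T.trace / n) • 1 := rfl

section closure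

variable {A : Matrix (Fin n) (Fin n) ℂ →ₗ[ℂ] Matrix (Fin n) (Fin n) ℂ}

lemma br_conj {h k : Matrix (Fin n) (Fin n) ℂ} (hk : k * h = 1) (T S : Matrix (Fin n) (Fin n) ℂ) :
    br (h * T * k) (h * S * k) = h * br T S * k := by
  unfold br
  have e1 : h * T * k * (h * S * k) = h * T * (k * h) * S * k := by noncomm_ring
  have e2 : h * S * k * (h * T * k) = h * S * (k * h) * T * k := by noncomm_ring
  rw [e1, e2, hk]
  noncomm_ring

lemma trace_conj {h k : Matrix (Fin n) (Fin n) ℂ} (hk : k * h = 1)
    (T : Matrix (Fin n) (Fin n) ℂ) : (h * T * k).trace = T.trace := by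
  rw [Matrix.trace_mul_comm, ← mul_assoc, hk, one_mul]

lemma Nice.conj (hA : Nice A) {h k : Matrix (Fin n) (Fin n) ℂ} (hk : h * k = 1)
    (kh : k * h = 1) : Nice (conjL h k A) := by
  constructor
  · intro T S
    rw [conjL_apply, conjL_apply]
    have e1 : h * A T * k * (h * A S * k) = h * (A T * (k * h) * A S) * k := by noncomm_ring
    rw [e1, kh, mul_one, trace_conj kh, hA.tr]
  · rw [conjL_apply, hA.one, mul_one, hk]
  · intro T S
    rw [conjL_apply, conjL_apply]
    unfold MP_fda97a_al.q
    rw [br_conj kh]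
    have e1 : h * br (A T) (A S) * k * (h * br (A T) (A S) * k) =
        h * (br (A T) (A S) * (k * h) * br (A T) (A S)) * k := by noncomm_ring
    rw [e1, kh, mul_one, trace_conj kh]
    exact hA.q T S

lemma Nice.trans (hA : Nice A) : Nice (transL A) := by
  constructor
  · intro T S
    rw [transL_apply, transL_apply, ← transpose_mul, trace_transpose, hA.tr,
      Matrix.trace_mul_comm]
  · rw [transL_apply, hA.one, transpose_one]
  · intro T S
    rw [transL_apply, transL_apply]
    have h1 : br (A T)ᵀ (A S)ᵀ = -(br (A T) (A S))ᵀ := by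
      unfold br
      rw [transpose_sub, transpose_mul, transpose_mul]
      abel
    unfold MP_fda97a_al.q
    rw [h1, neg_mul_neg, ← transpose_mul, trace_transpose]
    exact hA.q T S

lemma Nice.neg (hA : Nice A) (hn : n ≠ 0) : Nice (negL A) := by
  have hn' : (n : ℂ) ≠ 0 := by exact_mod_cast hn
  constructor
  · intro T S
    rw [negL_apply, negL_apply]
    simp only [add_mul, mul_add, neg_mul, mul_neg, smul_mul_assoc, mul_smul_comm,
      one_mul, mul_one, Matrix.trace_add, Matrix.trace_neg, Matrix.trace_smul, smul_eq_mul,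
      Matrix.trace_one, Fintype.card_fin, hA.tr, hA.trace_eq]
    field_simp
    ring
  · rw [negL_apply, hA.one, Matrix.trace_one, Fintype.card_fin, mul_div_assoc, div_self hn',
      mul_one, show (2 : ℂ) = 1 + 1 by norm_num, add_smul, one_smul]
    abel
  · intro T S
    rw [negL_apply, negL_apply]
    unfold MP_fda97a_al.q
    rw [br_add_scalar]
    have h1 : br (-A T) (-A S) = br (A T) (A S) := by unfold br; noncomm_ring
    rw [h1]
    exact hA.q T S

lemma Std.of_conj {h k : Matrix (Fin n) (Fin n) ℂ} (hk : h * k = 1) (kh : k * h = 1)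
    (hs : Std (conjL h k A)) : Std A := by
  obtain ⟨h', k', s, c, h1, h2, h3, h4⟩ := hs
  have key : ∀ T, A T = k * (h * A T * k) * h := by
    intro T
    have : k * (h * A T * k) * h = (k * h) * A T * (k * h) := by noncomm_ring
    rw [this, kh, one_mul, mul_one]
  refine ⟨k * h', k' * h, s, c, ?_, ?_, h3, ?_⟩
  · have : k * h' * (k' * h) = k * (h' * k') * h := by noncomm_ring
    rw [this, h1, mul_one, kh]
  · have : k' * h * (k * h') = k' * (h * k) * h' := by noncomm_ring
    rw [this, hk, mul_one, h2]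
  · rcases h4 with h4 | h4
    · left
      intro T
      rw [key T]
      have := h4 T
      rw [conjL_apply] at this
      rw [this, mul_add, add_mul, mul_smul_comm, smul_mul_assoc, mul_smul_comm, smul_mul_assoc,
        mul_one, kh]
      congr 2
      noncomm_ring
    · right
      intro T
      rw [key T]
      have := h4 T
      rw [conjL_apply] at this
      rw [this, mul_add, add_mul, mul_smul_comm, smul_mul_assoc, mul_smul_comm, smul_mul_assoc,
        mul_one, kh]
      congr 2
      noncomm_ring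

lemma Std.of_trans (hs : Std (transL A)) : Std A := by
  obtain ⟨h', k', s, c, h1, h2, h3, h4⟩ := hs
  have key : ∀ T, A T = ((A T)ᵀ)ᵀ := fun T => (transpose_transpose _).symm
  refine ⟨k'ᵀ, h'ᵀ, s, c, ?_, ?_, h3, ?_⟩
  · rw [← transpose_mul, h1, transpose_one]
  · rw [← transpose_mul, h2, transpose_one]
  · rcases h4 with h4 | h4
    · right
      intro T
      rw [key T]
      have := h4 T
      rw [transL_apply] at this
      rw [this, transpose_add, transpose_smul, transpose_smul, transpose_one, transpose_mul,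
        transpose_mul, mul_assoc]
    · left
      intro T
      rw [key T]
      have := h4 T
      rw [transL_apply] at this
      rw [this, transpose_add, transpose_smul, transpose_smul, transpose_one, transpose_mul,
        transpose_mul, transpose_transpose, mul_assoc]

lemma Std.of_neg (hs : Std (negL A)) : Std A := by
  obtain ⟨h', k', s, c, h1, h2, h3, h4⟩ := hs
  refine ⟨h', k', -s, fun T => 2 * T.trace / n - c T, h1, h2, ?_, ?_⟩
  · rcases h3 with h | h
    · right; rw [h]
    · left; rw [h, neg_neg]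
  · rcases h4 with h4 | h4
    · left
      intro T
      have := h4 T
      rw [negL_apply] at this
      have e : A T = (2 * T.trace / n) • 1 - (-A T + (2 * T.trace / n) • 1) := by abel
      rw [e, this, sub_smul, neg_smul]
      abel
    · right
      intro T
      have := h4 T
      rw [negL_apply] at this
      have e : A T = (2 * T.trace / n) • 1 - (-A T + (2 * T.trace / n) • 1) := by abel
      rw [e, this, sub_smul, neg_smul]
      abel

lemma Std.of_id (h : ∀ T, A T = T) : Std A :=
  ⟨1, 1, 1, fun _ => 0, one_mul _, one_mul _, Or.inl rfl, Or.inl fun T => by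
    rw [h T, one_mul, mul_one, one_smul, zero_smul, add_zero]⟩

end closure

/-! ### Matrices supported on one row -/

/-- the matrix whose only nonzero row is the row `o`, equal to `c` -/
def row (o : Fin n) (c : Fin n → ℂ) : Matrix (Fin n) (Fin n) ℂ := vecMulVec (Pi.single o 1) c

lemma row_apply (o : Fin n) (c : Fin n → ℂ) (i j : Fin n) :
    row o c i j = if i = o then c j else 0 := by
  unfold row
  rw [vecMulVec_apply, Pi.single_apply]
  split_ifs <;> simp

lemma row_add (o : Fin n) (c d : Fin n → ℂ) : row o (c + d) = row o c + row o d := by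
  ext i j
  simp only [row_apply, Matrix.add_apply, Pi.add_apply]
  split_ifs <;> simp

lemma row_smul (o : Fin n) (s : ℂ) (c : Fin n → ℂ) : row o (s • c) = s • row o c := by
  ext i j
  simp only [row_apply, Matrix.smul_apply, Pi.smul_apply]
  split_ifs <;> simp

lemma row_sub (o : Fin n) (c d : Fin n → ℂ) : row o (c - d) = row o c - row o d := by
  ext i j
  simp only [row_apply, Matrix.sub_apply, Pi.sub_apply]
  split_ifs <;> simp

lemma row_zero (o : Fin n) : row o (0 : Fin n → ℂ) = 0 := by
  ext i j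
  simp [row_apply]

lemma row_injective (o : Fin n) {c d : Fin n → ℂ} (h : row o c = row o d) : c = d := by
  funext j
  have := congrFun (congrFun h o) j
  rwa [row_apply, row_apply, if_pos rfl, if_pos rfl] at this

lemma row_eq_sum (o : Fin n) (c : Fin n → ℂ) : row o c = ∑ j, c j • row o (Pi.single j 1) := by
  ext i k
  rw [Matrix.sum_apply]
  simp only [Matrix.smul_apply, row_apply, smul_eq_mul]
  by_cases h : i = o
  · simp [h, Pi.single_apply]
  · simp [h]

/-- `A` fixes the matrices of `L` if it fixes the basis -/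
lemma fix_row {A : Matrix (Fin n) (Fin n) ℂ →ₗ[ℂ] Matrix (Fin n) (Fin n) ℂ} {o : Fin n}
    (hfix : ∀ j, j ≠ o → A (row o (Pi.single j 1)) = row o (Pi.single j 1))
    {c : Fin n → ℂ} (hc : c o = 0) : A (row o c) = row o c := by
  rw [row_eq_sum, map_sum]
  apply Finset.sum_congr rfl
  intro j _
  rw [map_smul]
  by_cases h : j = o
  · rw [h, hc, zero_smul, zero_smul]
  · rw [hfix j h]

/-- bracket with a matrix stabilising the line of `o` -/
lemma br_row {S : Matrix (Fin n) (Fin n) ℂ} {o : Fin n} (hS : ∀ j, j ≠ o → S j o = 0)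
    (c : Fin n → ℂ) : br S (row o c) = row o (S o o • c - c ᵥ* S) := by
  unfold br row
  rw [mul_vecMulVec, vecMulVec_mul]
  have : S *ᵥ Pi.single o 1 = S o o • Pi.single o 1 := by
    funext i
    rw [mulVec_single_one, Matrix.col_apply, Pi.smul_apply, Pi.single_apply]
    by_cases h : i = o
    · rw [h]; simp
    · rw [hS i h, if_neg h, smul_zero]
  rw [this]
  ext i j
  simp only [Matrix.sub_apply, vecMulVec_apply, Pi.smul_apply, Pi.sub_apply, smul_eq_mul]
  ring

lemma br_row_coef {S : Matrix (Fin n) (Fin n) ℂ} {o : Fin n} (hS : ∀ j, j ≠ o → S j o = 0)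
    {c : Fin n → ℂ} (hc : c o = 0) : (S o o • c - c ᵥ* S) o = 0 := by
  rw [Pi.sub_apply, Pi.smul_apply, hc, smul_zero, zero_sub, neg_eq_zero]
  simp only [vecMul, dotProduct]
  apply Finset.sum_eq_zero
  intro j _
  by_cases h : j = o
  · rw [h, hc, zero_mul]
  · rw [hS j h, mul_zero]

end Pool.Agent.Lib.MP_fda97a_al
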