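import Mathlib
import Pool.Agent.Lib.MP_fda97a_al.Class2

/-!
# Classification of nice maps, main argument
-/

namespace Pool.Agent.Lib.MP_fda97a_al

open Matrix

variable {n : ℕ} {A : Matrix (Fin n) (Fin n) ℂ →ₗ[ℂ] Matrix (Fin n) (Fin n) ℂ} {o : Fin n}

/-- the matrix unit `E_oo` -/
def Eo (o : Fin n) : Matrix (Fin n) (Fin n) ℂ := row o (Pi.single o 1)

lemma Eo_apply (o i j : Fin n) : Eo o i j = if i = o then (if j = o then 1 else 0) else 0 := by
  unfold Eo
  rw [row_apply, Pi.single_apply]

lemma br_Eo {c : Fin n → ℂ} (hc : c o = 0) : br (Eo o) (row o c) = row o c := by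
  rw [br_row]
  · congr 1
    funext j
    rw [Pi.sub_apply, Pi.smul_apply, Eo_apply, if_pos rfl, if_pos rfl, one_smul]
    have : (c ᵥ* Eo o) j = 0 := by
      simp only [vecMul, dotProduct]
      apply Finset.sum_eq_zero
      intro i _
      rw [Eo_apply]
      by_cases h : i = o
      · rw [h, hc, zero_mul]
      · rw [if_neg h, mul_zero]
    rw [this, sub_zero]
  · intro j hj
    rw [Eo_apply, if_neg hj]

lemma trace_row_mul (c : Fin n → ℂ) (X : Matrix (Fin n) (Fin n) ℂ) :
    (row o c * X).trace = (c ᵥ* X) o := by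
  unfold row
  rw [vecMulVec_mul, trace_vecMulVec, single_one_dotProduct]

lemma colo (hA : Nice A) (hfix : ∀ j, j ≠ o → A (row o (Pi.single j 1)) = row o (Pi.single j 1))
    (S : Matrix (Fin n) (Fin n) ℂ) {j : Fin n} (hj : j ≠ o) : (A S) j o = S j o := by
  have h1 := hA.tr (row o (Pi.single j 1)) S
  rw [hfix j hj, trace_row_mul, trace_row_mul, single_one_vecMul, single_one_vecMul] at h1
  exact h1

lemma par (hA : Nice A) (hfix : ∀ j, j ≠ o → A (row o (Pi.single j 1)) = row o (Pi.single j 1))
    {S : Matrix (Fin n) (Fin n) ℂ} (hS : ∀ j, j ≠ o → S j o = 0) :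
    ∀ j, j ≠ o → (A S) j o = 0 := fun j hj => by rw [colo hA hfix S hj, hS j hj]

lemma par_Eo : ∀ j, j ≠ o → Eo o j o = 0 := fun j hj => by rw [Eo_apply, if_neg hj]

/-- relation (i) -/
lemma rel1 (hA : Nice A) (hfix : ∀ j, j ≠ o → A (row o (Pi.single j 1)) = row o (Pi.single j 1))
    {S : Matrix (Fin n) (Fin n) ℂ} (hS : ∀ j, j ≠ o → S j o = 0) {c : Fin n → ℂ}
    (hc : c o = 0) : br (A (Eo o)) (br (A S) (row o c)) = br S (row o c) := by
  have h1 := hA.triple (Eo o) S (row o c)
  rw [br_row hS, br_Eo (br_row_coef hS hc), fix_row hfix (br_row_coef hS hc),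
    fix_row hfix hc] at h1
  rw [br_row hS, h1]

/-- relation (ii) -/
lemma rel2 (hA : Nice A) (hfix : ∀ j, j ≠ o → A (row o (Pi.single j 1)) = row o (Pi.single j 1))
    {S : Matrix (Fin n) (Fin n) ℂ} (hS : ∀ j, j ≠ o → S j o = 0) {c : Fin n → ℂ}
    (hc : c o = 0) : br (A S) (br (A (Eo o)) (row o c)) = br S (row o c) := by
  have h1 := hA.triple S (Eo o) (row o c)
  rw [br_Eo hc, br_row hS, fix_row hfix (br_row_coef hS hc), fix_row hfix hc] at h1
  rw [br_row hS, h1]

/-- relation (iv) -/
lemma rel4 (hA : Nice A) (hfix : ∀ j, j ≠ o → A (row o (Pi.single j 1)) = row o (Pi.single j 1))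
    {S : Matrix (Fin n) (Fin n) ℂ} (hS : ∀ j, j ≠ o → S j o = 0) {c : Fin n → ℂ}
    (hc : c o = 0) :
    br (A (Eo o)) (br S (row o c)) = br S (br (A (Eo o)) (row o c)) := by
  have hP := par hA hfix (par_Eo (o := o))
  rw [← rel2 hA hfix hS hc, br_row hP, rel1 hA hfix hS (br_row_coef hP hc)]

lemma delta (hA : Nice A)
    (hfix : ∀ j, j ≠ o → A (row o (Pi.single j 1)) = row o (Pi.single j 1)) :
    ∃ δ : ℂ, (δ = 1 ∨ δ = -1) ∧
      ∀ j, j ≠ o → br (A (Eo o)) (row o (Pi.single j 1)) = δ • row o (Pi.single j 1) := by
  by_cases hex : ∃ j1, j1 ≠ o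
  · obtain ⟨j1, hj1⟩ := hex
    have hP := par hA hfix (par_Eo (o := o))
    set D : (Fin n → ℂ) → (Fin n → ℂ) := fun c => (A (Eo o)) o o • c - c ᵥ* A (Eo o) with hD
    have hDbr : ∀ c, br (A (Eo o)) (row o c) = row o (D c) := fun c => br_row hP c
    have hDe : ∀ l, l ≠ o → D (Pi.single l 1) = (D (Pi.single j1 1) j1) • Pi.single l 1 := by
      intro l hl
      set S : Matrix (Fin n) (Fin n) ℂ := vecMulVec (Pi.single j1 1) (Pi.single l 1) with hSdef
      have hSo : ∀ j, j ≠ o → S j o = 0 := by
        intro j _
        rw [hSdef, vecMulVec_apply]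
        have : (Pi.single l (1 : ℂ) : Fin n → ℂ) o = 0 := by
          rw [Pi.single_apply, if_neg (Ne.symm hl)]
        rw [this, mul_zero]
      have hSoo : S o o = 0 := by
        rw [hSdef, vecMulVec_apply]
        have : (Pi.single l (1 : ℂ) : Fin n → ℂ) o = 0 := by
          rw [Pi.single_apply, if_neg (Ne.symm hl)]
        rw [this, mul_zero]
      have hbr : ∀ c : Fin n → ℂ, br S (row o c) = row o (-(c j1) • Pi.single l 1) := by
        intro c
        rw [br_row hSo, hSoo, zero_smul, zero_sub, hSdef, vecMul_vecMulVec, dotProduct_single_one,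
          neg_smul]
      have h1 := rel4 hA hfix hSo (c := Pi.single j1 1) (by
        rw [Pi.single_apply, if_neg (Ne.symm hj1)])
      rw [hbr, hDbr, hDbr, hbr] at h1
      have h2 := row_injective o h1
      have h3 : D (-(Pi.single j1 (1 : ℂ) : Fin n → ℂ) j1 • Pi.single l 1) =
          - D (Pi.single l 1) := by
        rw [Pi.single_eq_same, neg_one_smul, hD]
        simp only [smul_neg, neg_vecMul]
        abel
      rw [h3, neg_smul] at h2
      exact neg_injective h2
    refine ⟨D (Pi.single j1 1) j1, ?_, ?_⟩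
    · have h1 := hA.triple (Eo o) (Eo o) (row o (Pi.single j1 1))
      have hc : (Pi.single j1 (1 : ℂ) : Fin n → ℂ) o = 0 := by
        rw [Pi.single_apply, if_neg (Ne.symm hj1)]
      rw [br_Eo hc, br_Eo hc, fix_row hfix hc, hDbr, hDbr, hDe j1 hj1] at h1
      have h2 : D ((D (Pi.single j1 1) j1) • Pi.single j1 1) =
          (D (Pi.single j1 1) j1) • D (Pi.single j1 1) := by
        rw [hD]
        simp only [smul_sub, smul_vecMul]
        rw [smul_comm]
      rw [h2, hDe j1 hj1] at h1
      have h3 := congrFun (row_injective o h1) j1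
      simp only [Pi.smul_apply, Pi.single_eq_same, smul_eq_mul, mul_one] at h3
      have h4 : (D (Pi.single j1 1) j1 - 1) * (D (Pi.single j1 1) j1 + 1) = 0 := by
        linear_combination -h3
      rcases mul_eq_zero.mp h4 with h | h
      · left; linear_combination h
      · right; linear_combination h
    · intro l hl
      rw [hDbr, hDe l hl, row_smul]
  · refine ⟨1, Or.inl rfl, ?_⟩
    intro j hj
    exact absurd ⟨j, hj⟩ hex

/-- difference of `A S` and `S` for `S` stabilising the line -/
lemma diff_row (hA : Nice A)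
    (hfix : ∀ j, j ≠ o → A (row o (Pi.single j 1)) = row o (Pi.single j 1))
    (hP1 : ∀ j, j ≠ o → br (A (Eo o)) (row o (Pi.single j 1)) = row o (Pi.single j 1))
    {S : Matrix (Fin n) (Fin n) ℂ} (hS : ∀ j, j ≠ o → S j o = 0) :
    ∃ c : Fin n → ℂ, c o = 0 ∧ A S = S + row o c := by
  have hn : (n : ℂ) ≠ 0 := by
    have : n ≠ 0 := by
      rintro rfl
      exact Fin.elim0 o
    exact_mod_cast this
  have hAS := par hA hfix hS
  have hP1' : ∀ c : Fin n → ℂ, c o = 0 → br (A (Eo o)) (row o c) = row o c := by
    intro c hc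
    rw [row_eq_sum]
    have h1 : ∀ (s : Finset (Fin n)) (f : Fin n → Matrix (Fin n) (Fin n) ℂ),
        br (A (Eo o)) (∑ j ∈ s, f j) = ∑ j ∈ s, br (A (Eo o)) (f j) := by
      intro s f
      unfold br
      rw [Finset.mul_sum, Finset.sum_mul, ← Finset.sum_sub_distrib]
    rw [h1]
    apply Finset.sum_congr rfl
    intro j _
    by_cases hj : j = o
    · rw [hj, hc, zero_smul]
      unfold br
      simp
    · have h2 : br (A (Eo o)) (c j • row o (Pi.single j 1)) =
          c j • br (A (Eo o)) (row o (Pi.single j 1)) := by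
        unfold br
        rw [mul_smul_comm, smul_mul_assoc, smul_sub]
      rw [h2, hP1 j hj]
  -- brackets of `A S` and `S` agree on `L`
  have hbr : ∀ j, j ≠ o → (A S) o o • (Pi.single j 1 : Fin n → ℂ) - Pi.single j 1 ᵥ* A S =
      S o o • Pi.single j 1 - Pi.single j 1 ᵥ* S := by
    intro j hj
    have hc : (Pi.single j (1 : ℂ) : Fin n → ℂ) o = 0 := by
      rw [Pi.single_apply, if_neg (Ne.symm hj)]
    have h1 := rel1 hA hfix hS hc
    rw [br_row hAS, hP1' _ (br_row_coef hAS hc), br_row hS] at h1
    exact row_injective o h1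
  have hentry : ∀ j, j ≠ o → ∀ k, (A S) j k = S j k + (if j = k then (A S) o o - S o o else 0) := by
    intro j hj k
    have h1 := congrFun (hbr j hj) k
    simp only [Pi.sub_apply, Pi.smul_apply, single_one_vecMul, Matrix.row_apply, smul_eq_mul,
      Pi.single_apply] at h1
    by_cases hjk : j = k
    · subst hjk
      rw [if_pos rfl] at h1 ⊢
      linear_combination -h1
    · rw [if_neg (Ne.symm hjk)] at h1
      rw [if_neg hjk]
      linear_combination -h1
  have hoo : (A S) o o = S o o := by
    have h1 : (A S).trace = S.trace + n * ((A S) o o - S o o) := by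
      have : ∀ j, (A S) j j = S j j + ((A S) o o - S o o) := by
        intro j
        by_cases hj : j = o
        · rw [hj]; ring
        · have := hentry j hj j
          rwa [if_pos rfl] at this
      unfold Matrix.trace
      simp only [Matrix.diag_apply]
      rw [Finset.sum_congr rfl fun j _ => this j, Finset.sum_add_distrib, Finset.sum_const,
        Finset.card_univ, Fintype.card_fin, nsmul_eq_mul]
    rw [hA.trace_eq] at h1
    have h2 : (n : ℂ) * ((A S) o o - S o o) = 0 := by linear_combination -h1
    have h3 := (mul_eq_zero.mp h2).resolve_left hn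
    linear_combination h3
  refine ⟨fun k => (A S) o k - S o k, ?_, ?_⟩
  · simp only [hoo, sub_self]
  · ext j k
    rw [Matrix.add_apply, row_apply]
    by_cases hj : j = o
    · rw [if_pos hj, hj]; ring
    · rw [if_neg hj, add_zero, hentry j hj k, hoo, sub_self, ite_self, add_zero]

/-- entries of `[E_oo, [E_oo, Y]]` -/
lemma br_br_Eo (Y : Matrix (Fin n) (Fin n) ℂ) (i j : Fin n) :
    br (Eo o) (br (Eo o) Y) i j = if i = o then (if j = o then 0 else Y i j) else
      (if j = o then Y i j else 0) := by
  have h1 : ∀ X : Matrix (Fin n) (Fin n) ℂ, ∀ i j, (Eo o * X) i j = if i = o then X o j else 0 := by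
    intro X i j
    rw [Matrix.mul_apply]
    simp only [Eo_apply]
    by_cases hi : i = o
    · simp [hi]
    · simp [hi]
  have h2 : ∀ X : Matrix (Fin n) (Fin n) ℂ, ∀ i j, (X * Eo o) i j = if j = o then X i o else 0 := by
    intro X i j
    rw [Matrix.mul_apply]
    simp only [Eo_apply]
    by_cases hj : j = o
    · simp [hj]
    · simp [hj]
  have h3 : ∀ X : Matrix (Fin n) (Fin n) ℂ, ∀ i j, br (Eo o) X i j =
      (if i = o then X o j else 0) - (if j = o then X i o else 0) := by
    intro X i j
    unfold br
    rw [Matrix.sub_apply, h1, h2]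
  rw [h3, h3, h3]
  by_cases hi : i = o <;> by_cases hj : j = o <;> simp [hi, hj]

/-- The last step: `A` is the identity. -/
lemma fin6 (hA : Nice A)
    (hfix : ∀ j, j ≠ o → A (row o (Pi.single j 1)) = row o (Pi.single j 1))
    (hoo : A (Eo o) = Eo o) (T : Matrix (Fin n) (Fin n) ℂ) : A T = T := by
  have hP1 : ∀ j, j ≠ o → br (A (Eo o)) (row o (Pi.single j 1)) = row o (Pi.single j 1) := by
    intro j hj
    rw [hoo]
    apply br_Eo
    rw [Pi.single_apply, if_neg (Ne.symm hj)]
  have hdd : ∀ S, A (br (Eo o) (br (Eo o) S)) = br (Eo o) (br (Eo o) (A S)) := by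
    intro S
    have := hA.triple (Eo o) (Eo o) S
    rwa [hoo] at this
  -- matrix units
  have hunit : ∀ a b : Fin n, A (vecMulVec (Pi.single a 1) (Pi.single b 1)) =
      vecMulVec (Pi.single a 1) (Pi.single b 1) := by
    intro a b
    set S : Matrix (Fin n) (Fin n) ℂ := vecMulVec (Pi.single a 1) (Pi.single b 1) with hSdef
    have hSe : ∀ i j, S i j = if i = a then (if j = b then 1 else 0) else 0 := by
      intro i j
      rw [hSdef, vecMulVec_apply, Pi.single_apply, Pi.single_apply]
      split_ifs <;> simp
    by_cases ha : a = o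
    · by_cases hb : b = o
      · have : S = Eo o := by rw [hSdef, ha, hb]; rfl
        rw [this, hoo]
      · have : S = row o (Pi.single b 1) := by rw [hSdef, ha]; rfl
        rw [this, hfix b hb]
    · by_cases hb : b = o
      · -- `Y = A E_ao`
        have hS2 : br (Eo o) (br (Eo o) S) = S := by
          ext i j
          rw [br_br_Eo, hSe]
          by_cases hi : i = o
          · have hia : i ≠ a := fun h => ha (h ▸ hi)
            rw [if_pos hi, if_neg hia, ite_self]
          · by_cases hj : j = o
            · simp [hi, hj, hb]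
            · have : j ≠ b := fun h => hj (h.trans hb)
              simp [hi, hj, this]
        have hY := hdd S
        rw [hS2] at hY
        -- entries
        have hY1 : ∀ k, k ≠ o → (A S) k o = S k o := fun k hk => colo hA hfix S hk
        have hnil := (hA.nil (x := Pi.single a 1) (f := Pi.single b 1) (by
          rw [single_one_dotProduct, Pi.single_apply, if_neg]
          intro h
          exact ha (h ▸ hb))).1
        rw [← hSdef] at hnil
        have hYe : ∀ i j, (A S) i j = if i = o then (if j = o then 0 else (A S) i j) else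
            (if j = o then (A S) i j else 0) := by
          intro i j
          conv_lhs => rw [hY]
          rw [br_br_Eo]
        have hYo : ∀ k, k ≠ o → (A S) o k = 0 := by
          intro k hk
          have h1 := congrFun (congrFun hnil a) k
          rw [Matrix.mul_apply, Matrix.zero_apply, Finset.sum_eq_single o] at h1
          · rw [hY1 a ha, hSe, if_pos rfl, if_pos hb.symm, one_mul] at h1
            exact h1
          · intro l _ hl
            rw [hYe a l, if_neg ha, if_neg hl, zero_mul]
          · simp
        ext i j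
        rw [hYe i j, hSe]
        by_cases hi : i = o
        · have hia : i ≠ a := fun h => ha (h ▸ hi)
          rw [if_pos hi, if_neg hia]
          by_cases hj : j = o
          · rw [if_pos hj]
          · rw [if_neg hj, hi, hYo j hj]
        · rw [if_neg hi]
          by_cases hj : j = o
          · rw [if_pos hj, hj, hY1 i hi, hSe]
          · have hjb : j ≠ b := fun h => hj (h.trans hb)
            rw [if_neg hj, if_neg hjb, ite_self]
      · -- block part
        have hSp : ∀ j, j ≠ o → S j o = 0 := by
          intro j _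
          rw [hSe, if_neg (Ne.symm hb), ite_self]
        obtain ⟨c, hc, hAS⟩ := diff_row hA hfix hP1 hSp
        have hS0 : br (Eo o) (br (Eo o) S) = 0 := by
          ext i j
          rw [br_br_Eo, hSe, Matrix.zero_apply]
          by_cases hi : i = o
          · have : i ≠ a := fun h => ha (h ▸ hi)
            rw [if_pos hi, if_neg this, ite_self]
          · by_cases hj : j = o
            · have : j ≠ b := fun h => hb (h ▸ hj)
              rw [if_neg hi, if_pos hj, if_neg this, ite_self]
            · rw [if_neg hi, if_neg hj]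
        have h1 := hdd S
        rw [hS0, map_zero, hAS] at h1
        have h2 : br (Eo o) (br (Eo o) (S + row o c)) = row o c := by
          rw [Nice.br_add_right, Nice.br_add_right, hS0, br_Eo hc, br_Eo hc, zero_add]
        rw [h2] at h1
        rw [hAS, ← h1, add_zero]
  -- conclusion
  rw [Matrix.matrix_eq_sum_single T]
  simp only [map_sum]
  apply Finset.sum_congr rfl
  intro i _
  apply Finset.sum_congr rfl
  intro j _
  have : Matrix.single i j (T i j) = T i j • vecMulVec (Pi.single i 1) (Pi.single j 1) := by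
    ext a b
    rw [Matrix.single_apply, Matrix.smul_apply, vecMulVec_apply, Pi.single_apply,
      Pi.single_apply, smul_eq_mul]
    by_cases h1 : i = a <;> by_cases h2 : j = b <;> simp [h1, h2, eq_comm]
  rw [this, map_smul, hunit]

end Pool.Agent.Lib.MP_fda97a_al
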