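import Mathlib
import Pool.Agent.Lib.MP_fda97a_al.Class3

/-!
# Classification of nice maps, conclusion
-/

namespace Pool.Agent.Lib.MP_fda97a_al

open Matrix

variable {n : ℕ} {A : Matrix (Fin n) (Fin n) ℂ →ₗ[ℂ] Matrix (Fin n) (Fin n) ℂ} {o : Fin n}

lemma row_mul (c : Fin n → ℂ) (X : Matrix (Fin n) (Fin n) ℂ) : row o c * X = row o (c ᵥ* X) := by
  unfold row
  rw [vecMulVec_mul]

lemma row_mul_row (c d : Fin n → ℂ) : row o c * row o d = c o • row o d := by
  unfold row
  rw [vecMulVec_mul_vecMulVec, dotProduct_single_one, vecMulVec_smul]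

lemma fin5 (hA : Nice A)
    (hfix : ∀ j, j ≠ o → A (row o (Pi.single j 1)) = row o (Pi.single j 1))
    (hP1 : ∀ j, j ≠ o → br (A (Eo o)) (row o (Pi.single j 1)) = row o (Pi.single j 1)) :
    Std A := by
  obtain ⟨m, hm, hAm⟩ := diff_row hA hfix hP1 (par_Eo (o := o))
  have hmm : row o m * row o m = 0 := by rw [row_mul_row, hm, zero_smul]
  have hk : (1 + row o m) * (1 - row o m) = 1 := by
    have : (1 + row o m) * (1 - row o m) = 1 - row o m * row o m := by noncomm_ring
    rw [this, hmm, sub_zero]
  have kh : (1 - row o m) * (1 + row o m) = 1 := by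
    have : (1 - row o m) * (1 + row o m) = 1 - row o m * row o m := by noncomm_ring
    rw [this, hmm, sub_zero]
  apply Std.of_conj hk kh
  apply Std.of_id
  apply fin6 (o := o) (hA.conj hk kh)
  · intro j hj
    rw [conjL_apply, hfix j hj]
    have e1 : row o m * row o (Pi.single j 1) = 0 := by rw [row_mul_row, hm, zero_smul]
    have e2 : row o (Pi.single j 1) * row o m = 0 := by
      rw [row_mul_row, Pi.single_apply, if_neg (Ne.symm hj), zero_smul]
    have : (1 + row o m) * row o (Pi.single j 1) * (1 - row o m) =
        row o (Pi.single j 1) + row o m * row o (Pi.single j 1) -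
          row o (Pi.single j 1) * row o m -
          row o m * row o (Pi.single j 1) * row o m := by noncomm_ring
    rw [this, e1, e2]
    simp
  · rw [conjL_apply, hAm]
    have e1 : row o m * Eo o = 0 := by
      unfold Eo
      rw [row_mul_row, hm, zero_smul]
    have e2 : Eo o * row o m = row o m := by
      unfold Eo
      rw [row_mul_row, Pi.single_eq_same, one_smul]
    have : (1 + row o m) * (Eo o + row o m) * (1 - row o m) =
        Eo o + row o m + row o m * Eo o + row o m * row o m - (Eo o * row o m) -
        row o m * row o m - row o m * Eo o * row o m - row o m * row o m * row o m := by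
      noncomm_ring
    rw [this, e1, e2, hmm]
    simp

lemma fin4 (hA : Nice A)
    (hfix : ∀ j, j ≠ o → A (row o (Pi.single j 1)) = row o (Pi.single j 1)) : Std A := by
  have hn : n ≠ 0 := by
    rintro rfl
    exact Fin.elim0 o
  obtain ⟨δ, hδ, hP⟩ := delta hA hfix
  rcases hδ with rfl | rfl
  · exact fin5 hA hfix (fun j hj => by rw [hP j hj, one_smul])
  · obtain ⟨h, hdef⟩ : ∃ h : Matrix (Fin n) (Fin n) ℂ, h = 1 - (2 : ℂ) • Eo o := ⟨_, rfl⟩
    have hEE : Eo o * Eo o = Eo o := by
      unfold Eo
      rw [row_mul_row, Pi.single_eq_same, one_smul]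
    have hh : h * h = 1 := by
      rw [hdef]
      simp only [sub_mul, mul_sub, one_mul, mul_one, smul_mul_assoc, mul_smul_comm, hEE,
        smul_sub, smul_smul]
      rw [show (2 : ℂ) * 2 = 2 + 2 by norm_num, add_smul]
      abel
    have hconj : ∀ j, j ≠ o → h * row o (Pi.single j 1) * h = -row o (Pi.single j 1) := by
      intro j hj
      have e1 : Eo o * row o (Pi.single j 1) = row o (Pi.single j 1) := by
        unfold Eo
        rw [row_mul_row, Pi.single_eq_same, one_smul]
      have e2 : row o (Pi.single j 1) * Eo o = 0 := by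
        unfold Eo
        rw [row_mul_row, Pi.single_apply, if_neg (Ne.symm hj), zero_smul]
      rw [hdef]
      simp only [sub_mul, mul_sub, one_mul, mul_one, smul_mul_assoc, mul_smul_comm, e1, e2,
        smul_zero, sub_zero]
      rw [show (2 : ℂ) = 1 + 1 by norm_num, add_smul, one_smul]
      abel
    have htr : ∀ j, j ≠ o → (row o (Pi.single j 1) : Matrix (Fin n) (Fin n) ℂ).trace = 0 := by
      intro j hj
      unfold row
      rw [trace_vecMulVec, single_one_dotProduct, Pi.single_apply, if_neg (Ne.symm hj)]
    have hfix' : ∀ j, j ≠ o → negL (conjL h h A) (row o (Pi.single j 1)) =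
        row o (Pi.single j 1) := by
      intro j hj
      rw [negL_apply, conjL_apply, hfix j hj, hconj j hj, htr j hj]
      simp
    apply Std.of_conj hh hh
    apply Std.of_neg
    apply fin5 (o := o) ((hA.conj hh hh).neg hn) hfix'
    intro j hj
    rw [negL_apply, conjL_apply]
    have h1 : br (-(h * A (Eo o) * h) + (2 * (Eo o).trace / n) • 1) (row o (Pi.single j 1)) =
        -br (h * A (Eo o) * h) (row o (Pi.single j 1)) := by
      have := br_add_scalar (-(h * A (Eo o) * h)) (row o (Pi.single j 1))
        (2 * (Eo o).trace / n) 0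
      rw [zero_smul, add_zero] at this
      rw [this]
      unfold br
      noncomm_ring
    have h2 : row o (Pi.single j 1) = -(h * row o (Pi.single j 1) * h) := by
      rw [hconj j hj, neg_neg]
    have h3 : br (h * A (Eo o) * h) (row o (Pi.single j 1)) =
        -br (h * A (Eo o) * h) (h * row o (Pi.single j 1) * h) := by
      conv_lhs => rw [h2]
      unfold br
      noncomm_ring
    rw [h1, h3, br_conj hh, hP j hj, neg_one_smul, mul_neg, neg_mul, hconj j hj]
    simp

lemma fin2 (hA : Nice A) {u : Fin n → ℂ} (hu : u ≠ 0)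
    (hw : ∀ c : Fin n → ℂ, c o = 0 → ∃ w, A (row o c) = vecMulVec u w) : Std A := by
  classical
  obtain ⟨p, hp⟩ := Function.ne_iff.mp hu
  rw [Pi.zero_apply] at hp
  -- the rows
  obtain ⟨Θ, hΘ⟩ : ∃ Θ : Matrix (Fin n) (Fin n) ℂ, Θ = Matrix.of fun j k =>
      if j = o then (if k = p then (u p)⁻¹ else 0) else (u p)⁻¹ * A (row o (Pi.single j 1)) p k :=
    ⟨_, rfl⟩
  have hAΘ : ∀ j, j ≠ o → A (row o (Pi.single j 1)) = vecMulVec u (Θ j) := by
    intro j hj
    obtain ⟨w, hw'⟩ := hw (Pi.single j 1) (by rw [Pi.single_apply, if_neg (Ne.symm hj)])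
    rw [hw']
    congr 1
    funext k
    rw [hΘ, Matrix.of_apply, if_neg hj, hw', vecMulVec_apply, ← mul_assoc,
      inv_mul_cancel₀ hp, one_mul]
  have hne : ∀ j, j ≠ o → A (row o (Pi.single j 1)) ≠ 0 := by
    intro j hj h0
    have h1 : row o (Pi.single j (1 : ℂ)) = 0 := hA.injective (by rw [h0, map_zero])
    have h2 := congrFun (congrFun h1 o) j
    rw [row_apply, if_pos rfl, Pi.single_eq_same, Matrix.zero_apply] at h2
    exact one_ne_zero h2
  have hΘu : Θ *ᵥ u = Pi.single o 1 := by
    funext j
    rw [Pi.single_apply]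
    by_cases hj : j = o
    · rw [if_pos hj, hΘ]
      simp only [mulVec, dotProduct, Matrix.of_apply, if_pos hj]
      rw [Finset.sum_eq_single p]
      · rw [if_pos rfl, inv_mul_cancel₀ hp]
      · intro k _ hk
        rw [if_neg hk, zero_mul]
      · simp
    · rw [if_neg hj]
      have h1 := (hA.nil (x := Pi.single o 1) (f := Pi.single j 1) (by
        rw [single_one_dotProduct, Pi.single_apply, if_neg hj])).1
      change A (row o (Pi.single j 1)) * A (row o (Pi.single j 1)) = 0 at h1
      have h2 := hne j hj
      rw [hAΘ j hj] at h1 h2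
      rw [vecMulVec_mul_vecMulVec, vecMulVec_smul] at h1
      have h3 := (smul_eq_zero.mp h1).resolve_right h2
      exact h3
  have hdet : Θ.det ≠ 0 := by
    intro h0
    obtain ⟨v, hv0, hv⟩ := Matrix.exists_vecMul_eq_zero_iff.mpr h0
    apply hv0
    have hvo : v o = 0 := by
      have h1 : (v ᵥ* Θ) ⬝ᵥ u = 0 := by rw [hv, zero_dotProduct]
      rw [← dotProduct_mulVec, hΘu, dotProduct_single_one] at h1
      exact h1
    have h2 : A (row o v) = 0 := by
      rw [row_eq_sum, map_sum]
      have h3 : ∀ j, A (v j • row o (Pi.single j 1)) = v j • vecMulVec u (Θ j) := by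
        intro j
        rw [map_smul]
        by_cases hj : j = o
        · rw [hj, hvo, zero_smul, zero_smul]
        · rw [hAΘ j hj]
      rw [Finset.sum_congr rfl fun j _ => h3 j]
      ext a b
      rw [Matrix.sum_apply, Matrix.zero_apply]
      have h4 := congrFun hv b
      simp only [vecMul, dotProduct, Pi.zero_apply] at h4
      simp only [Matrix.smul_apply, vecMulVec_apply, smul_eq_mul]
      rw [Finset.sum_congr rfl fun j _ => show v j * (u a * Θ j b) = u a * (v j * Θ j b) by ring,
        ← Finset.mul_sum, h4, mul_zero]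
    have h5 : row o v = 0 := hA.injective (by rw [h2, map_zero])
    funext j
    have := congrFun (congrFun h5 o) j
    rwa [row_apply, if_pos rfl] at this
  have hk : Θ * Θ⁻¹ = 1 := Matrix.mul_nonsing_inv _ (isUnit_iff_ne_zero.mpr hdet)
  have kh : Θ⁻¹ * Θ = 1 := Matrix.nonsing_inv_mul _ (isUnit_iff_ne_zero.mpr hdet)
  apply Std.of_conj hk kh
  apply fin4 (o := o) (hA.conj hk kh)
  intro j hj
  rw [conjL_apply, hAΘ j hj, mul_vecMulVec, hΘu, vecMulVec_mul]
  unfold row
  congr 1
  have h1 : Θ j ᵥ* Θ⁻¹ = (Θ * Θ⁻¹) j := by
    funext k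
    rfl
  rw [h1, hk]
  funext k
  rw [Matrix.one_apply, Pi.single_apply]
  simp only [eq_comm]

/-- dichotomy for rank one spaces -/
lemma dicho (hA : Nice A) : (∃ u : Fin n → ℂ, u ≠ 0 ∧ ∀ c : Fin n → ℂ, c o = 0 →
      ∃ w, A (row o c) = vecMulVec u w) ∨
    (∃ w : Fin n → ℂ, w ≠ 0 ∧ ∀ c : Fin n → ℂ, c o = 0 →
      ∃ u, A (row o c) = vecMulVec u w) := by
  by_cases hex : ∃ j1, j1 ≠ o
  · obtain ⟨j1, hj1⟩ := hex
    have hcj : (Pi.single j1 (1 : ℂ) : Fin n → ℂ) o = 0 := by
      rw [Pi.single_apply, if_neg (Ne.symm hj1)]
    have hminor : ∀ c : Fin n → ℂ, c o = 0 → ∀ a b c' d, A (row o c) b c' * A (row o c) d a =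
        A (row o c) b a * A (row o c) d c' := by
      intro c hc
      have := (hA.nil (x := Pi.single o 1) (f := c) (by
        rw [dotProduct_single_one, hc])).2
      exact this
    obtain ⟨X, hX⟩ : ∃ X, X = A (row o (Pi.single j1 1)) := ⟨_, rfl⟩
    have hX0 : X ≠ 0 := by
      intro h0
      rw [hX] at h0
      have h1 : row o (Pi.single j1 (1 : ℂ)) = 0 := hA.injective (by rw [h0, map_zero])
      have h2 := congrFun (congrFun h1 o) j1
      rw [row_apply, if_pos rfl, Pi.single_eq_same, Matrix.zero_apply] at h2
      exact one_ne_zero h2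
    obtain ⟨p, r, hpr⟩ : ∃ p r, X p r ≠ 0 := by
      by_contra hcon
      push Not at hcon
      apply hX0
      ext i j
      exact hcon i j
    have hXm : ∀ a b, X a b * X p r = X a r * X p b := by
      intro a b
      have := hminor _ hcj r a b p
      rw [← hX] at this
      exact this
    -- description of the images
    have hY : ∀ c : Fin n → ℂ, c o = 0 →
        (∃ w, A (row o c) = vecMulVec (fun a => X a r) w) ∨
        (∃ u, A (row o c) = vecMulVec u (fun b => X p b)) := by
      intro c hc
      obtain ⟨Y, hYdef⟩ : ∃ Y, Y = A (row o c) := ⟨_, rfl⟩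
      rw [← hYdef]
      have hYm : ∀ a b c' d, Y b c' * Y d a = Y b a * Y d c' := by
        rw [hYdef]; exact hminor c hc
      have hXYm : ∀ a b c' d, (X b c' + Y b c') * (X d a + Y d a) =
          (X b a + Y b a) * (X d c' + Y d c') := by
        intro a b c' d
        have := hminor (Pi.single j1 1 + c) (by rw [Pi.add_apply, hcj, hc, add_zero]) a b c' d
        rw [row_add, map_add, ← hX, ← hYdef] at this
        exact this
      have hXmm : ∀ a b c' d, X b c' * X d a = X b a * X d c' := by
        intro a b c' d
        have := hminor _ hcj a b c' d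
        rw [← hX] at this
        exact this
      have hpol : ∀ a b, Y a b * X p r = X a r * Y p b + Y a r * X p b - X a b * Y p r := by
        intro a b
        have h1 := hXYm r a b p
        have h2 := hXmm r a b p
        have h3 := hYm r a b p
        linear_combination h1 - h2 - h3
      -- the two vectors
      by_cases hy : ∀ a, Y a r * X p r = X a r * Y p r
      · left
        refine ⟨fun b => Y p b / X p r, ?_⟩
        ext a b
        rw [vecMulVec_apply]
        have h1 := hpol a b
        have h2 := hy a
        have h3 := hXm a b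
        field_simp
        have h4 : X p r * (Y a b * X p r - X a r * Y p b) = 0 := by
          linear_combination X p r * h1 + X p b * h2 - Y p r * h3
        have h5 := (mul_eq_zero.mp h4).resolve_left hpr
        linear_combination h5
      · right
        push Not at hy
        obtain ⟨a0, ha0⟩ := hy
        -- then the row of `Y` is proportional to the row of `X`
        have hz : ∀ b, Y p b * X p r = Y p r * X p b := by
          intro b
          have h1 := hpol a0 b
          have h2 := hYm r a0 b p
          have h3 := hXm a0 b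
          have h4 : (Y a0 r * X p r - X a0 r * Y p r) * (Y p b * X p r - Y p r * X p b) = 0 := by
            linear_combination (X p r * Y p r) * h1 - (X p r) ^ 2 * h2 - (Y p r) ^ 2 * h3
          have h5 := (mul_eq_zero.mp h4).resolve_left (fun h => ha0 (by linear_combination h))
          linear_combination h5
        refine ⟨fun a => Y a r / X p r, ?_⟩
        ext a b
        rw [vecMulVec_apply]
        have h1 := hpol a b
        have h2 := hz b
        have h3 := hXm a b
        field_simp
        have h4 : X p r * (Y a b * X p r - Y a r * X p b) = 0 := by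
          linear_combination X p r * h1 + X a r * h2 - Y p r * h3
        have h5 := (mul_eq_zero.mp h4).resolve_left hpr
        linear_combination h5
    -- the union of two subspaces
    by_cases h1 : ∀ c : Fin n → ℂ, c o = 0 → ∃ w, A (row o c) = vecMulVec (fun a => X a r) w
    · left
      refine ⟨fun a => X a r, ?_, h1⟩
      intro h
      exact hpr (congrFun h p)
    · right
      refine ⟨fun b => X p b, ?_, ?_⟩
      · intro h
        exact hpr (congrFun h r)
      · push Not at h1
        obtain ⟨c1, hc1, hc1'⟩ := h1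
        have hc1'' : ∃ u, A (row o c1) = vecMulVec u (fun b => X p b) := by
          rcases hY c1 hc1 with ⟨w, hw⟩ | h
          · exact absurd hw (hc1' w)
          · exact h
        intro c hc
        rcases hY c hc with ⟨w, hw⟩ | h
        · -- look at the sum
          rcases hY (c1 + c) (by rw [Pi.add_apply, hc1, hc, add_zero]) with ⟨w', hw'⟩ | ⟨u', hu'⟩
          · exfalso
            apply hc1' (w' - w)
            rw [row_add, map_add, hw] at hw'
            rw [vecMulVec_sub, ← hw', add_sub_cancel_right]
          · obtain ⟨u1, hu1⟩ := hc1''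
            refine ⟨u' - u1, ?_⟩
            rw [row_add, map_add, hu1] at hu'
            rw [sub_vecMulVec, ← hu', add_sub_cancel_left]
        · exact h
  · left
    have hc0 : ∀ c : Fin n → ℂ, c o = 0 → c = 0 := by
      intro c hc
      funext j
      by_cases hj : j = o
      · rw [hj, hc]; rfl
      · exact absurd ⟨j, hj⟩ hex
    refine ⟨Pi.single o 1, ?_, ?_⟩
    · intro h
      have := congrFun h o
      rw [Pi.single_eq_same, Pi.zero_apply] at this
      exact one_ne_zero this
    · intro c hc
      refine ⟨0, ?_⟩
      rw [hc0 c hc, row_zero, map_zero, vecMulVec_zero]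

/-- classification of the nice maps -/
theorem Nice.std (hn : 0 < n) (hA : Nice A) : Std A := by
  rcases dicho (o := ⟨0, hn⟩) hA with ⟨u, hu, hw⟩ | ⟨w, hw, hu⟩
  · exact fin2 hA hu hw
  · apply Std.of_trans
    apply fin2 hA.trans hw
    intro c hc
    obtain ⟨u, hu'⟩ := hu c hc
    refine ⟨u, ?_⟩
    rw [transL_apply, hu', transpose_vecMulVec]

end Pool.Agent.Lib.MP_fda97a_al
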