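import Mathlib
import Pool.Agent.Lib.MP_fda97a_al.Class4

/-!
# Linear maps preserving `tr [T,S]^2`
-/

namespace Pool.Agent.Lib.MP_fda97a_al

open Matrix

variable {n : ℕ}

lemma functional (l : Matrix (Fin n) (Fin n) ℂ →ₗ[ℂ] ℂ) :
    ∃ L : Matrix (Fin n) (Fin n) ℂ, ∀ S, (L * S).trace = l S := by
  refine ⟨Matrix.of fun i j => l (Matrix.single j i 1), fun S => ?_⟩
  conv_rhs => rw [Matrix.matrix_eq_sum_single S]
  rw [map_sum]
  simp only [map_sum]
  rw [Matrix.trace, Finset.sum_comm]
  apply Finset.sum_congr rfl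
  intro i _
  rw [Matrix.diag_apply, Matrix.mul_apply]
  apply Finset.sum_congr rfl
  intro j _
  have : Matrix.single j i (S j i) = S j i • Matrix.single j i (1 : ℂ) := by
    rw [Matrix.smul_single, smul_eq_mul, mul_one]
  rw [this, map_smul, Matrix.of_apply, smul_eq_mul, mul_comm]

/-- a functional vanishing on nilpotents of rank one vanishes on traceless matrices -/
lemma functional_zero (l : Matrix (Fin n) (Fin n) ℂ →ₗ[ℂ] ℂ)
    (h : ∀ x f : Fin n → ℂ, f ⬝ᵥ x = 0 → l (vecMulVec x f) = 0)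
    {T : Matrix (Fin n) (Fin n) ℂ} (hT : T.trace = 0) : l T = 0 := by
  obtain ⟨L, hL⟩ := functional l
  obtain ⟨c, hc⟩ := scalar_of (T := L) (by
    intro x f hf
    have := h x f hf
    rw [← hL, mul_vecMulVec, trace_vecMulVec, dotProduct_comm] at this
    exact this)
  rw [← hL, hc, smul_mul_assoc, one_mul, Matrix.trace_smul, hT, smul_zero]

lemma tl_eq_zero {T : Matrix (Fin n) (Fin n) ℂ} (h : ∀ S, q T S = 0) : tl T = 0 := by
  ext i j
  have := nondeg (ι := Unit) (fun _ => 1) (fun _ => T) (by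
    intro S
    simp [h S]) i j i j
  simp only [Finset.univ_unique, Finset.sum_singleton, one_mul] at this
  exact mul_self_eq_zero.mp this

lemma tl_of_trace {T : Matrix (Fin n) (Fin n) ℂ} (h : T.trace = 0) : tl T = T := by
  unfold tl
  rw [h, zero_div, zero_smul, sub_zero]

lemma br_scalar_right (T S : Matrix (Fin n) (Fin n) ℂ) (c : ℂ) : br T (S + c • 1) = br T S := by
  have := br_add_scalar T S 0 c
  rwa [zero_smul, add_zero] at this

lemma q_scalar_right (T S : Matrix (Fin n) (Fin n) ℂ) (c : ℂ) : q T (S + c • 1) = q T S := by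
  unfold q
  rw [br_scalar_right]

lemma q_scalar_left (T S : Matrix (Fin n) (Fin n) ℂ) (c : ℂ) : q (T + c • 1) S = q T S := by
  rw [q_symm, q_scalar_right, q_symm]

section raw

variable {A : Matrix (Fin n) (Fin n) ℂ →ₗ[ℂ] Matrix (Fin n) (Fin n) ℂ}

/-- `A` plus the normalised trace -/
noncomputable def plusTr (A : Matrix (Fin n) (Fin n) ℂ →ₗ[ℂ] Matrix (Fin n) (Fin n) ℂ) :
    Matrix (Fin n) (Fin n) ℂ →ₗ[ℂ] Matrix (Fin n) (Fin n) ℂ where
  toFun T := A T + (T.trace / n) • 1
  map_add' x y := by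
    rw [map_add, Matrix.trace_add, add_div, add_smul]
    abel
  map_smul' s x := by
    rw [map_smul, Matrix.trace_smul, RingHom.id_apply, smul_add, smul_smul, smul_eq_mul,
      mul_div_assoc]

lemma plusTr_apply (T : Matrix (Fin n) (Fin n) ℂ) : plusTr A T = A T + (T.trace / n) • 1 := rfl

lemma plusTr_trace (hn : n ≠ 0) (htr : ∀ T, (A T).trace = 0) (T : Matrix (Fin n) (Fin n) ℂ) :
    (plusTr A T).trace = T.trace := by
  have hn' : (n : ℂ) ≠ 0 := by exact_mod_cast hn
  rw [plusTr_apply, Matrix.trace_add, htr, Matrix.trace_smul, Matrix.trace_one, Fintype.card_fin,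
    smul_eq_mul, zero_add, div_mul_cancel₀ _ hn']

lemma plusTr_q (hq : ∀ T S, q (A T) (A S) = q T S) (T S : Matrix (Fin n) (Fin n) ℂ) :
    q (plusTr A T) (plusTr A S) = q T S := by
  rw [plusTr_apply, plusTr_apply, q_scalar_left, q_scalar_right, hq]

lemma plusTr_injective (hn : n ≠ 0) (htr : ∀ T, (A T).trace = 0)
    (hq : ∀ T S, q (A T) (A S) = q T S) : Function.Injective (plusTr A) := by
  rw [← LinearMap.ker_eq_bot, LinearMap.ker_eq_bot']
  intro T hT
  have h1 : T.trace = 0 := by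
    rw [← plusTr_trace hn htr, hT, Matrix.trace_zero]
  have h2 : tl T = 0 := by
    apply tl_eq_zero
    intro S
    rw [← plusTr_q hq, hT, q_zero_left]
  rwa [tl_of_trace h1] at h2

lemma A_one (hn : n ≠ 0) (htr : ∀ T, (A T).trace = 0)
    (hq : ∀ T S, q (A T) (A S) = q T S) : A 1 = 0 := by
  rw [← tl_of_trace (htr 1)]
  apply tl_eq_zero
  intro S'
  obtain ⟨S, rfl⟩ := LinearMap.injective_iff_surjective.mp (plusTr_injective hn htr hq) S'
  rw [plusTr_apply, q_scalar_right, hq]
  unfold q br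
  simp

lemma plusTr_one (hn : n ≠ 0) (htr : ∀ T, (A T).trace = 0)
    (hq : ∀ T S, q (A T) (A S) = q T S) : plusTr A 1 = 1 := by
  have hn' : (n : ℂ) ≠ 0 := by exact_mod_cast hn
  rw [plusTr_apply, A_one hn htr hq, zero_add, Matrix.trace_one, Fintype.card_fin, div_self hn',
    one_smul]

/-- for a nilpotent of rank one the trace form is preserved up to sign -/
lemma sign_nil (hn : n ≠ 0) (htr : ∀ T, (A T).trace = 0)
    (hq : ∀ T S, q (A T) (A S) = q T S) {x f : Fin n → ℂ} (hf : f ⬝ᵥ x = 0) :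
    (∀ S, (plusTr A (vecMulVec x f) * plusTr A S).trace = (vecMulVec x f * S).trace) ∨
    (∀ S, (plusTr A (vecMulVec x f) * plusTr A S).trace = -(vecMulVec x f * S).trace) := by
  have hn' : (n : ℂ) ≠ 0 := by exact_mod_cast hn
  have hinj := plusTr_injective hn htr hq
  have hsurj := LinearMap.injective_iff_surjective.mp hinj
  let B : Matrix (Fin n) (Fin n) ℂ ≃ₗ[ℂ] Matrix (Fin n) (Fin n) ℂ :=
    LinearEquiv.ofBijective (plusTr A) ⟨hinj, hsurj⟩
  have hB : ∀ S, B S = plusTr A S := fun S => rfl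
  have htrN : (vecMulVec x f).trace = 0 := by rw [trace_vecMulVec, dotProduct_comm, hf]
  obtain ⟨L, hL⟩ := functional ((Matrix.traceLinearMap (Fin n) ℂ ℂ) ∘ₗ
    (LinearMap.mulLeft ℂ (vecMulVec x f)) ∘ₗ B.symm.toLinearMap)
  have hL' : ∀ S, (L * plusTr A S).trace = (vecMulVec x f * S).trace := by
    intro S
    rw [hL]
    change (vecMulVec x f * B.symm (plusTr A S)).trace = _
    rw [← hB, LinearEquiv.symm_apply_apply]
  have hqL : ∀ S', q (plusTr A (vecMulVec x f)) S' = 2 * (L * S').trace ^ 2 := by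
    intro S'
    obtain ⟨S, rfl⟩ := hsurj S'
    rw [hL', plusTr_q hq, q_vmv_nil x f hf]
  have htrL : L.trace = 0 := by
    have := hL' 1
    rw [plusTr_one hn htr hq, mul_one, mul_one, htrN] at this
    exact this
  have htrA : (plusTr A (vecMulVec x f)).trace = 0 := by rw [plusTr_trace hn htr, htrN]
  have hcmp : ∀ y g : Fin n → ℂ, g ⬝ᵥ y = 0 →
      (g ⬝ᵥ (plusTr A (vecMulVec x f)) *ᵥ y) ^ 2 = (g ⬝ᵥ L *ᵥ y) ^ 2 := by
    intro y g hg
    have h1 := hqL (vecMulVec y g)
    rw [q_vmv, hg, mul_vecMulVec, trace_vecMulVec, dotProduct_comm (L *ᵥ y) g] at h1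
    linear_combination h1 / 2
  rcases eq_or_neg hcmp with ⟨c, hc⟩ | ⟨c, hc⟩
  · left
    have hc0 : c = 0 := by
      have := congrArg Matrix.trace hc
      rw [Matrix.trace_add, htrA, htrL, Matrix.trace_smul, Matrix.trace_one, Fintype.card_fin,
        smul_eq_mul, zero_add] at this
      exact (mul_eq_zero.mp this.symm).resolve_right hn'
    intro S
    rw [← hL', hc, hc0, zero_smul, add_zero]
  · right
    have hc0 : c = 0 := by
      have := congrArg Matrix.trace hc
      rw [Matrix.trace_add, Matrix.trace_neg, htrA, htrL, Matrix.trace_smul, Matrix.trace_one,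
        Fintype.card_fin, smul_eq_mul, neg_zero, zero_add] at this
      exact (mul_eq_zero.mp this.symm).resolve_right hn'
    intro S
    rw [← hL', hc, hc0, zero_smul, add_zero, neg_mul, Matrix.trace_neg, neg_neg]

/-- the sign is uniform -/
lemma sign_uniform (hn : n ≠ 0) (htr : ∀ T, (A T).trace = 0)
    (hq : ∀ T S, q (A T) (A S) = q T S) :
    ∃ s : ℂ, (s = 1 ∨ s = -1) ∧ ∀ T S, T.trace = 0 →
      (plusTr A T * plusTr A S).trace = s * (T * S).trace := by
  have hlpN : LPM (fun p : Par n => vecMulVec p.1 (cov p)) := LPM.vecMulVec lpv_fst lpv_cov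
  have hlpA : LPM (fun p : Par n => plusTr A (vecMulVec p.1 (cov p))) := by
    intro i j
    -- composition of a linear functional with the `LP` map
    obtain ⟨L, hL⟩ := functional ((LinearMap.proj j ∘ₗ LinearMap.proj i ∘ₗ
      (plusTr A : Matrix (Fin n) (Fin n) ℂ →ₗ[ℂ] (Fin n → Fin n → ℂ))))
    have : (fun p : Par n => plusTr A (vecMulVec p.1 (cov p)) i j) =
        fun p : Par n => (L * vecMulVec p.1 (cov p)).trace := by
      funext p
      rw [hL]
      rfl
    rw [this]
    exact ((LPM.const L).mul hlpN).trace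
  have hlp : ∀ (σ : ℂ) (S : Matrix (Fin n) (Fin n) ℂ), LP (fun p : Par n =>
      (plusTr A (vecMulVec p.1 (cov p)) * plusTr A S).trace -
        σ * (vecMulVec p.1 (cov p) * S).trace) := by
    intro σ S
    exact ((hlpA.mul (LPM.const _)).trace).sub
      ((LP.const σ).mul ((hlpN.mul (LPM.const S)).trace))
  -- one of the two signs works for all parameters
  have hs : ∃ s : ℂ, (s = 1 ∨ s = -1) ∧ ∀ (p : Par n) S,
      (plusTr A (vecMulVec p.1 (cov p)) * plusTr A S).trace =
        s * (vecMulVec p.1 (cov p) * S).trace := by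
    by_cases h1 : ∀ (p : Par n) S,
      (plusTr A (vecMulVec p.1 (cov p)) * plusTr A S).trace -
        1 * (vecMulVec p.1 (cov p) * S).trace = 0
    · exact ⟨1, Or.inl rfl, fun p S => by linear_combination h1 p S⟩
    · by_cases h2 : ∀ (p : Par n) S,
        (plusTr A (vecMulVec p.1 (cov p)) * plusTr A S).trace -
          (-1) * (vecMulVec p.1 (cov p) * S).trace = 0
      · exact ⟨-1, Or.inr rfl, fun p S => by linear_combination h2 p S⟩
      · exfalso
        push Not at h1 h2
        obtain ⟨p1, S1, h1⟩ := h1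
        obtain ⟨p2, S2, h2⟩ := h2
        obtain ⟨p, hp1, hp2⟩ := (hlp 1 S1).exists_ne (hlp (-1) S2) ⟨p1, h1⟩ ⟨p2, h2⟩
        rcases sign_nil hn htr hq (cov_dot p) with h | h
        · apply hp1
          rw [h S1]
          ring
        · apply hp2
          rw [h S2]
          ring
  obtain ⟨s, hs1, hs2⟩ := hs
  refine ⟨s, hs1, ?_⟩
  intro T S hT
  have h1 := functional_zero ((Matrix.traceLinearMap (Fin n) ℂ ℂ) ∘ₗ
    (LinearMap.mulRight ℂ (plusTr A S)) ∘ₗ (plusTr A) -
    s • ((Matrix.traceLinearMap (Fin n) ℂ ℂ) ∘ₗ (LinearMap.mulRight ℂ S))) (by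
      intro x f hf
      change (plusTr A (vecMulVec x f) * plusTr A S).trace - s * (vecMulVec x f * S).trace = 0
      by_cases hx : x = 0
      · rw [hx, zero_vecMulVec, map_zero, zero_mul, zero_mul]
        simp
      · obtain ⟨p, hp1, hp2⟩ := exists_par hx hf
        have := hs2 p S
        rw [hp1, hp2] at this
        rw [this, sub_self]) hT
  change (plusTr A T * plusTr A S).trace - s * (T * S).trace = 0 at h1
  linear_combination h1

lemma A_tl (hn : n ≠ 0) (htr : ∀ T, (A T).trace = 0)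
    (hq : ∀ T S, q (A T) (A S) = q T S) (T : Matrix (Fin n) (Fin n) ℂ) : A (tl T) = A T := by
  unfold tl
  rw [map_sub, map_smul, A_one hn htr hq, smul_zero, sub_zero]

/-- the final form of the linear maps preserving `tr [T,S]^2` -/
theorem raw_std (hn : 0 < n) (htr : ∀ T, (A T).trace = 0)
    (hq : ∀ T S, q (A T) (A S) = q T S) :
    ∃ (h k : Matrix (Fin n) (Fin n) ℂ) (κ : ℂ) (c : Matrix (Fin n) (Fin n) ℂ → ℂ),
      h * k = 1 ∧ k * h = 1 ∧ κ ^ 4 = 1 ∧
      ((∀ T, A T = κ • (h * T * k) + c T • 1) ∨ (∀ T, A T = κ • (h * Tᵀ * k) + c T • 1)) := by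
  have hn0 : n ≠ 0 := hn.ne'
  have hn' : (n : ℂ) ≠ 0 := by exact_mod_cast hn0
  obtain ⟨s, hs, hsT⟩ := sign_uniform hn0 htr hq
  obtain ⟨κ, hκ⟩ : ∃ κ : ℂ, κ * κ = s := by
    obtain ⟨κ, hκ⟩ := IsAlgClosed.exists_pow_nat_eq s (n := 2) (by norm_num)
    exact ⟨κ, by rw [← sq, hκ]⟩
  have hs2 : s * s = 1 := by rcases hs with h | h <;> rw [h] <;> ring
  have hκ4 : κ ^ 4 = 1 := by
    have : κ ^ 4 = (κ * κ) * (κ * κ) := by ring
    rw [this, hκ, hs2]
  have hκ0 : κ ≠ 0 := by
    rintro rfl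
    norm_num at hκ4
  -- trace form of `A`
  have hAA : ∀ T S, (A T * A S).trace = s * ((T * S).trace - T.trace * S.trace / n) := by
    intro T S
    have h1 := hsT (tl T) S (trace_tl hn0 T)
    have h2 : plusTr A (tl T) = A T := by
      rw [plusTr_apply, trace_tl hn0, zero_div, zero_smul, add_zero, A_tl hn0 htr hq]
    rw [h2, plusTr_apply, mul_add, Matrix.trace_add, mul_smul_comm, mul_one, Matrix.trace_smul,
      htr, smul_zero, add_zero] at h1
    rw [h1]
    unfold tl
    rw [sub_mul, smul_mul_assoc, one_mul, Matrix.trace_sub, Matrix.trace_smul, smul_eq_mul]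
    ring
  have hnice : Nice (plusTr (κ⁻¹ • A)) := by
    constructor
    · intro T S
      rw [plusTr_apply, plusTr_apply]
      simp only [LinearMap.smul_apply, add_mul, mul_add, smul_mul_assoc, mul_smul_comm, one_mul,
        mul_one, Matrix.trace_add, Matrix.trace_smul, smul_eq_mul, Matrix.trace_one,
        Fintype.card_fin, htr, hAA]
      have h1 : κ⁻¹ * (κ⁻¹ * (s * ((T * S).trace - T.trace * S.trace / n))) =
          (T * S).trace - T.trace * S.trace / n := by
        rw [← hκ]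
        field_simp
      rw [h1]
      field_simp
      ring
    · rw [plusTr_apply, LinearMap.smul_apply, A_one hn0 htr hq, smul_zero, zero_add,
        Matrix.trace_one, Fintype.card_fin, div_self hn', one_smul]
    · intro T S
      rw [plusTr_apply, plusTr_apply, q_scalar_left, q_scalar_right, LinearMap.smul_apply,
        LinearMap.smul_apply, q_smul_left, q_symm, q_smul_left, q_symm, hq]
      have : κ⁻¹ ^ 2 * (κ⁻¹ ^ 2 * q T S) = (κ ^ 4)⁻¹ * q T S := by
        rw [inv_pow, ← mul_assoc, ← mul_inv, ← pow_add]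
      rw [this, hκ4, inv_one, one_mul]
  obtain ⟨h, k, σ, c, h1, h2, h3, h4⟩ := hnice.std hn
  have hσ : σ ^ 4 = 1 := by rcases h3 with h | h <;> rw [h] <;> ring
  have hrec : ∀ T, A T = κ • (plusTr (κ⁻¹ • A) T - (T.trace / n) • 1) := by
    intro T
    rw [plusTr_apply, LinearMap.smul_apply, add_sub_cancel_right, smul_smul,
      mul_inv_cancel₀ hκ0, one_smul]
  refine ⟨h, k, κ * σ, fun T => κ * (c T - T.trace / n), h1, h2, by rw [mul_pow, hκ4, hσ, one_mul],
    ?_⟩
  rcases h4 with h4 | h4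
  · left
    intro T
    rw [hrec T, h4 T, ← smul_smul, ← smul_smul, ← smul_add, sub_smul]
    congr 1
    abel
  · right
    intro T
    rw [hrec T, h4 T, ← smul_smul, ← smul_smul, ← smul_add, sub_smul]
    congr 1
    abel

end raw

end Pool.Agent.Lib.MP_fda97a_al
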