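import Mathlib
import Pool.Agent.Lib.MP_fda97a_al.Raw

/-!
# Eigenvalue relations valid generically are valid everywhere
-/

namespace Pool.Agent.Lib.MP_fda97a_al

open Matrix Polynomial

variable {n : ℕ}

section

variable {E : Type*} [AddCommGroup E] [Module ℂ E]

/-- the symmetrised characteristic polynomial -/
noncomputable def symPoly {R : Type*} [CommRing R] (N : Matrix (Fin n) (Fin n) R) : R[X] :=
  N.charpoly * N.charpoly.comp (-X)

lemma symPoly_map {R S : Type*} [CommRing R] [CommRing S] (f : R →+* S)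
    (N : Matrix (Fin n) (Fin n) R) : symPoly (N.map f) = (symPoly N).map f := by
  unfold symPoly
  rw [Matrix.charpoly_map, Polynomial.map_mul, Polynomial.map_comp, Polynomial.map_neg, map_X]

lemma symPoly_eval (N : Matrix (Fin n) (Fin n) ℂ) (r : ℂ) :
    (symPoly N).eval r = N.charpoly.eval r * N.charpoly.eval (-r) := by
  unfold symPoly
  rw [eval_mul, eval_comp, eval_neg, eval_X]

lemma symPoly_root {N : Matrix (Fin n) (Fin n) ℂ} {r : ℂ} :
    (symPoly N).eval r = 0 ↔ r ∈ spectrum ℂ N ∨ -r ∈ spectrum ℂ N := by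
  rw [symPoly_eval, mul_eq_zero, Matrix.mem_spectrum_iff_isRoot_charpoly,
    Matrix.mem_spectrum_iff_isRoot_charpoly]
  rfl

lemma dvd_iff {M N : Matrix (Fin n) (Fin n) ℂ} :
    M.charpoly ∣ symPoly N ^ n ↔ ∀ r ∈ spectrum ℂ M, r ∈ spectrum ℂ N ∨ -r ∈ spectrum ℂ N := by
  constructor
  · intro h r hr
    rw [← symPoly_root]
    rw [Matrix.mem_spectrum_iff_isRoot_charpoly] at hr
    have h1 : (symPoly N ^ n).eval r = 0 := eval_eq_zero_of_dvd_of_eval_eq_zero h hr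
    rw [eval_pow] at h1
    exact eq_zero_of_pow_eq_zero h1
  · intro h
    have h1 : M.charpoly = (M.charpoly.roots.map (fun a => X - C a)).prod :=
      (IsAlgClosed.splits M.charpoly).eq_prod_roots_of_monic M.charpoly_monic
    have h2 : symPoly N ^ n = (M.charpoly.roots.map (fun _ => symPoly N)).prod := by
      rw [Multiset.map_const', Multiset.prod_replicate, card_roots]
    have h3 : ∀ a ∈ M.charpoly.roots, X - C a ∣ symPoly N := by
      intro a ha
      rw [dvd_iff_isRoot]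
      change (symPoly N).eval a = 0
      rw [symPoly_root]
      apply h
      rw [spectrum_eq_rootSet]
      exact ha
    have h4 := Multiset.prod_dvd_prod_of_dvd (S := M.charpoly.roots) (fun a => X - C a)
      (fun _ => symPoly N) h3
    rw [← h1, ← h2] at h4
    exact h4

/-- An eigenvalue inclusion (up to sign) that holds generically holds everywhere. -/
lemma closure_incl {F : E → ℂ} (hF : LP F) (hne : ∃ x, F x ≠ 0)
    {M N : E → Matrix (Fin n) (Fin n) ℂ} (hM : LPM M) (hN : LPM N)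
    (h : ∀ x, F x ≠ 0 → ∀ r ∈ spectrum ℂ (M x), r ∈ spectrum ℂ (N x) ∨ -r ∈ spectrum ℂ (N x)) :
    ∀ x, ∀ r ∈ spectrum ℂ (M x), r ∈ spectrum ℂ (N x) ∨ -r ∈ spectrum ℂ (N x) := by
  intro x
  rw [← dvd_iff]
  obtain ⟨y, hy⟩ := hne
  obtain ⟨P, hP0, hP⟩ := hF.poly_ne (x := x) hy
  obtain ⟨A, hA⟩ := hM.exists_poly x (y - x)
  obtain ⟨B, hB⟩ := hN.exists_poly x (y - x)
  have hR : ∀ t, (symPoly B ^ n %ₘ A.charpoly).map (evalRingHom t) =
      symPoly (N (x + t • (y - x))) ^ n %ₘ (M (x + t • (y - x))).charpoly := by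
    intro t
    rw [map_modByMonic _ A.charpoly_monic, Polynomial.map_pow, ← symPoly_map,
      ← Matrix.charpoly_map, hA, hB]
    rfl
  have hzero : symPoly B ^ n %ₘ A.charpoly = 0 := by
    ext i : 1
    rw [coeff_zero]
    have hz : P * (symPoly B ^ n %ₘ A.charpoly).coeff i = 0 := by
      apply Polynomial.funext
      intro t
      rw [eval_mul, eval_zero]
      by_cases ht : P.eval t = 0
      · rw [ht, zero_mul]
      · have h1 : F (x + t • (y - x)) ≠ 0 := by rw [hP]; exact ht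
        have h2 := dvd_iff.mpr (h _ h1)
        rw [← modByMonic_eq_zero_iff_dvd (Matrix.charpoly_monic _), ← hR t] at h2
        have h3 := congrArg (fun p => Polynomial.coeff p i) h2
        simp only [coeff_map, coeff_zero] at h3
        change eval t _ = 0 at h3
        rw [h3, mul_zero]
    exact (mul_eq_zero.mp hz).resolve_left hP0
  have h4 := hR 0
  rw [hzero, Polynomial.map_zero, zero_smul, add_zero] at h4
  rw [← modByMonic_eq_zero_iff_dvd (Matrix.charpoly_monic _)]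
  exact h4.symm

end

/-! ### eigenvalues of `[T, x ⊗ f]` -/

lemma mem_spectrum_iff {X : Matrix (Fin n) (Fin n) ℂ} {r : ℂ} :
    r ∈ spectrum ℂ X ↔ ∃ w : Fin n → ℂ, w ≠ 0 ∧ X *ᵥ w = r • w := by
  rw [Matrix.mem_spectrum_iff_isRoot_charpoly]
  change X.charpoly.eval r = 0 ↔ _
  rw [Matrix.eval_charpoly, ← Matrix.exists_mulVec_eq_zero_iff]
  constructor
  · rintro ⟨w, hw, h⟩
    refine ⟨w, hw, ?_⟩
    rw [sub_mulVec, Matrix.scalar_apply] at h
    have h1 : (diagonal fun _ => r) *ᵥ w = r • w := by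
      ext i
      rw [mulVec_diagonal]
      rfl
    rw [h1, sub_eq_zero] at h
    exact h.symm
  · rintro ⟨w, hw, h⟩
    refine ⟨w, hw, ?_⟩
    rw [sub_mulVec, Matrix.scalar_apply]
    have h1 : (diagonal fun _ => r) *ᵥ w = r • w := by
      ext i
      rw [mulVec_diagonal]
      rfl
    rw [h1, h, sub_self]

lemma br_vmv_mulVec (T : Matrix (Fin n) (Fin n) ℂ) (x f w : Fin n → ℂ) :
    br T (vecMulVec x f) *ᵥ w = (f ⬝ᵥ w) • (T *ᵥ x) - (f ⬝ᵥ T *ᵥ w) • x := by
  rw [br_vmv, sub_mulVec, vecMulVec_mulVec, vecMulVec_mulVec, ← dotProduct_mulVec]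
  simp only [op_smul_eq_smul]

/-- `-f·Tx` is an eigenvalue of `[T, x ⊗ f]` -/
lemma neg_mem {T : Matrix (Fin n) (Fin n) ℂ} {x f : Fin n → ℂ} (hf : f ⬝ᵥ x = 0)
    (h : f ⬝ᵥ T *ᵥ x ≠ 0) : -(f ⬝ᵥ T *ᵥ x) ∈ spectrum ℂ (br T (vecMulVec x f)) := by
  rw [mem_spectrum_iff]
  refine ⟨x, ?_, ?_⟩
  · rintro rfl
    simp at h
  · rw [br_vmv_mulVec, hf, zero_smul, zero_sub, neg_smul]

lemma sq_of_mem {T : Matrix (Fin n) (Fin n) ℂ} {x f : Fin n → ℂ} (hf : f ⬝ᵥ x = 0) {r : ℂ}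
    (hr : r ≠ 0) (h : r ∈ spectrum ℂ (br T (vecMulVec x f))) : r ^ 2 = (f ⬝ᵥ T *ᵥ x) ^ 2 := by
  rw [mem_spectrum_iff] at h
  obtain ⟨w, hw, h⟩ := h
  rw [br_vmv_mulVec] at h
  have h1 := congrArg (fun z => f ⬝ᵥ z) h
  simp only [dotProduct_sub, dotProduct_smul, smul_eq_mul, hf, mul_zero, sub_zero] at h1
  by_cases hfw : f ⬝ᵥ w = 0
  · have h2 := congrArg (fun z => f ⬝ᵥ T *ᵥ z) h
    simp only [hfw, zero_smul, zero_sub, mulVec_neg, mulVec_smul, dotProduct_neg,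
      dotProduct_smul, smul_eq_mul] at h2
    have h3 : f ⬝ᵥ T *ᵥ w ≠ 0 := by
      intro h3
      rw [hfw, h3, zero_smul, zero_smul, sub_zero] at h
      exact hw ((smul_eq_zero.mp h.symm).resolve_left hr)
    have h4 : (f ⬝ᵥ T *ᵥ w) * (f ⬝ᵥ T *ᵥ x + r) = 0 := by linear_combination -h2
    have h5 := (mul_eq_zero.mp h4).resolve_left h3
    have h6 : f ⬝ᵥ T *ᵥ x = -r := by linear_combination h5
    rw [h6]
    ring
  · have h4 : (f ⬝ᵥ w) * (f ⬝ᵥ T *ᵥ x - r) = 0 := by linear_combination h1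
    have h5 := (mul_eq_zero.mp h4).resolve_left hfw
    have h6 : f ⬝ᵥ T *ᵥ x = r := by linear_combination h5
    rw [h6]

/-- If the spectra of `[T,S]` and `[Z,S]` agree up to signs for generic `S`, then `Z = ±T + c`. -/
theorem eq_or_neg_of_spectrum {F : Matrix (Fin n) (Fin n) ℂ → ℂ} (hF : LP F)
    (hne : ∃ x, F x ≠ 0) {T Z : Matrix (Fin n) (Fin n) ℂ}
    (h1 : ∀ S, F S ≠ 0 → ∀ r ∈ spectrum ℂ (br T S),
      r ∈ spectrum ℂ (br Z S) ∨ -r ∈ spectrum ℂ (br Z S))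
    (h2 : ∀ S, F S ≠ 0 → ∀ r ∈ spectrum ℂ (br Z S),
      r ∈ spectrum ℂ (br T S) ∨ -r ∈ spectrum ℂ (br T S)) :
    (∃ c : ℂ, Z = T + c • 1) ∨ (∃ c : ℂ, Z = -T + c • 1) := by
  have l1 : LPM (fun S => br T S) := (LPM.const T).br lpm_id
  have l2 : LPM (fun S => br Z S) := (LPM.const Z).br lpm_id
  have g1 := closure_incl hF hne l1 l2 h1
  have g2 := closure_incl hF hne l2 l1 h2
  apply eq_or_neg
  intro x f hf
  by_cases hT : f ⬝ᵥ T *ᵥ x = 0
  · by_cases hZ : f ⬝ᵥ Z *ᵥ x = 0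
    · rw [hT, hZ]
    · rcases g2 _ _ (neg_mem hf hZ) with h | h
      · rw [← sq_of_mem hf (neg_ne_zero.mpr hZ) h]
        ring
      · rw [← sq_of_mem hf (neg_ne_zero.mpr (neg_ne_zero.mpr hZ)) h]
        ring
  · rcases g1 _ _ (neg_mem hf hT) with h | h
    · rw [← sq_of_mem hf (neg_ne_zero.mpr hT) h]
      ring
    · rw [← sq_of_mem hf (neg_ne_zero.mpr (neg_ne_zero.mpr hT)) h]
      ring

end Pool.Agent.Lib.MP_fda97a_al
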