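import Mathlib
import Pool.Agent.Lib.MP_fda97a_al.Closure

/-!
# The structure of the maps preserving spectra of commutators, up to signs
-/

namespace Pool.Agent.Lib.MP_fda97a_al

open Matrix

variable {n : ℕ}

lemma mem_spectrum_smul {X : Matrix (Fin n) (Fin n) ℂ} {d r : ℂ} (hd : d * d = 1) :
    r ∈ spectrum ℂ (d • X) ↔ d * r ∈ spectrum ℂ X := by
  rw [mem_spectrum_iff, mem_spectrum_iff]
  constructor
  · rintro ⟨w, hw, h⟩
    refine ⟨w, hw, ?_⟩
    rw [smul_mulVec] at h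
    rw [← smul_smul, ← h, smul_smul, hd, one_smul]
  · rintro ⟨w, hw, h⟩
    refine ⟨w, hw, ?_⟩
    rw [smul_mulVec, h, smul_smul, ← mul_assoc, hd, one_mul]

lemma br_smul_left (T S : Matrix (Fin n) (Fin n) ℂ) (a : ℂ) : br (a • T) S = a • br T S := by
  unfold br
  rw [smul_mul_assoc, mul_smul_comm, smul_sub]

lemma br_smul_right (T S : Matrix (Fin n) (Fin n) ℂ) (a : ℂ) : br T (a • S) = a • br T S := by
  unfold br
  rw [smul_mul_assoc, mul_smul_comm, smul_sub]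

/-- the properties of `T ↦ h T k` and `T ↦ h Tᵀ k` that we use -/
structure Mod (ψ : Matrix (Fin n) (Fin n) ℂ → Matrix (Fin n) (Fin n) ℂ) (s : ℂ) : Prop where
  sq : s * s = 1
  surj : ∀ Y, ∃ Z, ψ Z = Y
  lin : ∀ (a c : ℂ) T, ψ (a • T + c • 1) = a • ψ T + c • 1
  br : ∀ T S, br (ψ T) (ψ S) = s • ψ (br T S)
  spec : ∀ X, spectrum ℂ (ψ X) = spectrum ℂ X

lemma charpoly_conj {h k : Matrix (Fin n) (Fin n) ℂ} (kh : k * h = 1)
    (X : Matrix (Fin n) (Fin n) ℂ) : (h * X * k).charpoly = X.charpoly := by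
  rw [Matrix.charpoly_mul_comm, ← mul_assoc, kh, one_mul]

lemma spectrum_congr {X Y : Matrix (Fin n) (Fin n) ℂ} (h : X.charpoly = Y.charpoly) :
    spectrum ℂ X = spectrum ℂ Y := by
  rw [spectrum_eq_rootSet, spectrum_eq_rootSet, h]

lemma mod_id {h k : Matrix (Fin n) (Fin n) ℂ} (hk : h * k = 1) (kh : k * h = 1) :
    Mod (fun T => h * T * k) 1 where
  sq := one_mul 1
  surj Y := ⟨k * Y * h, by
    have : h * (k * Y * h) * k = (h * k) * Y * (h * k) := by simp only [mul_assoc]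
    rw [this, hk, one_mul, mul_one]⟩
  lin a c T := by
    simp only [mul_add, add_mul, mul_smul_comm, smul_mul_assoc, mul_one, hk]
  br T S := by
    rw [br_conj kh, one_smul]
  spec X := spectrum_congr (charpoly_conj kh X)

lemma mod_tr {h k : Matrix (Fin n) (Fin n) ℂ} (hk : h * k = 1) (kh : k * h = 1) :
    Mod (fun T => h * Tᵀ * k) (-1) where
  sq := by ring
  surj Y := ⟨(k * Y * h)ᵀ, by
    have : h * (k * Y * h) * k = (h * k) * Y * (h * k) := by simp only [mul_assoc]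
    rw [transpose_transpose, this, hk, one_mul, mul_one]⟩
  lin a c T := by
    simp only [transpose_add, transpose_smul, transpose_one, mul_add, add_mul, mul_smul_comm,
      smul_mul_assoc, mul_one, hk]
  br T S := by
    rw [br_conj kh]
    unfold MP_fda97a_al.br
    rw [transpose_sub, transpose_mul, transpose_mul, neg_smul, one_smul, ← neg_mul, ← mul_neg,
      neg_sub]
  spec X := by
    rw [spectrum_congr (charpoly_conj kh Xᵀ)]
    exact spectrum_congr (Matrix.charpoly_transpose X)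

/-- from generic to all -/
lemma struct_aux {ψ : Matrix (Fin n) (Fin n) ℂ → Matrix (Fin n) (Fin n) ℂ} {s : ℂ}
    (hψ : Mod ψ s) {φ : Matrix (Fin n) (Fin n) ℂ → Matrix (Fin n) (Fin n) ℂ}
    (H : ∀ T S, spectrum ℂ (br (φ T) (φ S)) = spectrum ℂ (br T S))
    {F : Matrix (Fin n) (Fin n) ℂ → ℂ} (hF : LP F) (hne : ∃ x, F x ≠ 0) {κ : ℂ}
    (hκ : κ ^ 4 = 1)
    (hA : ∀ S, F S ≠ 0 → ∃ e c : ℂ, e * e = 1 ∧ φ S = (e * κ) • ψ S + c • 1)
    (T : Matrix (Fin n) (Fin n) ℂ) :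
    ∃ e c : ℂ, (e = 1 ∨ e = -1) ∧ φ T = (e * κ) • ψ T + c • 1 := by
  have hκ0 : κ ≠ 0 := by
    rintro rfl
    norm_num at hκ
  obtain ⟨Z, hZ⟩ := hψ.surj (κ⁻¹ • φ T)
  have hZ' : φ T = κ • ψ Z := by rw [hZ, smul_smul, mul_inv_cancel₀ hκ0, one_smul]
  have key : ∀ S, F S ≠ 0 → ∃ d : ℂ, (d = 1 ∨ d = -1) ∧
      ∀ r, r ∈ spectrum ℂ (br T S) ↔ d * r ∈ spectrum ℂ (br Z S) := by
    intro S hS
    obtain ⟨e, c, he, hc⟩ := hA S hS
    have hd : (κ * (e * κ) * s) * (κ * (e * κ) * s) = 1 := by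
      have : (κ * (e * κ) * s) * (κ * (e * κ) * s) = κ ^ 4 * (e * e) * (s * s) := by ring
      rw [this, hκ, he, hψ.sq]
      ring
    refine ⟨κ * (e * κ) * s, mul_self_eq_one_iff.mp hd, fun r => ?_⟩
    have hb : br (φ T) (φ S) = (κ * (e * κ) * s) • ψ (br Z S) := by
      rw [hZ', hc, br_scalar_right, br_smul_left, br_smul_right, hψ.br, smul_smul, smul_smul]
    rw [← H T S, hb, mem_spectrum_smul hd, hψ.spec]
  have h1 := eq_or_neg_of_spectrum hF hne (T := T) (Z := Z)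
    (by
      intro S hS r hr
      obtain ⟨d, hd, h⟩ := key S hS
      rw [h] at hr
      rcases hd with rfl | rfl
      · rw [one_mul] at hr
        exact Or.inl hr
      · rw [neg_one_mul] at hr
        exact Or.inr hr)
    (by
      intro S hS r hr
      obtain ⟨d, hd, h⟩ := key S hS
      rcases hd with rfl | rfl
      · left
        rw [h, one_mul]
        exact hr
      · right
        rw [h, neg_mul_neg, one_mul]
        exact hr)
  rcases h1 with ⟨c, hc⟩ | ⟨c, hc⟩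
  · refine ⟨1, κ * c, Or.inl rfl, ?_⟩
    have := hψ.lin 1 c T
    rw [one_smul, one_smul] at this
    rw [hZ', hc, this, smul_add, smul_smul, one_mul]
  · refine ⟨-1, κ * c, Or.inr rfl, ?_⟩
    have := hψ.lin (-1) c T
    rw [neg_one_smul, neg_one_smul] at this
    rw [hZ', hc, this, smul_add, smul_smul, smul_neg, neg_one_mul, neg_smul]

/-- The structure theorem up to signs. -/
theorem struct (hn : 2 ≤ n)
    {φ : Matrix (Fin n) (Fin n) ℂ → Matrix (Fin n) (Fin n) ℂ}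
    (H : ∀ T S, spectrum ℂ (br (φ T) (φ S)) = spectrum ℂ (br T S)) :
    ∃ (h k : Matrix (Fin n) (Fin n) ℂ) (κ : ℂ) (e c : Matrix (Fin n) (Fin n) ℂ → ℂ),
      h * k = 1 ∧ k * h = 1 ∧ κ ^ 4 = 1 ∧ (∀ T, e T = 1 ∨ e T = -1) ∧
      ((∀ T, φ T = (e T * κ) • (h * T * k) + c T • 1) ∨
        (∀ T, φ T = (e T * κ) • (h * Tᵀ * k) + c T • 1)) := by
  obtain ⟨A, F, hF, hne, htr, hq, hA⟩ := exists_linear hn φ H
  obtain ⟨h, k, κ, c, hk, kh, hκ, hc⟩ := raw_std (by omega) htr hq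
  have hgen : ∀ ψ : Matrix (Fin n) (Fin n) ℂ → Matrix (Fin n) (Fin n) ℂ,
      (∀ T, A T = κ • ψ T + c T • 1) → ∀ S, F S ≠ 0 →
        ∃ e c : ℂ, e * e = 1 ∧ φ S = (e * κ) • ψ S + c • 1 := by
    intro ψ hψ S hS
    obtain ⟨t, ht⟩ : ∃ t : ℂ, φ S = tl (φ S) + t • 1 := ⟨(φ S).trace / n, by
      unfold tl
      rw [sub_add_cancel]⟩
    rcases hA S hS with h1 | h1
    · refine ⟨1, c S + t, one_mul 1, ?_⟩
      rw [ht, ← h1, hψ, one_mul, add_smul, add_assoc]
    · refine ⟨-1, -c S + t, by ring, ?_⟩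
      have h2 : tl (φ S) = -A S := by rw [h1, neg_neg]
      rw [ht, h2, hψ, neg_one_mul, add_smul, neg_add, neg_smul, neg_smul, add_assoc]
  rcases hc with hc | hc
  · choose e c' h1 h2 using struct_aux (mod_id hk kh) H hF hne hκ (hgen _ hc)
    exact ⟨h, k, κ, e, c', hk, kh, hκ, h1, Or.inl h2⟩
  · choose e c' h1 h2 using struct_aux (mod_tr hk kh) H hF hne hκ (hgen _ hc)
    exact ⟨h, k, κ, e, c', hk, kh, hκ, h1, Or.inr h2⟩

end Pool.Agent.Lib.MP_fda97a_al
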