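import Mathlib
import Pool.Agent.Lib.MP_fda97a_al.Struct

/-!
# Commutators with a quadratic matrix have symmetric spectrum
-/

namespace Pool.Agent.Lib.MP_fda97a_al

open Matrix

variable {n : ℕ}

lemma eval_cp (X : Matrix (Fin n) (Fin n) ℂ) (r : ℂ) :
    X.charpoly.eval r = (r • (1 : Matrix (Fin n) (Fin n) ℂ) - X).det := by
  rw [Matrix.eval_charpoly, Matrix.scalar_apply, Matrix.smul_one_eq_diagonal]

lemma mem_spectrum_iff_det {X : Matrix (Fin n) (Fin n) ℂ} {r : ℂ} :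
    r ∈ spectrum ℂ X ↔ (r • (1 : Matrix (Fin n) (Fin n) ℂ) - X).det = 0 := by
  rw [Matrix.mem_spectrum_iff_isRoot_charpoly, ← eval_cp]
  rfl

lemma det_comm_sub (A B : Matrix (Fin n) (Fin n) ℂ) (r : ℂ) :
    (r • (1 : Matrix (Fin n) (Fin n) ℂ) - A * B).det =
      (r • (1 : Matrix (Fin n) (Fin n) ℂ) - B * A).det := by
  rw [← eval_cp, ← eval_cp, Matrix.charpoly_mul_comm]

lemma det_neg_sub (A : Matrix (Fin n) (Fin n) ℂ) (r : ℂ) :
    (r • (1 : Matrix (Fin n) (Fin n) ℂ) + A).det =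
      (-1) ^ n * ((-r) • (1 : Matrix (Fin n) (Fin n) ℂ) - A).det := by
  have : r • (1 : Matrix (Fin n) (Fin n) ℂ) + A =
      -((-r) • (1 : Matrix (Fin n) (Fin n) ℂ) - A) := by
    rw [neg_smul]
    abel
  rw [this, Matrix.det_neg, Fintype.card_fin]

/-- `T` satisfies a monic quadratic equation or a linear one. -/
def IsQuad (T : Matrix (Fin n) (Fin n) ℂ) : Prop := ∃ a b : ℂ, T * T = a • T + b • 1

/-- The spectrum of `[T,S]` is symmetric if `T` is quadratic. -/
theorem neg_mem_of_quad {T : Matrix (Fin n) (Fin n) ℂ} (hT : IsQuad T)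
    (S : Matrix (Fin n) (Fin n) ℂ) {r : ℂ} (hr : r ∈ spectrum ℂ (br T S)) :
    -r ∈ spectrum ℂ (br T S) := by
  obtain ⟨a, b, hab⟩ := hT
  obtain ⟨T₀, hT₀⟩ : ∃ T₀ : Matrix (Fin n) (Fin n) ℂ, T₀ = T + (-(a / 2)) • 1 := ⟨_, rfl⟩
  have hsq : T₀ * T₀ = (b + a ^ 2 / 4) • 1 := by
    rw [hT₀]
    simp only [add_mul, mul_add, smul_mul_assoc, mul_smul_comm, one_mul, mul_one, smul_add,
      smul_smul, hab]
    module
  have hbr : br T S = br T₀ S := by
    rw [hT₀]
    have := br_add_scalar T S (-(a / 2)) 0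
    rw [zero_smul, add_zero] at this
    exact this.symm
  rw [hbr] at hr ⊢
  clear hbr hT₀ hab
  generalize b + a ^ 2 / 4 = c at hsq
  by_cases hc : c = 0
  · by_cases hr0 : r = 0
    · rw [hr0, neg_zero]
      rwa [hr0] at hr
    · rw [hc, zero_smul] at hsq
      rw [mem_spectrum_iff_det] at hr ⊢
      have e1 : ∀ s : ℂ, s • (s • (1 : Matrix (Fin n) (Fin n) ℂ) - br T₀ S) =
          (s • 1 + S * T₀) * (s • 1 - T₀ * S) := by
        intro s
        have h0 : S * T₀ * (T₀ * S) = 0 := by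
          rw [mul_assoc, ← mul_assoc T₀ T₀ S, hsq, zero_mul, mul_zero]
        unfold br
        simp only [add_mul, mul_sub, smul_mul_assoc, mul_smul_comm, one_mul, mul_one, smul_sub,
          smul_add, h0]
        abel
      have e2 : ∀ s : ℂ, s ^ n * (s • (1 : Matrix (Fin n) (Fin n) ℂ) - br T₀ S).det =
          (s • 1 + S * T₀).det * (s • 1 - T₀ * S).det := by
        intro s
        rw [← Matrix.det_mul, ← e1, Matrix.det_smul, Fintype.card_fin]
      have e3 := e2 r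
      have e4 := e2 (-r)
      rw [hr, mul_zero, det_neg_sub, det_comm_sub S T₀, det_comm_sub T₀ S r] at e3
      have e5 : (r • (1 : Matrix (Fin n) (Fin n) ℂ) - S * T₀).det =
          (-1) ^ n * ((-r) • (1 : Matrix (Fin n) (Fin n) ℂ) + S * T₀).det := by
        have := det_neg_sub (-(S * T₀)) r
        rw [← sub_eq_add_neg, sub_neg_eq_add] at this
        exact this
      rw [e5] at e3
      have h1 : ((-1 : ℂ)) ^ n ≠ 0 := pow_ne_zero _ (by norm_num)
      have h2 : ((-r) • (1 : Matrix (Fin n) (Fin n) ℂ) + S * T₀).det *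
          ((-r) • (1 : Matrix (Fin n) (Fin n) ℂ) - T₀ * S).det = 0 := by
        have h3 : ((-1 : ℂ)) ^ n * ((-1 : ℂ)) ^ n *
            (((-r) • (1 : Matrix (Fin n) (Fin n) ℂ) + S * T₀).det *
            ((-r) • (1 : Matrix (Fin n) (Fin n) ℂ) - T₀ * S).det) = 0 := by
          linear_combination -e3
        exact (mul_eq_zero.mp h3).resolve_left (mul_ne_zero h1 h1)
      rw [h2] at e4
      exact (mul_eq_zero.mp e4).resolve_left (pow_ne_zero _ (neg_ne_zero.mpr hr0))
  · have hanti : br T₀ S * T₀ = -(T₀ * br T₀ S) := by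
      have h1 : T₀ * (T₀ * S) = S * T₀ * T₀ := by
        rw [← mul_assoc, hsq, mul_assoc, hsq, smul_mul_assoc, mul_smul_comm, one_mul, mul_one]
      unfold br
      rw [sub_mul, mul_sub, h1, mul_assoc T₀ S T₀]
      abel
    rw [mem_spectrum_iff] at hr ⊢
    obtain ⟨w, hw, h⟩ := hr
    refine ⟨T₀ *ᵥ w, ?_, ?_⟩
    · intro h1
      have h2 : (T₀ * T₀) *ᵥ w = 0 := by rw [← mulVec_mulVec, h1, mulVec_zero]
      rw [hsq, smul_mulVec, one_mulVec] at h2
      exact hw ((smul_eq_zero.mp h2).resolve_left hc)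
    · rw [mulVec_mulVec, hanti, neg_mulVec, ← mulVec_mulVec, h, mulVec_smul, neg_smul]

end Pool.Agent.Lib.MP_fda97a_al
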