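import Mathlib
import Pool.Agent.Lib.MP_fda97a_al.Sym

/-!
# Non-quadratic matrices have commutators with non-symmetric spectrum
-/

namespace Pool.Agent.Lib.MP_fda97a_al

open Matrix Polynomial

variable {n : ℕ}

/-- explicit `3 × 3` determinant -/
def d3 (a0 a1 a2 b0 b1 b2 c0 c1 c2 : ℂ) : ℂ :=
  a0 * (b1 * c2 - b2 * c1) - a1 * (b0 * c2 - b2 * c0) + a2 * (b0 * c1 - b1 * c0)

/-- the compression of `[T, x ⊗ f + y ⊗ g]` -/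
def K4 (a0 a1 a2 b0 b1 b2 c0 c1 c2 d0 d1 d2 : ℂ) : Matrix (Fin 4) (Fin 4) ℂ :=
  !![a1, a0, b1, b0; -a2, -a1, -b2, -b1; c1, c0, d1, d0; -c2, -c1, -d2, -d1]

lemma odd_part (a0 a1 a2 b0 b1 b2 c0 c1 c2 d0 d1 d2 r : ℂ) :
    (r • (1 : Matrix (Fin 4) (Fin 4) ℂ) - K4 a0 a1 a2 b0 b1 b2 c0 c1 c2 d0 d1 d2).det -
      ((-r) • (1 : Matrix (Fin 4) (Fin 4) ℂ) - K4 a0 a1 a2 b0 b1 b2 c0 c1 c2 d0 d1 d2).det =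
    -2 * r * (d3 a0 a1 a2 b0 b1 b2 c0 c1 c2 - d3 d0 d1 d2 b0 b1 b2 c0 c1 c2) := by
  have key : ∀ s : ℂ, (s • (1 : Matrix (Fin 4) (Fin 4) ℂ) -
      K4 a0 a1 a2 b0 b1 b2 c0 c1 c2 d0 d1 d2) =
      !![s - a1, -a0, -b1, -b0; a2, s + a1, b2, b1; -c1, -c0, s - d1, -d0; c2, c1, d2, s + d1] := by
    intro s
    ext i j
    fin_cases i <;> fin_cases j <;> simp [K4]
  rw [key, key]
  simp only [Matrix.det_succ_row_zero, Fin.sum_univ_succ, Matrix.det_fin_zero]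
  simp [Fin.succAbove, Matrix.submatrix, d3]
  ring

lemma exists_root {K : Matrix (Fin 4) (Fin 4) ℂ} {e : ℂ} (he : e ≠ 0)
    (h : ∀ r : ℂ, (r • (1 : Matrix (Fin 4) (Fin 4) ℂ) - K).det -
      ((-r) • (1 : Matrix (Fin 4) (Fin 4) ℂ) - K).det = -2 * r * e) :
    ∃ r : ℂ, r ≠ 0 ∧ r ∈ spectrum ℂ K ∧ -r ∉ spectrum ℂ K := by
  have h1 : ∃ r ∈ K.charpoly.roots, r ≠ 0 := by
    by_contra hcon
    push Not at hcon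
    have h2 : K.charpoly.roots = Multiset.replicate 4 0 :=
      Multiset.eq_replicate.mpr ⟨card_roots K, hcon⟩
    have h3 := (IsAlgClosed.splits K.charpoly).eq_prod_roots_of_monic K.charpoly_monic
    rw [h2, Multiset.map_replicate, Multiset.prod_replicate, map_zero, sub_zero] at h3
    have h4 := h 1
    rw [← eval_cp, ← eval_cp, h3, eval_pow, eval_pow, eval_X, eval_X] at h4
    apply he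
    linear_combination (1 / 2 : ℂ) * h4
  obtain ⟨r, hr, hr0⟩ := h1
  have h5 : r ∈ spectrum ℂ K := by
    rw [spectrum_eq_rootSet]
    exact hr
  refine ⟨r, hr0, h5, ?_⟩
  intro h6
  rw [mem_spectrum_iff_det] at h5 h6
  have h7 := h r
  rw [h5, h6, sub_zero] at h7
  have h8 : r * e = 0 := by linear_combination (1 / 2 : ℂ) * h7
  exact mul_ne_zero hr0 he h8

/-- parameters `(x, y, f, g)` -/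
abbrev Par4 (n : ℕ) := (Fin n → ℂ) × (Fin n → ℂ) × (Fin n → ℂ) × (Fin n → ℂ)

/-- the matrix `x ⊗ f + y ⊗ g` -/
def rk2 (p : Par4 n) : Matrix (Fin n) (Fin n) ℂ :=
  vecMulVec p.1 p.2.2.1 + vecMulVec p.2.1 p.2.2.2

/-- the coefficient -/
def e3 (T : Matrix (Fin n) (Fin n) ℂ) (p : Par4 n) : ℂ :=
  d3 (p.2.2.1 ⬝ᵥ p.1) (p.2.2.1 ⬝ᵥ T *ᵥ p.1) (p.2.2.1 ⬝ᵥ (T * T) *ᵥ p.1)
    (p.2.2.1 ⬝ᵥ p.2.1) (p.2.2.1 ⬝ᵥ T *ᵥ p.2.1) (p.2.2.1 ⬝ᵥ (T * T) *ᵥ p.2.1)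
    (p.2.2.2 ⬝ᵥ p.1) (p.2.2.2 ⬝ᵥ T *ᵥ p.1) (p.2.2.2 ⬝ᵥ (T * T) *ᵥ p.1) -
  d3 (p.2.2.2 ⬝ᵥ p.2.1) (p.2.2.2 ⬝ᵥ T *ᵥ p.2.1) (p.2.2.2 ⬝ᵥ (T * T) *ᵥ p.2.1)
    (p.2.2.1 ⬝ᵥ p.2.1) (p.2.2.1 ⬝ᵥ T *ᵥ p.2.1) (p.2.2.1 ⬝ᵥ (T * T) *ᵥ p.2.1)
    (p.2.2.2 ⬝ᵥ p.1) (p.2.2.2 ⬝ᵥ T *ᵥ p.1) (p.2.2.2 ⬝ᵥ (T * T) *ᵥ p.1)

lemma factor_left (T : Matrix (Fin n) (Fin n) ℂ) (x y f g : Fin n → ℂ) :
    (Matrix.of fun a j => ![(T *ᵥ x) a, x a, (T *ᵥ y) a, y a] j : Matrix (Fin n) (Fin 4) ℂ) *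
      (Matrix.of ![f, -(f ᵥ* T), g, -(g ᵥ* T)] : Matrix (Fin 4) (Fin n) ℂ) =
    br T (vecMulVec x f + vecMulVec y g) := by
  rw [Nice.br_add_right, br_vmv, br_vmv]
  ext a b
  rw [Matrix.mul_apply, Fin.sum_univ_four]
  simp [vecMulVec_apply]
  ring

lemma factor_right (T : Matrix (Fin n) (Fin n) ℂ) (x y f g : Fin n → ℂ) :
    (Matrix.of ![f, -(f ᵥ* T), g, -(g ᵥ* T)] : Matrix (Fin 4) (Fin n) ℂ) *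
    (Matrix.of fun a j => ![(T *ᵥ x) a, x a, (T *ᵥ y) a, y a] j : Matrix (Fin n) (Fin 4) ℂ) =
    K4 (f ⬝ᵥ x) (f ⬝ᵥ T *ᵥ x) (f ⬝ᵥ (T * T) *ᵥ x) (f ⬝ᵥ y) (f ⬝ᵥ T *ᵥ y) (f ⬝ᵥ (T * T) *ᵥ y)
      (g ⬝ᵥ x) (g ⬝ᵥ T *ᵥ x) (g ⬝ᵥ (T * T) *ᵥ x) (g ⬝ᵥ y) (g ⬝ᵥ T *ᵥ y) (g ⬝ᵥ (T * T) *ᵥ y) := by
  have h1 : ∀ u v : Fin n → ℂ, ∑ a, u a * v a = u ⬝ᵥ v := fun _ _ => rfl
  ext i j
  rw [Matrix.mul_apply]
  fin_cases i <;> fin_cases j <;>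
    simp [K4, h1, ← dotProduct_mulVec, mulVec_mulVec, Finset.sum_neg_distrib]

lemma nonsym_of_e3 {T : Matrix (Fin n) (Fin n) ℂ} {p : Par4 n} (h : e3 T p ≠ 0) :
    ∃ r : ℂ, r ∈ spectrum ℂ (br T (rk2 p)) ∧ -r ∉ spectrum ℂ (br T (rk2 p)) := by
  obtain ⟨x, y, f, g⟩ := p
  obtain ⟨r, hr0, h1, h2⟩ := exists_root h (fun r => odd_part _ _ _ _ _ _ _ _ _ _ _ _ r)
  have hcomm := Matrix.charpoly_mul_comm'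
    (Matrix.of fun a j => ![(T *ᵥ x) a, x a, (T *ᵥ y) a, y a] j : Matrix (Fin n) (Fin 4) ℂ)
    (Matrix.of ![f, -(f ᵥ* T), g, -(g ᵥ* T)] : Matrix (Fin 4) (Fin n) ℂ)
  rw [factor_left, factor_right] at hcomm
  have hiff : ∀ s : ℂ, s ≠ 0 → (s ∈ spectrum ℂ (br T (rk2 (x, y, f, g))) ↔
      s ∈ spectrum ℂ (K4 (f ⬝ᵥ x) (f ⬝ᵥ T *ᵥ x) (f ⬝ᵥ (T * T) *ᵥ x) (f ⬝ᵥ y) (f ⬝ᵥ T *ᵥ y)
        (f ⬝ᵥ (T * T) *ᵥ y) (g ⬝ᵥ x) (g ⬝ᵥ T *ᵥ x) (g ⬝ᵥ (T * T) *ᵥ x) (g ⬝ᵥ y)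
        (g ⬝ᵥ T *ᵥ y) (g ⬝ᵥ (T * T) *ᵥ y))) := by
    intro s hs
    rw [Matrix.mem_spectrum_iff_isRoot_charpoly, Matrix.mem_spectrum_iff_isRoot_charpoly]
    have h3 := congrArg (fun q => Polynomial.eval s q) hcomm
    simp only [eval_mul, eval_pow, eval_X] at h3
    unfold IsRoot
    constructor
    · intro h4
      change eval s (br T (vecMulVec x f + vecMulVec y g)).charpoly = 0 at h4
      rw [h4, mul_zero] at h3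
      exact (mul_eq_zero.mp h3.symm).resolve_left (pow_ne_zero _ hs)
    · intro h4
      rw [h4, mul_zero] at h3
      exact (mul_eq_zero.mp h3).resolve_left (pow_ne_zero _ hs)
  refine ⟨r, (hiff r hr0).mpr h1, fun h3 => h2 ((hiff _ (neg_ne_zero.mpr hr0)).mp h3)⟩

end Pool.Agent.Lib.MP_fda97a_al
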