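import Mathlib
import Pool.Agent.Lib.MP_fda97a_al.Sign

/-!
# Existence of non-symmetric commutators
-/

namespace Pool.Agent.Lib.MP_fda97a_al

open Matrix

variable {n : ℕ}

/-- If all the `3 × 3` determinants vanish then `T` is quadratic. -/
lemma quad_of_d3 {T : Matrix (Fin n) (Fin n) ℂ}
    (h : ∀ x y f g : Fin n → ℂ, d3 (f ⬝ᵥ x) (f ⬝ᵥ T *ᵥ x) (f ⬝ᵥ (T * T) *ᵥ x)
      (f ⬝ᵥ y) (f ⬝ᵥ T *ᵥ y) (f ⬝ᵥ (T * T) *ᵥ y)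
      (g ⬝ᵥ x) (g ⬝ᵥ T *ᵥ x) (g ⬝ᵥ (T * T) *ᵥ x) = 0) : IsQuad T := by
  by_cases hs : ∃ c : ℂ, T = c • 1
  · obtain ⟨c, hc⟩ := hs
    refine ⟨c, 0, ?_⟩
    rw [zero_smul, add_zero]
    conv_lhs => rw [hc]
    rw [smul_mul_assoc, one_mul, ← hc]
  · obtain ⟨x₀, f₁, hf₁, hf₁'⟩ : ∃ x f : Fin n → ℂ, f ⬝ᵥ x = 0 ∧ f ⬝ᵥ T *ᵥ x ≠ 0 := by
      by_contra hcon
      push Not at hcon
      exact hs (scalar_of hcon)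
    -- normalise
    obtain ⟨f₀, hf0, hf0'⟩ : ∃ f : Fin n → ℂ, f ⬝ᵥ x₀ = 0 ∧ f ⬝ᵥ T *ᵥ x₀ = 1 :=
      ⟨(f₁ ⬝ᵥ T *ᵥ x₀)⁻¹ • f₁, by rw [smul_dotProduct, hf₁, smul_zero], by
        rw [smul_dotProduct, smul_eq_mul, inv_mul_cancel₀ hf₁']⟩
    have hx₀ : x₀ ≠ 0 := by
      rintro rfl
      simp at hf0'
    have hf₀ : f₀ ≠ 0 := by
      rintro rfl
      simp at hf0'
    obtain ⟨g₀, hg0, hg0'⟩ : ∃ g : Fin n → ℂ, g ⬝ᵥ x₀ = 1 ∧ g ⬝ᵥ T *ᵥ x₀ = 0 := by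
      obtain ⟨i, hi⟩ := Function.ne_iff.mp hx₀
      rw [Pi.zero_apply] at hi
      have h1 : (Pi.single i (x₀ i)⁻¹ : Fin n → ℂ) ⬝ᵥ x₀ = 1 := by
        rw [single_dotProduct, inv_mul_cancel₀ hi]
      refine ⟨Pi.single i (x₀ i)⁻¹ - ((Pi.single i (x₀ i)⁻¹ : Fin n → ℂ) ⬝ᵥ T *ᵥ x₀) • f₀, ?_, ?_⟩
      · rw [sub_dotProduct, smul_dotProduct, hf0, smul_zero, sub_zero, h1]
      · rw [sub_dotProduct, smul_dotProduct, hf0', smul_eq_mul, mul_one, sub_self]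
    obtain ⟨y₀, hy0, hy0'⟩ : ∃ y : Fin n → ℂ, f₀ ⬝ᵥ y = 1 ∧ f₀ ⬝ᵥ T *ᵥ y = 0 := by
      obtain ⟨i, hi⟩ := Function.ne_iff.mp hf₀
      rw [Pi.zero_apply] at hi
      have h1 : f₀ ⬝ᵥ (Pi.single i (f₀ i)⁻¹ : Fin n → ℂ) = 1 := by
        rw [dotProduct_single, mul_inv_cancel₀ hi]
      refine ⟨Pi.single i (f₀ i)⁻¹ - (f₀ ⬝ᵥ T *ᵥ (Pi.single i (f₀ i)⁻¹ : Fin n → ℂ)) • x₀, ?_, ?_⟩
      · rw [dotProduct_sub, dotProduct_smul, hf0, smul_zero, sub_zero, h1]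
      · rw [mulVec_sub, mulVec_smul, dotProduct_sub, dotProduct_smul, hf0', smul_eq_mul, mul_one,
          sub_self]
    obtain ⟨t₀, ht₀⟩ : ∃ t : ℂ, t = f₀ ⬝ᵥ (T * T) *ᵥ x₀ := ⟨_, rfl⟩
    obtain ⟨u₀, hu₀⟩ : ∃ u : ℂ, u = g₀ ⬝ᵥ (T * T) *ᵥ x₀ := ⟨_, rfl⟩
    -- step 1
    have s1 : ∀ y, f₀ ⬝ᵥ (T * T) *ᵥ y = u₀ * (f₀ ⬝ᵥ y) + t₀ * (f₀ ⬝ᵥ T *ᵥ y) := by
      intro y
      have h1 := h x₀ y f₀ g₀
      rw [hf0, hf0', hg0, hg0', ← ht₀, ← hu₀] at h1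
      unfold d3 at h1
      linear_combination h1
    -- step 2
    have s2 : ∀ g, g ⬝ᵥ (T * T) *ᵥ x₀ = u₀ * (g ⬝ᵥ x₀) + t₀ * (g ⬝ᵥ T *ᵥ x₀) := by
      intro g
      have h1 := h x₀ y₀ f₀ g
      have h2 := s1 y₀
      rw [hy0, hy0'] at h2
      rw [hf0, hf0', hy0, hy0', ← ht₀, h2] at h1
      unfold d3 at h1
      linear_combination -h1
    -- step 3
    have s3 : ∀ f y, (f ⬝ᵥ T *ᵥ x₀) *
        (f ⬝ᵥ (T * T) *ᵥ y - u₀ * (f ⬝ᵥ y) - t₀ * (f ⬝ᵥ T *ᵥ y)) = 0 := by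
      intro f y
      have h1 := h x₀ y f g₀
      rw [hg0, hg0', ← hu₀, s2 f] at h1
      unfold d3 at h1
      linear_combination h1
    -- step 4
    have s4 : ∀ f y, f ⬝ᵥ (T * T) *ᵥ y - u₀ * (f ⬝ᵥ y) - t₀ * (f ⬝ᵥ T *ᵥ y) = 0 := by
      intro f y
      by_cases hf : f ⬝ᵥ T *ᵥ x₀ = 0
      · have h1 := s3 (f + f₀) y
        rw [add_dotProduct, hf, hf0', zero_add, one_mul] at h1
        simp only [add_dotProduct] at h1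
        linear_combination h1 - s1 y
      · exact (mul_eq_zero.mp (s3 f y)).resolve_left hf
    refine ⟨t₀, u₀, ?_⟩
    ext i j
    have h1 := s4 (Pi.single i 1) (Pi.single j 1)
    simp only [mulVec_single_one, single_one_dotProduct, Matrix.col_apply] at h1
    rw [Matrix.add_apply, Matrix.smul_apply, Matrix.smul_apply, Matrix.one_apply, smul_eq_mul,
      smul_eq_mul]
    rw [Pi.single_apply] at h1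
    linear_combination h1

lemma exists_e3 {T : Matrix (Fin n) (Fin n) ℂ} (hT : ¬ IsQuad T) : ∃ p : Par4 n, e3 T p ≠ 0 := by
  by_contra hcon
  push Not at hcon
  apply hT
  apply quad_of_d3
  intro x y f g
  have h1 := hcon (x, y, f, g)
  have h2 := hcon (x, y, f, -g)
  unfold e3 d3 at h1 h2
  simp only [neg_dotProduct] at h1 h2
  unfold d3
  linear_combination (1 / 2 : ℂ) * h1 - (1 / 2 : ℂ) * h2

lemma lpv_p1 : LPV (fun p : Par4 n => p.1) :=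
  LPV.linear (LinearMap.fst ℂ (Fin n → ℂ) ((Fin n → ℂ) × (Fin n → ℂ) × (Fin n → ℂ)))

lemma lpv_p2 : LPV (fun p : Par4 n => p.2.1) :=
  LPV.linear ((LinearMap.fst ℂ (Fin n → ℂ) ((Fin n → ℂ) × (Fin n → ℂ))) ∘ₗ
    (LinearMap.snd ℂ (Fin n → ℂ) ((Fin n → ℂ) × (Fin n → ℂ) × (Fin n → ℂ))))

lemma lpv_p3 : LPV (fun p : Par4 n => p.2.2.1) :=
  LPV.linear ((LinearMap.fst ℂ (Fin n → ℂ) (Fin n → ℂ)) ∘ₗ
    (LinearMap.snd ℂ (Fin n → ℂ) ((Fin n → ℂ) × (Fin n → ℂ))) ∘ₗ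
    (LinearMap.snd ℂ (Fin n → ℂ) ((Fin n → ℂ) × (Fin n → ℂ) × (Fin n → ℂ))))

lemma lpv_p4 : LPV (fun p : Par4 n => p.2.2.2) :=
  LPV.linear ((LinearMap.snd ℂ (Fin n → ℂ) (Fin n → ℂ)) ∘ₗ
    (LinearMap.snd ℂ (Fin n → ℂ) ((Fin n → ℂ) × (Fin n → ℂ))) ∘ₗ
    (LinearMap.snd ℂ (Fin n → ℂ) ((Fin n → ℂ) × (Fin n → ℂ) × (Fin n → ℂ))))

lemma lp_d3 {E : Type*} [AddCommGroup E] [Module ℂ E] {a0 a1 a2 b0 b1 b2 c0 c1 c2 : E → ℂ}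
    (ha0 : LP a0) (ha1 : LP a1) (ha2 : LP a2) (hb0 : LP b0) (hb1 : LP b1) (hb2 : LP b2)
    (hc0 : LP c0) (hc1 : LP c1) (hc2 : LP c2) :
    LP (fun p => d3 (a0 p) (a1 p) (a2 p) (b0 p) (b1 p) (b2 p) (c0 p) (c1 p) (c2 p)) := by
  unfold d3
  exact ((ha0.mul ((hb1.mul hc2).sub (hb2.mul hc1))).sub
    (ha1.mul ((hb0.mul hc2).sub (hb2.mul hc0)))).add
    (ha2.mul ((hb0.mul hc1).sub (hb1.mul hc0)))

lemma lp_e3 (T : Matrix (Fin n) (Fin n) ℂ) : LP (fun p : Par4 n => e3 T p) := by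
  have l : ∀ (M : Matrix (Fin n) (Fin n) ℂ) (u v : Par4 n → (Fin n → ℂ)), LPV u → LPV v →
      LP (fun p => u p ⬝ᵥ M *ᵥ v p) :=
    fun M u v hu hv => hu.dot (LPV.mulVec (LPM.const M) hv)
  unfold e3
  exact (lp_d3 (lpv_p3.dot lpv_p1) (l T _ _ lpv_p3 lpv_p1) (l (T * T) _ _ lpv_p3 lpv_p1)
      (lpv_p3.dot lpv_p2) (l T _ _ lpv_p3 lpv_p2) (l (T * T) _ _ lpv_p3 lpv_p2)
      (lpv_p4.dot lpv_p1) (l T _ _ lpv_p4 lpv_p1) (l (T * T) _ _ lpv_p4 lpv_p1)).sub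
    (lp_d3 (lpv_p4.dot lpv_p2) (l T _ _ lpv_p4 lpv_p2) (l (T * T) _ _ lpv_p4 lpv_p2)
      (lpv_p3.dot lpv_p2) (l T _ _ lpv_p3 lpv_p2) (l (T * T) _ _ lpv_p3 lpv_p2)
      (lpv_p4.dot lpv_p1) (l T _ _ lpv_p4 lpv_p1) (l (T * T) _ _ lpv_p4 lpv_p1))

/-- For two non-quadratic matrices there is a common `S` such that both commutators have
non-symmetric spectrum. -/
theorem exists_common {T T' : Matrix (Fin n) (Fin n) ℂ} (hT : ¬ IsQuad T) (hT' : ¬ IsQuad T') :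
    ∃ S, (∃ r : ℂ, r ∈ spectrum ℂ (br T S) ∧ -r ∉ spectrum ℂ (br T S)) ∧
      (∃ r : ℂ, r ∈ spectrum ℂ (br T' S) ∧ -r ∉ spectrum ℂ (br T' S)) := by
  obtain ⟨p, h1, h2⟩ := (lp_e3 T).exists_ne (lp_e3 T') (exists_e3 hT) (exists_e3 hT')
  exact ⟨rk2 p, nonsym_of_e3 h1, nonsym_of_e3 h2⟩

end Pool.Agent.Lib.MP_fda97a_al
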