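import Mathlib
import Pool.Agent.Lib.MP_fda97a_al.Sign2

/-!
# The description of all maps preserving spectra of commutators
-/

namespace Pool.Agent.Lib.MP_fda97a_al

open Matrix

variable {n : ℕ}

lemma mem_spectrum_neg {X : Matrix (Fin n) (Fin n) ℂ} {r : ℂ} :
    r ∈ spectrum ℂ (-X) ↔ -r ∈ spectrum ℂ X := by
  have := mem_spectrum_smul (X := X) (d := -1) (r := r) (by ring)
  rwa [neg_one_smul, neg_one_mul] at this

lemma br_swap (T S : Matrix (Fin n) (Fin n) ℂ) : br T S = -br S T := by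
  unfold br
  rw [neg_sub]

/-- symmetric version in the second variable -/
lemma neg_mem_of_quad_right {S : Matrix (Fin n) (Fin n) ℂ} (hS : IsQuad S)
    (T : Matrix (Fin n) (Fin n) ℂ) {r : ℂ} (hr : r ∈ spectrum ℂ (br T S)) :
    -r ∈ spectrum ℂ (br T S) := by
  rw [br_swap, mem_spectrum_neg] at hr ⊢
  exact neg_mem_of_quad hS T hr

section

variable {ψ : Matrix (Fin n) (Fin n) ℂ → Matrix (Fin n) (Fin n) ℂ} {s : ℂ}
  {φ : Matrix (Fin n) (Fin n) ℂ → Matrix (Fin n) (Fin n) ℂ} {κ : ℂ}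
  {e c : Matrix (Fin n) (Fin n) ℂ → ℂ}

lemma mem_image_iff (hψ : Mod ψ s) (hκ : κ ^ 4 = 1) (he : ∀ T, e T = 1 ∨ e T = -1)
    (hφ : ∀ T, φ T = (e T * κ) • ψ T + c T • 1) (T S : Matrix (Fin n) (Fin n) ℂ) (r : ℂ) :
    r ∈ spectrum ℂ (br (φ T) (φ S)) ↔ (e T * e S * (κ * κ * s)) * r ∈ spectrum ℂ (br T S) := by
  have he' : ∀ T, e T * e T = 1 := fun T => mul_self_eq_one_iff.mpr (he T)
  have hd : (e T * e S * (κ * κ * s)) * (e T * e S * (κ * κ * s)) = 1 := by
    have : (e T * e S * (κ * κ * s)) * (e T * e S * (κ * κ * s)) =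
      (e T * e T) * (e S * e S) * κ ^ 4 * (s * s) := by ring
    rw [this, hκ, he', he', hψ.sq]
    ring
  have hb : br (φ T) (φ S) = (e T * e S * (κ * κ * s)) • ψ (br T S) := by
    rw [hφ T, hφ S, br_add_scalar, br_smul_left, br_smul_right, hψ.br, smul_smul, smul_smul]
    congr 1
    ring
  rw [hb, mem_spectrum_smul hd, hψ.spec]

lemma sign_one (hψ : Mod ψ s) (hκ : κ ^ 4 = 1) (he : ∀ T, e T = 1 ∨ e T = -1)
    (hφ : ∀ T, φ T = (e T * κ) • ψ T + c T • 1)
    (H : ∀ T S, spectrum ℂ (br (φ T) (φ S)) = spectrum ℂ (br T S))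
    {T S : Matrix (Fin n) (Fin n) ℂ}
    (h : ∃ r : ℂ, r ∈ spectrum ℂ (br T S) ∧ -r ∉ spectrum ℂ (br T S)) :
    e T * e S * (κ * κ * s) = 1 := by
  have he' : ∀ T, e T * e T = 1 := fun T => mul_self_eq_one_iff.mpr (he T)
  have hd : (e T * e S * (κ * κ * s)) * (e T * e S * (κ * κ * s)) = 1 := by
    have : (e T * e S * (κ * κ * s)) * (e T * e S * (κ * κ * s)) =
      (e T * e T) * (e S * e S) * κ ^ 4 * (s * s) := by ring
    rw [this, hκ, he', he', hψ.sq]
    ring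
  rcases mul_self_eq_one_iff.mp hd with h1 | h1
  · exact h1
  · exfalso
    obtain ⟨r, hr, hr'⟩ := h
    apply hr'
    have h2 := (mem_image_iff hψ hκ he hφ T S r).mp (by rw [H]; exact hr)
    rwa [h1, neg_one_mul] at h2

lemma sign_const (hψ : Mod ψ s) (hκ : κ ^ 4 = 1) (he : ∀ T, e T = 1 ∨ e T = -1)
    (hφ : ∀ T, φ T = (e T * κ) • ψ T + c T • 1)
    (H : ∀ T S, spectrum ℂ (br (φ T) (φ S)) = spectrum ℂ (br T S))
    {T S : Matrix (Fin n) (Fin n) ℂ} (hT : ¬ IsQuad T) (hS : ¬ IsQuad S) : e T = e S := by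
  obtain ⟨R, h1, h2⟩ := exists_common hT hS
  have h3 := sign_one hψ hκ he hφ H h1
  have h4 := sign_one hψ hκ he hφ H h2
  have h5 : (e T - e S) * (e R * (κ * κ * s)) = 0 := by linear_combination h3 - h4
  rcases mul_eq_zero.mp h5 with h6 | h6
  · exact sub_eq_zero.mp h6
  · exfalso
    rw [mul_assoc, h6, mul_zero] at h3
    exact zero_ne_one h3

lemma sign_total (hψ : Mod ψ s) (hκ : κ ^ 4 = 1) (he : ∀ T, e T = 1 ∨ e T = -1)
    (hφ : ∀ T, φ T = (e T * κ) • ψ T + c T • 1)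
    (H : ∀ T S, spectrum ℂ (br (φ T) (φ S)) = spectrum ℂ (br T S))
    {T : Matrix (Fin n) (Fin n) ℂ} (hT : ¬ IsQuad T) : κ * κ * s = 1 := by
  obtain ⟨S, h1, -⟩ := exists_common hT hT
  have hS : ¬ IsQuad S := by
    intro hS
    obtain ⟨r, hr, hr'⟩ := h1
    exact hr' (neg_mem_of_quad_right hS T hr)
  have h3 := sign_one hψ hκ he hφ H h1
  rw [sign_const hψ hκ he hφ H hS hT, mul_self_eq_one_iff.mpr (he T), one_mul] at h3
  exact h3

/-- the described maps have the property -/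
lemma preserves (hψ : Mod ψ s) (hκ : κ * κ * s = 1) (he : ∀ T, e T = 1 ∨ e T = -1)
    (hconst : ∀ T S, ¬ IsQuad T → ¬ IsQuad S → e T = e S)
    (hφ : ∀ T, φ T = (e T * κ) • ψ T + c T • 1) (T S : Matrix (Fin n) (Fin n) ℂ) :
    spectrum ℂ (br (φ T) (φ S)) = spectrum ℂ (br T S) := by
  have hκ4 : κ ^ 4 = 1 := by
    have : κ ^ 4 = (κ * κ * s) * (κ * κ * s) * (s * s) ^ 3 := by
      have hs2 : s * s = 1 := hψ.sq
      have : (κ * κ * s) * (κ * κ * s) * (s * s) ^ 3 = κ ^ 4 * (s * s) ^ 4 := by ring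
      rw [this, hs2]
      ring
    rw [this, hκ, hψ.sq]
    ring
  ext r
  rw [mem_image_iff hψ hκ4 he hφ, hκ, mul_one]
  by_cases hTS : e T = e S
  · rw [hTS, mul_self_eq_one_iff.mpr (he S), one_mul]
  · have h1 : e T * e S = -1 := by
      rcases he T with h | h <;> rcases he S with h' | h'
      · exact absurd (h.trans h'.symm) hTS
      · rw [h, h']; ring
      · rw [h, h']; ring
      · exact absurd (h.trans h'.symm) hTS
    rw [h1, neg_one_mul]
    by_cases hT : IsQuad T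
    · exact ⟨fun h => by
        have := neg_mem_of_quad hT S h
        rwa [neg_neg] at this, fun h => neg_mem_of_quad hT S h⟩
    · have hS : IsQuad S := by
        by_contra hS
        exact hTS (hconst T S hT hS)
      exact ⟨fun h => by
        have := neg_mem_of_quad_right hS T h
        rwa [neg_neg] at this, fun h => neg_mem_of_quad_right hS T h⟩

end

/-! ### Small sizes -/

lemma quad_two (T : Matrix (Fin 2) (Fin 2) ℂ) : IsQuad T := by
  refine ⟨T 0 0 + T 1 1, -(T 0 0 * T 1 1 - T 0 1 * T 1 0), ?_⟩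
  ext i j
  fin_cases i <;> fin_cases j <;> simp [Matrix.mul_apply, Fin.sum_univ_two] <;> ring

lemma not_quad_exists (hn : 3 ≤ n) : ∃ T : Matrix (Fin n) (Fin n) ℂ, ¬ IsQuad T := by
  refine ⟨Matrix.diagonal fun i => (i : ℂ), ?_⟩
  rintro ⟨a, b, h⟩
  rw [Matrix.diagonal_mul_diagonal] at h
  have h1 : ∀ i : Fin n, ((i : ℕ) : ℂ) * ((i : ℕ) : ℂ) = a * ((i : ℕ) : ℂ) + b := by
    intro i
    have := congrFun (congrFun h i) i
    simpa using this
  have e0 := h1 ⟨0, by omega⟩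
  have e1 := h1 ⟨1, by omega⟩
  have e2 := h1 ⟨2, by omega⟩
  simp only [Nat.cast_zero, Nat.cast_one, Nat.cast_ofNat] at e0 e1 e2
  have : (2 : ℂ) = 0 := by linear_combination e0 - 2 * e1 + e2
  norm_num at this

/-- the symplectic unit of size two -/
def J2 : (Matrix (Fin 2) (Fin 2) ℂ)ˣ where
  val := !![0, 1; -1, 0]
  inv := !![0, -1; 1, 0]
  val_inv := by
    ext i j
    fin_cases i <;> fin_cases j <;> simp [Matrix.mul_apply, Fin.sum_univ_two]
  inv_val := by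
    ext i j
    fin_cases i <;> fin_cases j <;> simp [Matrix.mul_apply, Fin.sum_univ_two]

lemma J2_conj (T : Matrix (Fin 2) (Fin 2) ℂ) :
    T = (-1 : ℂ) • ((J2 : Matrix (Fin 2) (Fin 2) ℂ) * Tᵀ * ((J2⁻¹ : (Matrix (Fin 2) (Fin 2) ℂ)ˣ) :
      Matrix (Fin 2) (Fin 2) ℂ)) + T.trace • 1 := by
  change T = (-1 : ℂ) • (!![0, 1; -1, 0] * Tᵀ * !![0, -1; 1, 0]) + T.trace • 1
  ext i j
  fin_cases i <;> fin_cases j <;>
    simp [Matrix.mul_apply, Fin.sum_univ_two, Matrix.trace, Matrix.vecMul, dotProduct]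

end Pool.Agent.Lib.MP_fda97a_al
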