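import Mathlib
import Pool.Agent.Lib.MP_fda97a_al.Main

/-!
# The final statement
-/

namespace Pool.Agent.Lib.MP_fda97a_al

open Matrix

variable {n : ℕ}

/-- the target description -/
def Desc (φ : Matrix (Fin n) (Fin n) ℂ → Matrix (Fin n) (Fin n) ℂ) : Prop :=
  ∃ (A : (Matrix (Fin n) (Fin n) ℂ)ˣ) (ε η : Matrix (Fin n) (Fin n) ℂ → ℂ),
    (∀ T, ε T = 1 ∨ ε T = -1) ∧
    (∀ T S, ¬ IsQuad T → ¬ IsQuad S → ε T = ε S) ∧
    ((∀ T, φ T = ε T • ((A : Matrix (Fin n) (Fin n) ℂ) * T *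
        ((A⁻¹ : (Matrix (Fin n) (Fin n) ℂ)ˣ) : Matrix (Fin n) (Fin n) ℂ)) + η T • 1) ∨
     (∀ T, φ T = (Complex.I * ε T) • ((A : Matrix (Fin n) (Fin n) ℂ) * Tᵀ *
        ((A⁻¹ : (Matrix (Fin n) (Fin n) ℂ)ˣ) : Matrix (Fin n) (Fin n) ℂ)) + η T • 1))

lemma desc_of_id {φ : Matrix (Fin n) (Fin n) ℂ → Matrix (Fin n) (Fin n) ℂ}
    (A : (Matrix (Fin n) (Fin n) ℂ)ˣ) {κ : ℂ} {e c : Matrix (Fin n) (Fin n) ℂ → ℂ}
    (he : ∀ T, e T = 1 ∨ e T = -1) (hconst : ∀ T S, ¬ IsQuad T → ¬ IsQuad S → e T = e S)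
    (hκ : κ * κ = 1)
    (hφ : ∀ T, φ T = (e T * κ) • ((A : Matrix (Fin n) (Fin n) ℂ) * T *
        ((A⁻¹ : (Matrix (Fin n) (Fin n) ℂ)ˣ) : Matrix (Fin n) (Fin n) ℂ)) + c T • 1) :
    Desc φ := by
  refine ⟨A, fun T => e T * κ, c, ?_, ?_, Or.inl hφ⟩
  · intro T
    apply mul_self_eq_one_iff.mp
    have := mul_self_eq_one_iff.mpr (he T)
    linear_combination κ * κ * this + hκ
  · intro T S hT hS
    beta_reduce
    rw [hconst T S hT hS]

lemma desc_of_tr {φ : Matrix (Fin n) (Fin n) ℂ → Matrix (Fin n) (Fin n) ℂ}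
    (A : (Matrix (Fin n) (Fin n) ℂ)ˣ) {κ : ℂ} {e c : Matrix (Fin n) (Fin n) ℂ → ℂ}
    (he : ∀ T, e T = 1 ∨ e T = -1) (hconst : ∀ T S, ¬ IsQuad T → ¬ IsQuad S → e T = e S)
    (hκ : κ * κ = -1)
    (hφ : ∀ T, φ T = (e T * κ) • ((A : Matrix (Fin n) (Fin n) ℂ) * Tᵀ *
        ((A⁻¹ : (Matrix (Fin n) (Fin n) ℂ)ˣ) : Matrix (Fin n) (Fin n) ℂ)) + c T • 1) :
    Desc φ := by
  have hI := Complex.I_mul_I
  refine ⟨A, fun T => -Complex.I * (e T * κ), c, ?_, ?_, Or.inr ?_⟩
  · intro T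
    apply mul_self_eq_one_iff.mp
    have := mul_self_eq_one_iff.mpr (he T)
    linear_combination κ * κ * (Complex.I * Complex.I) * this + (Complex.I * Complex.I) * hκ - hI
  · intro T S hT hS
    beta_reduce
    rw [hconst T S hT hS]
  · intro T
    have h1 : Complex.I * (-Complex.I * (e T * κ)) = e T * κ := by
      linear_combination -(e T * κ) * hI
    rw [hφ T]
    beta_reduce
    rw [h1]

lemma J2_conj' (A : (Matrix (Fin 2) (Fin 2) ℂ)ˣ) (T : Matrix (Fin 2) (Fin 2) ℂ) :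
    (A : Matrix (Fin 2) (Fin 2) ℂ) * T *
      ((A⁻¹ : (Matrix (Fin 2) (Fin 2) ℂ)ˣ) : Matrix (Fin 2) (Fin 2) ℂ) =
    (-1 : ℂ) • (((A * J2 : (Matrix (Fin 2) (Fin 2) ℂ)ˣ) : Matrix (Fin 2) (Fin 2) ℂ) * Tᵀ *
      (((A * J2)⁻¹ : (Matrix (Fin 2) (Fin 2) ℂ)ˣ) : Matrix (Fin 2) (Fin 2) ℂ)) +
      T.trace • 1 := by
  have h1 := congrArg (fun X => (A : Matrix (Fin 2) (Fin 2) ℂ) * X *
      ((A⁻¹ : (Matrix (Fin 2) (Fin 2) ℂ)ˣ) : Matrix (Fin 2) (Fin 2) ℂ)) (J2_conj T)
  beta_reduce at h1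
  rw [h1, _root_.mul_inv_rev, Units.val_mul, Units.val_mul]
  simp only [mul_add, add_mul, mul_smul_comm, smul_mul_assoc, mul_one, Units.mul_inv, mul_assoc]

/-- every map with the property is described -/
theorem desc_of_preserves {φ : Matrix (Fin n) (Fin n) ℂ → Matrix (Fin n) (Fin n) ℂ}
    (H : ∀ T S, spectrum ℂ (br (φ T) (φ S)) = spectrum ℂ (br T S)) : Desc φ := by
  rcases Nat.lt_or_ge n 2 with hn | hn
  · -- all matrices are scalar
    have hsc : ∀ X : Matrix (Fin n) (Fin n) ℂ, ∃ c : ℂ, X = c • 1 := by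
      intro X
      have h01 : n = 0 ∨ n = 1 := by omega
      rcases h01 with rfl | rfl
      · exact ⟨0, by ext i; exact Fin.elim0 i⟩
      · refine ⟨X 0 0, ?_⟩
        ext i j
        have hi : i = 0 := Subsingleton.elim _ _
        have hj : j = 0 := Subsingleton.elim _ _
        rw [hi, hj]
        simp
    choose c hc using hsc
    refine ⟨1, fun _ => 1, fun T => c (φ T - T), fun _ => Or.inl rfl, fun _ _ _ _ => rfl,
      Or.inl fun T => ?_⟩
    beta_reduce
    rw [← hc, one_smul, inv_one, Units.val_one, one_mul, mul_one]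
    abel
  · obtain ⟨h, k, κ, e, c, hk, kh, hκ, he, hcase⟩ := struct hn H
    -- split `κ² = ±1`
    have hκ2 : κ * κ = 1 ∨ κ * κ = -1 := by
      apply mul_self_eq_one_iff.mp
      linear_combination hκ
    obtain ⟨A, hA, hA'⟩ : ∃ A : (Matrix (Fin n) (Fin n) ℂ)ˣ, (A : Matrix (Fin n) (Fin n) ℂ) = h ∧
        ((A⁻¹ : (Matrix (Fin n) (Fin n) ℂ)ˣ) : Matrix (Fin n) (Fin n) ℂ) = k :=
      ⟨⟨h, k, hk, kh⟩, rfl, rfl⟩
    rcases Nat.lt_or_ge n 3 with hn3 | hn3
    · -- size two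
      obtain rfl : n = 2 := by omega
      have hconst : ∀ T S, ¬ IsQuad T → ¬ IsQuad S → e T = e S :=
        fun T S hT => absurd (quad_two T) hT
      have hconst' : ∀ T S, ¬ IsQuad T → ¬ IsQuad S → -e T = -e S :=
        fun T S hT => absurd (quad_two T) hT
      have he' : ∀ T, -e T = 1 ∨ -e T = -1 := by
        intro T
        rcases he T with h | h
        · right; rw [h]
        · left; rw [h, neg_neg]
      rcases hcase with hφ | hφ
      · rcases hκ2 with h1 | h1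
        · exact desc_of_id A he hconst h1 (by rw [hA, hA']; exact hφ)
        · refine desc_of_tr (c := fun T => e T * κ * T.trace + c T) (A * J2) he' hconst' h1 ?_
          intro T
          rw [hφ T, ← hA, ← hA', J2_conj' A T, smul_add, smul_smul, smul_smul, add_assoc,
            ← add_smul]
          congr 2
          ring
      · have hφ' : ∀ T, φ T = (-e T * κ) • (((A * J2 : (Matrix (Fin 2) (Fin 2) ℂ)ˣ) :
            Matrix (Fin 2) (Fin 2) ℂ) * T *
            (((A * J2)⁻¹ : (Matrix (Fin 2) (Fin 2) ℂ)ˣ) : Matrix (Fin 2) (Fin 2) ℂ)) +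
            (e T * κ * T.trace + c T) • 1 := by
          intro T
          rw [hφ T, ← hA, ← hA', J2_conj' A Tᵀ, smul_add, smul_smul, smul_smul, add_assoc,
            ← add_smul, transpose_transpose, Matrix.trace_transpose]
          congr 2
          ring
        rcases hκ2 with h1 | h1
        · exact desc_of_id (A * J2) he' hconst' h1 hφ'
        · exact desc_of_tr A he hconst h1 (by rw [hA, hA']; exact hφ)
    · -- size at least three
      obtain ⟨T₀, hT₀⟩ := not_quad_exists hn3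
      rcases hcase with hφ | hφ
      · have h1 := sign_total (mod_id hk kh) hκ he hφ H hT₀
        rw [mul_one] at h1
        exact desc_of_id A he (fun T S hT hS => sign_const (mod_id hk kh) hκ he hφ H hT hS) h1
          (by rw [hA, hA']; exact hφ)
      · have h1 := sign_total (mod_tr hk kh) hκ he hφ H hT₀
        exact desc_of_tr A he (fun T S hT hS => sign_const (mod_tr hk kh) hκ he hφ H hT hS)
          (by linear_combination -h1) (by rw [hA, hA']; exact hφ)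

/-- every described map has the property -/
theorem preserves_of_desc {φ : Matrix (Fin n) (Fin n) ℂ → Matrix (Fin n) (Fin n) ℂ}
    (h : Desc φ) (T S : Matrix (Fin n) (Fin n) ℂ) :
    spectrum ℂ (br (φ T) (φ S)) = spectrum ℂ (br T S) := by
  obtain ⟨A, ε, η, hε, hconst, hφ | hφ⟩ := h
  · exact preserves (κ := 1) (e := ε) (c := η) (mod_id A.mul_inv A.inv_mul) (by ring) hε hconst
      (fun T => by rw [hφ T, mul_one]) T S
  · exact preserves (κ := Complex.I) (e := ε) (c := η) (mod_tr A.mul_inv A.inv_mul)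
      (by rw [Complex.I_mul_I]; ring) hε hconst
      (fun T => by rw [hφ T, mul_comm (ε T) Complex.I]) T S

end Pool.Agent.Lib.MP_fda97a_al
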